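import Pool.Agent.H72.Lib.S3997.NC.Defs

/-!
# Trajectories in a domain between two plates which come to rest
-/

set_option autoImplicit false

open Set Filter Topology MeasureTheory
open scoped ENNReal

namespace Pool.Agent.H72.NS

open Pool.Agent.Q61.NC

/-- `Ω` is a bounded set in the slab `|x j| ≤ a` of `ℝ^d`. `(u, p)` is, for positive times, a
classical solution of the Navier-Stokes equations with unit viscosity on (a neighbourhood `N` of)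
`Ω`. It vanishes at the points of `Ω` on the two walls `x j = a`, `x j = -a`, starts at `u₀`, has
finite energy, and is at rest from time `T` on. -/
structure Stopped {d : ℕ} (j : Fin d) (a T : ℝ) (Ω : Set (Sp d)) (u₀ : Sp d → Sp d)
    (u : ℝ → Sp d → Sp d) (p : ℝ → Sp d → ℝ) : Prop where
  regular : ∃ N : Set (Sp d), IsOpen N ∧ Ω ⊆ N ∧
    ContDiffOn ℝ 1 (fun z : ℝ × Sp d => u z.1 z.2) (Ioi 0 ×ˢ N) ∧
    (∀ t, 0 < t → ContDiffOn ℝ 2 (u t) N) ∧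
    (∀ i m, ContinuousOn (fun z : ℝ × Sp d => pd i (pd i fun y => u z.1 y m) z.2) (Ioi 0 ×ˢ N)) ∧
    ContDiffOn ℝ 1 (fun z : ℝ × Sp d => p z.1 z.2) (Ioi 0 ×ˢ N)
  momentum : ∀ t, 0 < t → ∀ x ∈ Ω, ∀ m,
    deriv (fun s => u s x m) t + ∑ i, u t x i * pd i (fun y => u t y m) x
      - ∑ i, pd i (pd i fun y => u t y m) x + pd m (p t) x = 0
  divfree : ∀ t, 0 < t → ∀ x ∈ Ω, ∑ i, pd i (fun y => u t y i) x = 0
  wall : ∀ t, 0 < t → ∀ x ∈ Ω, |x j| = a → u t x = 0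
  rest : ∀ t, T ≤ t → ∀ x ∈ Ω, u t x = 0
  initial : Tendsto (fun t => ∫⁻ x in Ω, ‖u t x - u₀ x‖ₑ ^ 2) (𝓝[>] 0) (𝓝 0)
  energy : ∫⁻ t in Ioi (0 : ℝ), ∫⁻ x in Ω, ∑ i, ∑ m, ‖pd i (fun y => u t y m) x‖ₑ ^ 2 < ⊤

end Pool.Agent.H72.NS
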