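import Pool.Agent.H72.Lib.S3997.NC.Pos

/-!
# The free flow between two walls, arbitrary square integrable profile
-/

set_option autoImplicit false

open Set Filter Topology MeasureTheory AddCircle
open scoped ENNReal ContDiff

namespace Pool.Agent.H72.NS

open Pool.Agent.Q61.NC

/-- The free flow between the walls `y = -a`, `y = a`. -/
structure DFlow (a : ℝ) (f : ℝ → ℝ) (b : ℤ → ℝ) (V Vt Vy : ℝ → ℝ → ℝ) : Prop where
  bd : ∃ M : ℝ, 0 ≤ M ∧ ∀ q, |b q| ≤ M
  ser : ∀ t y, 0 < t → V t y = ∑' q : ℤ, b q * Real.exp (-(lam (4 * a) q * t)) *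
    Real.sin (om (4 * a) q * (y + a))
  smooth : ContDiffOn ℝ ∞ (fun q : ℝ × ℝ => V q.1 q.2) (Dom (2 * a))
  ycont : ContinuousOn (fun q : ℝ × ℝ => Vy q.1 q.2) (Dom (2 * a))
  tcont : ContinuousOn (fun q : ℝ × ℝ => Vt q.1 q.2) (Dom (2 * a))
  dt : ∀ t y, 0 < t → |y| < 2 * a → HasDerivAt (fun s => V s y) (Vt t y) t
  dy : ∀ t y, 0 < t → |y| < 2 * a → HasDerivAt (fun v => V t v) (Vy t y) y
  dyy : ∀ t y, 0 < t → |y| < 2 * a → HasDerivAt (fun v => Vy t v) (Vt t y) y
  fd : ∀ t y, 0 < t → |y| < 2 * a → HasFDerivAt (fun q : ℝ × ℝ => V q.1 q.2)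
    (Vt t y • ContinuousLinearMap.fst ℝ ℝ ℝ + Vy t y • ContinuousLinearMap.snd ℝ ℝ ℝ) (t, y)
  wall : ∀ t, 0 < t → V t a = 0 ∧ V t (-a) = 0
  lim : Tendsto (fun t : ℝ => ∫⁻ y in Icc (-a) a, ‖V t y - f y‖ₑ ^ 2) (𝓝[>] 0) (𝓝 0)
  en : ∫⁻ t in Ioi (0 : ℝ), ∫⁻ y in Icc (-a) a, ‖Vy t y‖ₑ ^ 2 < ⊤

theorem pre_tr (a : ℝ) : (fun y : ℝ => y + a) ⁻¹' Icc 0 (2 * a) = Icc (-a) a := by
  ext y
  simp only [mem_preimage, mem_Icc]
  constructor
  · rintro ⟨h1, h2⟩
    constructor <;> linarith
  · rintro ⟨h1, h2⟩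
    constructor <;> linarith

theorem lint_tr (a : ℝ) (G : ℝ → ℝ≥0∞) :
    ∫⁻ y in Icc (-a) a, G (y + a) = ∫⁻ z in Icc 0 (2 * a), G z := by
  have h := (measurePreserving_add_right volume a).setLIntegral_comp_preimage_emb
    (measurableEmbedding_addRight a) G (Icc 0 (2 * a))
  rw [pre_tr] at h
  exact h

theorem om_neg' (L : ℝ) (q : ℤ) : om L (-q) = -om L q := by
  unfold om
  push_cast
  ring

theorem dflow {a : ℝ} (ha : 0 < a) {f : ℝ → ℝ} (hf : MemLp f 2 (volume.restrict (Icc (-a) a))) :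
    ∃ (b : ℤ → ℝ) (V Vt Vy : ℝ → ℝ → ℝ), DFlow a f b V Vt Vy := by
  have hL : Fact (0 < 4 * a) := ⟨by positivity⟩
  have hY : 0 < 4 * a := by positivity
  set G : ℝ → ℝ := indicator (Icc (-a) a) f with hG
  have hGm : MemLp G 2 volume := by
    rw [hG, memLp_indicator_iff_restrict measurableSet_Icc]
    exact hf
  set F : ℝ → ℝ := fun y => G (y - a) - G (-y - a) with hFd
  have hF0 : MemLp F 2 volume := by
    have h1 : MemLp (fun y : ℝ => G (y - a)) 2 volume :=
      hGm.comp_measurePreserving (measurePreserving_sub_right volume a)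
    exact h1.sub (h1.comp_measurePreserving (Measure.measurePreserving_neg volume))
  have hF : MemLp F 2 (volume.restrict (Ioc (-(4 * a / 2)) (-(4 * a / 2) + 4 * a))) :=
    hF0.mono_measure Measure.restrict_le_self
  have hodd : ∀ y, F (-y) = -F y := by
    intro y
    rw [hFd]
    simp only [neg_neg]
    ring
  obtain ⟨M, hM, hb⟩ := cf_bound hF
  have hb' : ∀ k, |-(cf (4 * a) F k).im * om (4 * a) k| ≤ M * (1 + lam (4 * a) k) := by
    intro k
    rw [abs_mul, abs_neg]
    have h1 := (Complex.abs_im_le_norm _).trans (hb k)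
    have h2 := abs_om_le (L := 4 * a) k
    have h3 := abs_nonneg (om (4 * a) k)
    gcongr
  set β : ℤ → ℝ := fun k => (-(cf (4 * a) F k).im) * om (4 * a) k with hβ
  set Z := fr (4 * a) β with hZ
  have hg : Good (4 * a) Z := by
    refine ⟨fr_jet hL.out hM hb', fun t₁ ht₁ => ?_⟩
    have hr : 0 < 1 / (2 * (4 * a) ^ 2) := by positivity
    obtain ⟨C, hC, hbd⟩ := fr_bd hL.out hM hb' hr t₁ ht₁
    refine ⟨C, 1 / (2 * (4 * a) ^ 2), hC, hr, ?_, hbd⟩
    have : 1 / (2 * (4 * a) ^ 2) * (4 * a) ^ 2 = 1 / 2 := by field_simp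
    rw [this]
    norm_num
  have hdom : ∀ y : ℝ, |y| < 2 * a → |y + a| < 4 * a := by
    intro y hy
    have := abs_add_le y a
    rw [abs_of_pos ha] at this
    linarith
  have hser : ∀ t y, 0 < t → FO Z t (y + a) = ∑' q : ℤ, (-(cf (4 * a) F q).im) *
      Real.exp (-(lam (4 * a) q * t)) * Real.sin (om (4 * a) q * (y + a)) := by
    intro t y ht
    rw [hZ, hβ, FO_fr hL.out hM hb' ht]
  have hmap : ContDiff ℝ ∞ (fun q : ℝ × ℝ => (q.1, q.2 + a)) := by fun_prop
  have hmaps : MapsTo (fun q : ℝ × ℝ => (q.1, q.2 + a)) (Dom (2 * a)) (Dom (4 * a)) := by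
    rintro ⟨t, y⟩ ⟨h1, h2⟩
    exact ⟨h1, hdom y h2⟩
  refine ⟨fun q => -(cf (4 * a) F q).im, fun t y => FO Z t (y + a), fun t y => FO (sh Z) t (y + a),
    fun t y => FE Z t (y + a), ?_⟩
  have hIoc : Ioc (-(4 * a / 2)) (-(4 * a / 2) + 4 * a) = Ioc (-(2 * a)) (2 * a) := by
    congr 1 <;> ring
  have hsub : Ioc 0 (2 * a) ⊆ Ioc (-(4 * a / 2)) (-(4 * a / 2) + 4 * a) := by
    rw [hIoc]
    exact Ioc_subset_Ioc (by linarith) le_rfl
  have hIcc : volume.restrict (Icc 0 (2 * a)) = volume.restrict (Ioc 0 (2 * a)) :=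
    Measure.restrict_congr_set Ioc_ae_eq_Icc.symm
  exact
    { bd := ⟨M, hM, fun q => by
        rw [abs_neg]
        exact (Complex.abs_im_le_norm _).trans (hb q)⟩
      ser := hser
      smooth := (smooth_FO hY hg).comp hmap.contDiffOn hmaps
      ycont := (smooth_FE hY hg).continuousOn.comp hmap.continuous.continuousOn hmaps
      tcont := (smooth_FO hY (hg.shift hY)).continuousOn.comp hmap.continuous.continuousOn hmaps
      dt := fun t y ht hy => FO_dt hY hg ht (hdom y hy)
      dy := fun t y ht hy => by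
        have h := FO_dy hY hg ht (hdom y hy)
        simpa using h.comp_add_const y a
      dyy := fun t y ht hy => by
        have h := FE_dy hY hg ht (hdom y hy)
        simpa using h.comp_add_const y a
      fd := fun t y ht hy => by
        have h1 := hasFDerivAt_FO hY hg ht (hdom y hy)
        have h2 : HasFDerivAt (fun q : ℝ × ℝ => (q.1, q.2 + a))
            (ContinuousLinearMap.id ℝ (ℝ × ℝ)) (t, y) := by
          have h3 := (hasFDerivAt_id (𝕜 := ℝ) ((t, y) : ℝ × ℝ)).add_const ((0 : ℝ), a)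
          refine h3.congr_of_eventuallyEq (Eventually.of_forall fun q => ?_)
          simp [Prod.ext_iff]
        have h4 := HasFDerivAt.comp (g := fun q : ℝ × ℝ => FO Z q.1 q.2) (t, y) h1 h2
        rw [ContinuousLinearMap.comp_id] at h4
        exact h4
      wall := by
        intro t ht
        have hs : ∀ n : ℤ, Real.sin (om (4 * a) n * (a + a)) = 0 := fun n => by
          have e : om (4 * a) n * (a + a) = n * Real.pi := by
            unfold om
            field_simp
            ring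
          rw [e]
          exact Real.sin_int_mul_pi n
        constructor
        · show FO Z t (a + a) = 0
          rw [hser t a ht]
          simp [hs]
        · show FO Z t (-a + a) = 0
          rw [hser t (-a) ht]
          simp
      lim := by
        have h1 : ∀ t : ℝ, ∫⁻ y in Icc (-a) a, ‖FO Z t (y + a) - f y‖ₑ ^ 2 =
            ∫⁻ z in Ioc 0 (2 * a), ‖FO Z t z - f (z - a)‖ₑ ^ 2 := by
          intro t
          have h2 := lint_tr a (fun z => ‖FO Z t z - f (z - a)‖ₑ ^ 2)
          simp only [add_sub_cancel_right] at h2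
          rw [h2, hIcc]
        simp_rw [h1]
        refine lim_of (L := 4 * a) (F := F) (T := 2) (by norm_num) hF hsub ?_ ?_
        · filter_upwards [ae_restrict_mem measurableSet_Ioc] with y hy
          have h1 : y - a ∈ Icc (-a) a := ⟨by linarith [hy.1], by linarith [hy.2]⟩
          have h2 : -y - a ∉ Icc (-a) a := fun h => by linarith [h.1, hy.1]
          rw [hFd]
          simp only
          rw [hG, indicator_of_mem h1, indicator_of_notMem h2]
          ring
        · intro t y h0 _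
          exact (odd_series hF hodd h0 y).1
      en := by
        have h1 : ∀ t : ℝ, ∫⁻ y in Icc (-a) a, ‖FE Z t (y + a)‖ₑ ^ 2 =
            ∫⁻ z in Ioc 0 (2 * a), ‖FE Z t z‖ₑ ^ 2 := by
          intro t
          have h2 := lint_tr a (fun z => ‖FE Z t z‖ₑ ^ 2)
          rw [h2, hIcc]
        simp_rw [h1]
        refine lt_of_le_of_lt ?_ (energy hF)
        refine setLIntegral_mono' measurableSet_Ioi fun t ht => ?_
        refine le_trans ?_ (lintegral_mono_set hsub)
        refine le_of_eq ?_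
        refine lintegral_congr fun y => ?_
        rw [(odd_series hF hodd ht y).2] }

end Pool.Agent.H72.NS
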