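import Pool.Agent.H72.NS.N9

/-!
# All shear flows between two plates come to rest
-/

set_option autoImplicit false

open Set Filter Topology MeasureTheory
open scoped ENNReal ContDiff

namespace Pool.Agent.H72.NS

open Pool.Agent.Q61.NC

theorem exists_two {d : ℕ} (hd : 3 ≤ d) (j : Fin d) : ∃ k l : Fin d, j ≠ k ∧ j ≠ l ∧ k ≠ l := by
  have h1 : ∃ k ∈ (Finset.univ : Finset (Fin d)), k ∉ ({j} : Finset (Fin d)) := by
    apply Finset.exists_mem_notMem_of_card_lt_card
    rw [Finset.card_singleton, Finset.card_univ, Fintype.card_fin]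
    omega
  obtain ⟨k, -, hk⟩ := h1
  have hk' : k ≠ j := by simpa using hk
  have h2 : ∃ l ∈ (Finset.univ : Finset (Fin d)), l ∉ ({j, k} : Finset (Fin d)) := by
    apply Finset.exists_mem_notMem_of_card_lt_card
    have := Finset.card_le_two (a := j) (b := k)
    rw [Finset.card_univ, Fintype.card_fin]
    omega
  obtain ⟨l, -, hl⟩ := h2
  have hl' : l ≠ j ∧ l ≠ k := by simpa using hl
  exact ⟨k, l, hk'.symm, hl'.1.symm, hl'.2.symm⟩

theorem shear_stops {d : ℕ} (hd : 3 ≤ d) (j : Fin d) {a T : ℝ} (ha : 0 < a) (hT : 0 < T)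
    {U₀ : ℝ → Sp d} (h0 : ∀ y, U₀ y j = 0) (hU : MemLp U₀ 2 (volume.restrict (Icc (-a) a)))
    {Ω : Set (Sp d)} (hΩ : ∀ x ∈ Ω, |x j| ≤ a) (hΩm : MeasurableSet Ω)
    (hbd : Bornology.IsBounded Ω) :
    ∃ u, Stopped j a T Ω (fun x => U₀ (x j)) u (fun _ _ => 0) := by
  obtain ⟨k, l, hjk, hjl, hkl⟩ := exists_two hd j
  have hΩs : Ω ⊆ slab j (Icc (-a) a) := fun x hx => abs_le.1 (hΩ x hx)
  obtain ⟨R, hR, hΩR⟩ := subset_box hΩs hbd
  set B : ℝ := 2 * R with hB'
  have hB : 0 < B := by positivity
  -- the free flows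
  have hUk : ∀ m, MemLp (fun y => U₀ y m) 2 (volume.restrict (Icc (-a) a)) := fun m =>
    (EuclideanSpace.proj m : Sp d →L[ℝ] ℝ).comp_memLp' hU
  have hVex : ∀ m : Fin d, ∃ (b : ℤ → ℝ) (V Vt Vy : ℝ → ℝ → ℝ),
      DFlow a (fun y => U₀ y m) b V Vt Vy ∧ (m = j → V = (fun _ _ => 0) ∧ Vy = fun _ _ => 0) := by
    intro m
    by_cases hmj : m = j
    · refine ⟨fun _ => 0, fun _ _ => 0, fun _ _ => 0, fun _ _ => 0, ?_, fun _ => ⟨rfl, rfl⟩⟩
      have e : (fun y => U₀ y m) = fun _ => 0 := funext fun y => by rw [hmj, h0]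
      rw [e]
      exact dflow_zero a
    · obtain ⟨b, V, Vt, Vy, h⟩ := dflow ha (hUk m)
      exact ⟨b, V, Vt, Vy, h, fun h' => absurd h' hmj⟩
  choose b V Vt Vy hV hVj using hVex
  set Ts : Fin d → ℝ := fun m => if m = k then T / 2 else T with hTs
  set Uo : Fin d → ℝ → ℝ → ℝ := fun m => if m = k then V l else fun _ _ => 0 with hUo
  have hTs0 : ∀ m, 0 < Ts m := fun m => by
    rw [hTs]
    simp only
    split_ifs <;> linarith
  have hTs2 : ∀ m, T / 4 ≤ Ts m / 2 := fun m => by
    rw [hTs]
    simp only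
    split_ifs <;> linarith
  have hTs3 : ∀ m, Ts m ≤ T := fun m => by
    rw [hTs]
    simp only
    split_ifs <;> linarith
  have hWex : ∀ m : Fin d, ∃ W Wt Wx Wy Wxx Wxy Wyy : ℝ → ℝ → ℝ → ℝ,
      WFlow a B (Ts m) (Uo m) (V m) (Vy m) W Wt Wx Wy Wxx Wxy Wyy ∧
      (m = j → W = (fun _ _ _ => 0) ∧ Wx = (fun _ _ _ => 0) ∧ Wy = fun _ _ _ => 0) := by
    intro m
    by_cases hmj : m = j
    · refine ⟨fun _ _ _ => 0, fun _ _ _ => 0, fun _ _ _ => 0, fun _ _ _ => 0, fun _ _ _ => 0,
        fun _ _ _ => 0, fun _ _ _ => 0, ?_, fun _ => ⟨rfl, rfl, rfl⟩⟩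
      rw [(hVj m hmj).1, (hVj m hmj).2]
      exact wflow_zero a B (Ts m) (Uo m)
    · by_cases hmk : m = k
      · have e : Uo m = V l := by rw [hUo]; simp only; rw [if_pos hmk]
        rw [e]
        obtain ⟨W, Wt, Wx, Wy, Wxx, Wxy, Wyy, h⟩ := wflow ha hB (hTs0 m) (hV m) (hV l)
        exact ⟨W, Wt, Wx, Wy, Wxx, Wxy, Wyy, h, fun h' => absurd h' hmj⟩
      · have e : Uo m = fun _ _ => 0 := by rw [hUo]; simp only; rw [if_neg hmk]
        rw [e]
        obtain ⟨W, Wt, Wx, Wy, Wxx, Wxy, Wyy, h⟩ := wflow ha hB (hTs0 m) (hV m) (dflow_zero a)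
        exact ⟨W, Wt, Wx, Wy, Wxx, Wxy, Wyy, h, fun h' => absurd h' hmj⟩
  choose W Wt Wx Wy Wxx Wxy Wyy hW hWj using hWex
  set r : Fin d → Fin d := fun m => if m = k then l else k with hr
  have hrk : r k = l := by rw [hr]; simp
  have hrm : ∀ m, m ≠ k → r m = k := fun m hm => by rw [hr]; simp [hm]
  have hrj : ∀ m, r m ≠ j := fun m => by
    by_cases hm : m = k
    · rw [hm, hrk]; exact hjl.symm
    · rw [hrm m hm]; exact hjk.symm
  have hrr : ∀ m, r m ≠ m := fun m => by
    by_cases hm : m = k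
    · rw [hm, hrk]; exact hkl.symm
    · rw [hrm m hm]; exact fun h => hm h.symm
  set u : ℝ → Sp d → Sp d := fun t x =>
    WithLp.toLp 2 fun m => W m t (x (r m)) (x j) with hu
  have huk : ∀ t x m, u t x m = W m t (x (r m)) (x j) := fun t x m => rfl
  -- the region
  set N : Set (Sp d) := {x | |x k| < B ∧ |x l| < B ∧ |x j| < 2 * a} with hN
  have hcj : ∀ i : Fin d, Continuous fun x : Sp d => x i := fun i =>
    (EuclideanSpace.proj i : Sp d →L[ℝ] ℝ).continuous
  have hNo : IsOpen N :=
    (isOpen_lt (hcj k).abs continuous_const).inter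
      ((isOpen_lt (hcj l).abs continuous_const).inter (isOpen_lt (hcj j).abs continuous_const))
  have hNr : ∀ x ∈ N, ∀ m, |x (r m)| < B := fun x hx m => by
    by_cases hm : m = k
    · rw [hm, hrk]; exact hx.2.1
    · rw [hrm m hm]; exact hx.1
  have hNj : ∀ x ∈ N, |x j| < 2 * a := fun x hx => hx.2.2
  have hΩR' : ∀ x ∈ Ω, ∀ m, |x (r m)| ≤ R := fun x hx m => abs_le.2 ((hΩR hx).2 _ (hrj m))
  have hGN : Ω ⊆ N := fun x hx => ⟨by
    have := abs_le.2 ((hΩR hx).2 k hjk.symm)
    linarith, by
    have := abs_le.2 ((hΩR hx).2 l hjl.symm)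
    linarith, by
    have := hΩ x hx
    linarith⟩
  have hpd : ∀ m t, 0 < t → ∀ x ∈ N, ∀ i, pd i (fun y => u t y m) x =
      (if i = r m then Wx m t (x (r m)) (x j) else 0) +
        (if i = j then Wy m t (x (r m)) (x j) else 0) := fun m t ht x hx i =>
    pd_plane (F := fun p : ℝ × ℝ => W m t p.1 p.2) (Eventually.of_forall fun y => huk t y m)
      ((hW m).fd t _ _ ht (hNr x hx m) (hNj x hx)) i
  have hpx : ∀ m t, 0 < t → ∀ x ∈ N, pd (r m) (pd (r m) fun y => u t y m) x =
      Wxx m t (x (r m)) (x j) := by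
    intro m t ht x hx
    have h1 : (pd (r m) fun y => u t y m) =ᶠ[𝓝 x] fun y =>
        (fun p : ℝ × ℝ => Wx m t p.1 p.2) (y (r m), y j) := by
      filter_upwards [hNo.mem_nhds hx] with y hy
      rw [hpd m t ht y hy, if_pos rfl, if_neg (hrj m), add_zero]
    rw [pd_plane (F := fun p : ℝ × ℝ => Wx m t p.1 p.2) h1
      ((hW m).fdx t _ _ ht (hNr x hx m) (hNj x hx)) (r m), if_pos rfl, if_neg (hrj m), add_zero]
  have hpy : ∀ m t, 0 < t → ∀ x ∈ N, pd j (pd j fun y => u t y m) x =
      Wyy m t (x (r m)) (x j) := by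
    intro m t ht x hx
    have h1 : (pd j fun y => u t y m) =ᶠ[𝓝 x] fun y =>
        (fun p : ℝ × ℝ => Wy m t p.1 p.2) (y (r m), y j) := by
      filter_upwards [hNo.mem_nhds hx] with y hy
      rw [hpd m t ht y hy, if_neg (hrj m).symm, if_pos rfl, zero_add]
    rw [pd_plane (F := fun p : ℝ × ℝ => Wy m t p.1 p.2) h1
      ((hW m).fdy t _ _ ht (hNr x hx m) (hNj x hx)) j, if_neg (hrj m).symm, if_pos rfl, zero_add]
  have hp0 : ∀ m t, 0 < t → ∀ x ∈ N, ∀ i, i ≠ j → i ≠ r m →
      pd i (pd i fun y => u t y m) x = 0 := by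
    intro m t ht x hx i hij hil
    have h1 : (pd i fun y => u t y m) =ᶠ[𝓝 x] fun _ => 0 := by
      filter_upwards [hNo.mem_nhds hx] with y hy
      rw [hpd m t ht y hy, if_neg hij, if_neg hil, add_zero]
    rw [pd, h1.fderiv_eq]
    simp
  have hlap : ∀ m t, 0 < t → ∀ x ∈ N, ∑ i, pd i (pd i fun y => u t y m) x =
      Wxx m t (x (r m)) (x j) + Wyy m t (x (r m)) (x j) := by
    intro m t ht x hx
    have e4 : ∑ i, pd i (pd i fun y => u t y m) x =
        ∑ i ∈ ({r m, j} : Finset (Fin d)), pd i (pd i fun y => u t y m) x := by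
      refine (Finset.sum_subset (Finset.subset_univ _) fun i _ hi => ?_).symm
      rw [Finset.mem_insert, Finset.mem_singleton, not_or] at hi
      exact hp0 m t ht x hx i hi.2 hi.1
    rw [e4, Finset.sum_pair (hrj m), hpx m t ht x hx, hpy m t ht x hx]
  have huj : ∀ t x, u t x j = 0 := fun t x => by rw [huk, (hWj j rfl).1]
  have hlin : ∀ m t, 0 < t → ∀ x ∈ N, ∑ i, u t x i * pd i (fun y => u t y m) x =
      Uo m t (x j) * Wx m t (x (r m)) (x j) := by
    intro m t ht x hx
    have e1 : ∑ i, u t x i * pd i (fun y => u t y m) x = u t x (r m) * Wx m t (x (r m)) (x j) := by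
      rw [Finset.sum_eq_single (r m)]
      · rw [hpd m t ht x hx, if_pos rfl, if_neg (hrj m), add_zero]
      · intro i _ hi
        rw [hpd m t ht x hx, if_neg hi, zero_add]
        by_cases hij : i = j
        · rw [hij, huj, zero_mul]
        · rw [if_neg hij, mul_zero]
      · intro h
        exact absurd (Finset.mem_univ _) h
    rw [e1]
    by_cases hmk : m = k
    · have hU1 : Uo m = V l := by rw [hUo]; simp only; rw [if_pos hmk]
      rw [hU1, hmk, hrk, huk]
      have hTl : Ts l = T := by rw [hTs]; simp [hkl.symm]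
      have hTk : Ts k = T / 2 := by rw [hTs]; simp
      rcases le_or_gt t (T / 2) with h1 | h1
      · rw [((hW l).early t _ _ ht (by rw [hTl]; exact h1)).1]
      · rw [((hW k).late t _ _ (by rw [hTk]; exact h1.le)).2.1, mul_zero, mul_zero]
    · have hU1 : Uo m = fun _ _ => 0 := by rw [hUo]; simp only; rw [if_neg hmk]
      rw [hU1, hrm m hmk, huk, zero_mul]
      have hTm : Ts m = T := by rw [hTs]; simp [hmk]
      have hTk : Ts k = T / 2 := by rw [hTs]; simp
      rcases le_or_gt t (T / 2) with h1 | h1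
      · rw [((hW m).early t _ _ ht (by rw [hTm]; exact h1)).2.1, mul_zero]
      · rw [((hW k).late t _ _ (by rw [hTk]; exact h1.le)).1, zero_mul]
  -- integrals over `Ω`
  have hbox : ∃ c : ℝ≥0∞, c ≠ ⊤ ∧
      ∀ H : ℝ → ℝ≥0∞, AEMeasurable H (volume.restrict (Icc (-a) a)) →
        ∫⁻ x in Ω, H (x j) ≤ c * ∫⁻ y in Icc (-a) a, H y := by
    obtain ⟨c, hc, -, hG⟩ := box_lintegral j (Icc (-a) a) measurableSet_Icc R
    refine ⟨c, hc, fun H hHm => ?_⟩
    rw [← hG H hHm]
    exact lintegral_mono_set hΩR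
  obtain ⟨c, hc, hG⟩ := hbox
  have hVc : ∀ m t, 0 < t → ContinuousOn (fun y => V m t y) (Icc (-a) a) := fun m t ht y hy =>
    ((hV m).dy t y ht ((abs_le.2 hy).trans_lt (by linarith))).continuousAt.continuousWithinAt
  have hVyc : ∀ m t, 0 < t → ContinuousOn (fun y => Vy m t y) (Icc (-a) a) := fun m t ht y hy =>
    ((hV m).dyy t y ht ((abs_le.2 hy).trans_lt (by linarith))).continuousAt.continuousWithinAt
  have hproj : ∀ m, ContDiff ℝ ∞ fun z : ℝ × Sp d => ((z.1, z.2 (r m), z.2 j) : ℝ × ℝ × ℝ) :=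
    fun m => contDiff_fst.prodMk (((EuclideanSpace.proj (r m) : Sp d →L[ℝ] ℝ).contDiff.comp
      contDiff_snd).prodMk ((EuclideanSpace.proj j : Sp d →L[ℝ] ℝ).contDiff.comp contDiff_snd))
  have hmaps : ∀ m, MapsTo (fun z : ℝ × Sp d => ((z.1, z.2 (r m), z.2 j) : ℝ × ℝ × ℝ))
      (Ioi (0 : ℝ) ×ˢ N) (D3 a B) := fun m z hz => ⟨hz.1, hNr z.2 hz.2 m, hNj z.2 hz.2⟩
  have hpcont : ∀ m, ∀ F : ℝ → ℝ → ℝ → ℝ, (∀ t x y, 0 < t → |x| < B → |y| < 2 * a →
      ContinuousAt (fun p : ℝ × ℝ × ℝ => F p.1 p.2.1 p.2.2) (t, x, y)) →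
      ContinuousOn (fun z : ℝ × Sp d => F z.1 (z.2 (r m)) (z.2 j)) (Ioi (0 : ℝ) ×ˢ N) := by
    intro m F hF
    have h1 : ContinuousOn (fun p : ℝ × ℝ × ℝ => F p.1 p.2.1 p.2.2) (D3 a B) := fun p hp =>
      (hF p.1 p.2.1 p.2.2 hp.1 hp.2.1 hp.2.2).continuousWithinAt
    exact h1.comp (hproj m).continuous.continuousOn (hmaps m)
  refine ⟨u, ?_⟩
  exact
    { regular := by
        refine ⟨N, hNo, hGN, ?_, ?_, ?_, contDiffOn_const⟩
        · rw [contDiffOn_euclidean]
          intro m
          exact (hW m).c1.comp ((hproj m).of_le (by exact_mod_cast le_top)).contDiffOn (hmaps m)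
        · intro t ht
          rw [contDiffOn_euclidean]
          intro m
          have h1 : ContDiff ℝ 2 fun z : Sp d => ((z (r m), z j) : ℝ × ℝ) :=
            (EuclideanSpace.proj (r m) : Sp d →L[ℝ] ℝ).contDiff.prodMk
              (EuclideanSpace.proj j : Sp d →L[ℝ] ℝ).contDiff
          exact ((hW m).c2 ht).comp h1.contDiffOn fun z hz => ⟨hNr z hz m, hNj z hz⟩
        · intro i m
          by_cases hi : i = r m
          · refine (hpcont m (Wxx m) (hW m).cxx).congr fun z hz => ?_
            rw [hi]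
            exact hpx m z.1 hz.1 z.2 hz.2
          · by_cases hij : i = j
            · refine (hpcont m (Wyy m) (hW m).cyy).congr fun z hz => ?_
              rw [hij]
              exact hpy m z.1 hz.1 z.2 hz.2
            · refine (continuousOn_const (c := (0 : ℝ))).congr fun z hz => ?_
              exact hp0 m z.1 hz.1 z.2 hz.2 i hij hi
      momentum := by
        intro t ht x hx m
        have hx' := hGN hx
        have h1 : deriv (fun s => u s x m) t = Wt m t (x (r m)) (x j) :=
          ((hW m).dt ht (hNr x hx' m) (hNj x hx')).deriv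
        have h2 : pd m (fun _ : Sp d => (0 : ℝ)) x = 0 := by
          rw [pd]
          simp
        rw [h1, hlin m t ht x hx', hlap m t ht x hx', h2, add_zero]
        exact (hW m).eq t _ _ ht (hNr x hx' m) (abs_le.1 (hΩ x hx))
      divfree := by
        intro t ht x hx
        have hx' := hGN hx
        refine Finset.sum_eq_zero fun i _ => ?_
        rw [hpd i t ht x hx' i, if_neg (hrr i).symm, zero_add]
        by_cases hij : i = j
        · rw [if_pos hij, (hWj i hij).2.2]
        · rw [if_neg hij]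
      wall := by
        intro t ht x hx hxa
        have h1 : x j = a ∨ x j = -a := by
          rcases abs_choice (x j) with h3 | h3
          · left
            rw [← h3, hxa]
          · right
            rw [← hxa, h3, neg_neg]
        ext m
        rw [huk]
        show W m t (x (r m)) (x j) = 0
        rcases h1 with h3 | h3
        · rw [h3]
          exact ((hW m).wall t _ ht).1
        · rw [h3]
          exact ((hW m).wall t _ ht).2
      rest := by
        intro t ht x _
        ext m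
        rw [huk]
        show W m t (x (r m)) (x j) = 0
        exact ((hW m).late t _ _ ((hTs3 m).trans ht)).1
      initial := by
        set E : ℝ → ℝ≥0∞ := fun t => ∑ m, ∫⁻ y in Icc (-a) a, ‖V m t y - U₀ y m‖ₑ ^ 2 with hE
        have hlim : Tendsto (fun t : ℝ => c * E t) (𝓝[>] 0) (𝓝 0) := by
          have h1 : Tendsto E (𝓝[>] 0) (𝓝 (∑ _m : Fin d, 0)) :=
            tendsto_finsetSum _ fun m _ => (hV m).lim
          rw [Finset.sum_const_zero] at h1
          have h7 := ENNReal.Tendsto.const_mul (a := c) h1 (Or.inr hc)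
          rwa [mul_zero] at h7
        refine tendsto_of_tendsto_of_tendsto_of_le_of_le' tendsto_const_nhds hlim
          (Eventually.of_forall fun _ => bot_le) ?_
        have hsmall : Ioo (0 : ℝ) (T / 4) ∈ 𝓝[>] (0 : ℝ) := Ioo_mem_nhdsGT (by linarith)
        filter_upwards [hsmall] with t ht
        have ht' : 0 < t := ht.1
        have m1 : ∀ m, AEMeasurable (fun y => ‖V m t y - U₀ y m‖ₑ ^ 2)
            (volume.restrict (Icc (-a) a)) := fun m =>
          ((((hVc m t ht').aemeasurable measurableSet_Icc).sub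
            (hUk m).aestronglyMeasurable.aemeasurable).enorm).pow_const 2
        calc ∫⁻ x in Ω, ‖u t x - U₀ (x j)‖ₑ ^ 2
            = ∫⁻ x in Ω, (fun y => ∑ m, ‖V m t y - U₀ y m‖ₑ ^ 2) (x j) := by
              refine lintegral_congr fun x => ?_
              rw [enorm_sq_eq]
              refine Finset.sum_congr rfl fun m _ => ?_
              show ‖u t x m - U₀ (x j) m‖ₑ ^ 2 = _
              rw [huk, ((hW m).early t _ _ ht' (ht.2.le.trans (hTs2 m))).1]
          _ ≤ c * ∫⁻ y in Icc (-a) a, ∑ m, ‖V m t y - U₀ y m‖ₑ ^ 2 :=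
              hG _ (Finset.aemeasurable_fun_sum _ fun m _ => m1 m)
          _ = c * E t := by
              rw [lintegral_finsetSum' _ fun m _ => m1 m]
      energy := by
        have hvol : volume Ω < ⊤ := hbd.measure_lt_top
        have hT4 : 0 < T / 4 := by linarith
        set I : ℝ → ℝ≥0∞ := fun t =>
          ∫⁻ x in Ω, ∑ i, ∑ m, ‖pd i (fun y => u t y m) x‖ₑ ^ 2 with hI
        have hun : Ioi (0 : ℝ) ⊆ Ioc 0 (T / 4) ∪ (Ioc (T / 4) T ∪ Ioi T) := by
          intro t ht
          have ht' : 0 < t := ht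
          rcases le_or_gt t (T / 4) with h | h
          · exact Or.inl ⟨ht', h⟩
          · rcases le_or_gt t T with h' | h'
            · exact Or.inr (Or.inl ⟨h, h'⟩)
            · exact Or.inr (Or.inr h')
        -- small times
        have p1 : ∫⁻ t in Ioc 0 (T / 4), I t < ⊤ := by
          set A : Fin d → ℝ → ℝ≥0∞ := fun m t => ∫⁻ y in Icc (-a) a, ‖Vy m t y‖ₑ ^ 2 with hA
          have mA : ∀ m t, 0 < t → AEMeasurable (fun y => ‖Vy m t y‖ₑ ^ 2)
              (volume.restrict (Icc (-a) a)) := fun m t ht =>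
            (((hVyc m t ht).aemeasurable measurableSet_Icc).enorm).pow_const 2
          have h1 : ∀ t ∈ Ioc (0 : ℝ) (T / 4), I t ≤ c * ∑ m, A m t := by
            intro t ht
            have ht' : 0 < t := ht.1
            calc I t ≤ ∫⁻ x in Ω, (fun y => ∑ m, ‖Vy m t y‖ₑ ^ 2) (x j) := by
                  refine setLIntegral_mono_ae' hΩm (Eventually.of_forall fun x hx => ?_)
                  have hx' := hGN hx
                  have hearly := fun m => (hW m).early t (x (r m)) (x j) ht' (ht.2.trans (hTs2 m))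
                  have h2 : ∑ i, ∑ m, ‖pd i (fun y => u t y m) x‖ₑ ^ 2 =
                      ∑ m, ‖Vy m t (x j)‖ₑ ^ 2 := by
                    rw [Finset.sum_eq_single j]
                    · refine Finset.sum_congr rfl fun m _ => ?_
                      rw [hpd m t ht' x hx' j, if_neg (hrj m).symm, if_pos rfl, zero_add,
                        (hearly m).2.2]
                    · intro i _ hij
                      refine Finset.sum_eq_zero fun m _ => ?_
                      rw [hpd m t ht' x hx' i, if_neg hij, (hearly m).2.1]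
                      simp
                    · intro h
                      exact absurd (Finset.mem_univ j) h
                  exact h2.le
              _ ≤ c * ∫⁻ y in Icc (-a) a, ∑ m, ‖Vy m t y‖ₑ ^ 2 :=
                  hG _ (Finset.aemeasurable_fun_sum _ fun m _ => mA m t ht')
              _ = c * ∑ m, A m t := by
                  rw [lintegral_finsetSum' _ fun m _ => mA m t ht']
          have jm : ∀ m, AEMeasurable (fun t : ℝ => A m t) (volume.restrict (Ioc 0 (T / 4))) := by
            intro m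
            have h3 : AEMeasurable (fun q : ℝ × ℝ => ‖Vy m q.1 q.2‖ₑ ^ 2)
                ((volume.restrict (Ioc (0 : ℝ) (T / 4))).prod (volume.restrict (Icc (-a) a))) := by
              rw [Measure.prod_restrict]
              have h4 : ContinuousOn (fun q : ℝ × ℝ => Vy m q.1 q.2)
                  (Ioc 0 (T / 4) ×ˢ Icc (-a) a) :=
                (hV m).ycont.mono fun q hq => ⟨hq.1.1, (abs_le.2 hq.2).trans_lt (by linarith)⟩
              exact ((h4.aemeasurable (measurableSet_Ioc.prod measurableSet_Icc)).enorm).pow_const 2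
            exact h3.lintegral_prod_right'
          have hfinA : ∀ m, ∫⁻ t in Ioc 0 (T / 4), A m t < ⊤ := fun m =>
            lt_of_le_of_lt (lintegral_mono_set fun t ht => ht.1) (hV m).en
          calc ∫⁻ t in Ioc 0 (T / 4), I t
              ≤ ∫⁻ t in Ioc 0 (T / 4), c * ∑ m, A m t :=
                setLIntegral_mono' measurableSet_Ioc h1
            _ = c * ∑ m, ∫⁻ t in Ioc 0 (T / 4), A m t := by
                rw [lintegral_const_mul' _ _ hc, lintegral_finsetSum' _ fun m _ => jm m]
            _ < ⊤ := ENNReal.mul_lt_top (lt_top_iff_ne_top.2 hc)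
                (ENNReal.sum_lt_top.2 fun m _ => hfinA m)
        -- intermediate times
        have p2 : ∫⁻ t in Ioc (T / 4) T, I t < ⊤ := by
          have hcomp : IsCompact (Icc (T / 4) T ×ˢ (Icc (-R) R ×ˢ Icc (-a) a)) :=
            isCompact_Icc.prod (isCompact_Icc.prod isCompact_Icc)
          have hsub : Icc (T / 4) T ×ˢ (Icc (-R) R ×ˢ Icc (-a) a) ⊆ D3 a B := by
            rintro ⟨t, x, y⟩ ⟨h1, h2, h3⟩
            exact ⟨hT4.trans_le h1.1, (abs_le.2 h2).trans_lt (by linarith),
              (abs_le.2 h3).trans_lt (by linarith)⟩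
          have hbF : ∀ F : ℝ → ℝ → ℝ → ℝ, (∀ t x y, 0 < t → |x| < B → |y| < 2 * a →
              ContinuousAt (fun p : ℝ × ℝ × ℝ => F p.1 p.2.1 p.2.2) (t, x, y)) →
              ∃ C : ℝ, ∀ t ∈ Icc (T / 4) T, ∀ x, |x| ≤ R → ∀ y, |y| ≤ a → |F t x y| ≤ |C| := by
            intro F hF
            have h1 : ContinuousOn (fun p : ℝ × ℝ × ℝ => F p.1 p.2.1 p.2.2) (D3 a B) :=
              fun p hp => (hF p.1 p.2.1 p.2.2 hp.1 hp.2.1 hp.2.2).continuousWithinAt
            obtain ⟨C, hC⟩ := hcomp.exists_bound_of_continuousOn (h1.mono hsub)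
            exact ⟨C, fun t ht x hx y hy =>
              (hC (t, x, y) ⟨ht, abs_le.1 hx, abs_le.1 hy⟩).trans (le_abs_self C)⟩
          choose Cx hCx using fun m => hbF (Wx m) (hW m).cx
          choose Cy hCy using fun m => hbF (Wy m) (hW m).cy
          have hb1 : ∀ t ∈ Ioc (T / 4) T, ∀ x ∈ Ω, ∀ i m,
              ‖pd i (fun y => u t y m) x‖ₑ ≤ ENNReal.ofReal (|Cx m| + |Cy m|) := by
            intro t ht x hx i m
            have ht' : 0 < t := hT4.trans ht.1
            have hx' := hGN hx
            rw [← ofReal_norm]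
            refine ENNReal.ofReal_le_ofReal ?_
            rw [hpd m t ht' x hx' i]
            have q1 := hCx m t ⟨ht.1.le, ht.2⟩ _ (hΩR' x hx m) _ (hΩ x hx)
            have q2 := hCy m t ⟨ht.1.le, ht.2⟩ _ (hΩR' x hx m) _ (hΩ x hx)
            rw [Real.norm_eq_abs]
            refine (abs_add_le _ _).trans (add_le_add ?_ ?_)
            · split_ifs
              · exact q1
              · rw [abs_zero]
                exact abs_nonneg _
            · split_ifs
              · exact q2
              · rw [abs_zero]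
                exact abs_nonneg _
          have h3 : ∫⁻ t in Ioc (T / 4) T, I t ≤
              ∫⁻ _t in Ioc (T / 4) T, (∑ _i : Fin d, ∑ m : Fin d,
                ENNReal.ofReal (|Cx m| + |Cy m|) ^ 2) * volume Ω := by
            refine setLIntegral_mono' measurableSet_Ioc fun t ht => ?_
            calc I t ≤ ∫⁻ _x in Ω, ∑ _i : Fin d, ∑ m : Fin d,
                  ENNReal.ofReal (|Cx m| + |Cy m|) ^ 2 := by
                  refine setLIntegral_mono' hΩm fun x hx => ?_
                  refine Finset.sum_le_sum fun i _ => Finset.sum_le_sum fun m _ => ?_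
                  have := hb1 t ht x hx i m
                  gcongr
              _ = _ := by rw [setLIntegral_const]
          refine h3.trans_lt ?_
          rw [setLIntegral_const]
          refine ENNReal.mul_lt_top (ENNReal.mul_lt_top ?_ hvol) (by simp)
          refine ENNReal.sum_lt_top.2 fun i _ => ENNReal.sum_lt_top.2 fun m _ => ?_
          exact ENNReal.pow_lt_top ENNReal.ofReal_lt_top
        -- large times
        have p3 : ∫⁻ t in Ioi T, I t = 0 := by
          have : ∫⁻ t in Ioi T, I t = ∫⁻ _t in Ioi T, 0 := by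
            refine setLIntegral_congr_fun measurableSet_Ioi fun t ht => ?_
            have ht' : T < t := ht
            show ∫⁻ x in Ω, ∑ i, ∑ m, ‖pd i (fun y => u t y m) x‖ₑ ^ 2 = 0
            have h4 : ∫⁻ x in Ω, ∑ i, ∑ m, ‖pd i (fun y => u t y m) x‖ₑ ^ 2 =
                ∫⁻ _x in Ω, 0 := by
              refine setLIntegral_congr_fun hΩm fun x hx => ?_
              have hx' := hGN hx
              refine Finset.sum_eq_zero fun i _ => Finset.sum_eq_zero fun m _ => ?_
              have h5 := (hW m).late t (x (r m)) (x j) ((hTs3 m).trans ht'.le)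
              rw [hpd m t (hT.trans ht') x hx' i, h5.2.1, h5.2.2]
              simp
            rw [h4]
            simp
          rw [this]
          simp
        calc ∫⁻ t in Ioi (0 : ℝ), I t
            ≤ ∫⁻ t in Ioc 0 (T / 4) ∪ (Ioc (T / 4) T ∪ Ioi T), I t := lintegral_mono_set hun
          _ ≤ (∫⁻ t in Ioc 0 (T / 4), I t) + (∫⁻ t in Ioc (T / 4) T ∪ Ioi T, I t) :=
              lintegral_union_le _ _ _
          _ ≤ (∫⁻ t in Ioc 0 (T / 4), I t) +
              ((∫⁻ t in Ioc (T / 4) T, I t) + (∫⁻ t in Ioi T, I t)) :=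
              add_le_add le_rfl (lintegral_union_le _ _ _)
          _ < ⊤ := by
              rw [p3, add_zero]
              exact ENNReal.add_lt_top.2 ⟨p1, p2⟩ }

end Pool.Agent.H72.NS
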