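import Pool.Agent.H72.Lib.S3997.NC.Flat

/-!
# The switch and all its derivatives
-/

set_option autoImplicit false

open Set Filter Topology
open scoped ContDiff

namespace Pool.Agent.H72.NS

open Pool.Agent.Q61.NC

/-- A solution of the heat equation which is `1` for `t ≤ T / 2` and `0` for `t ≥ T`, with all its
derivatives in `x`. -/
structure SwitchJ (B T ρ : ℝ) (v : ℕ → ℝ → ℝ → ℝ) : Prop where
  dx : ∀ m t x, 0 < t → |x| < B → HasDerivAt (fun s => v m t s) (v (m + 1) t x) x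
  dt : ∀ m t x, 0 < t → |x| < B → HasDerivAt (fun s => v m s x) (v (m + 2) t x) t
  fd : ∀ m t x, 0 < t → |x| < B → HasFDerivAt (fun q : ℝ × ℝ => v m q.1 q.2)
    (v (m + 2) t x • ContinuousLinearMap.fst ℝ ℝ ℝ +
      v (m + 1) t x • ContinuousLinearMap.snd ℝ ℝ ℝ) (t, x)
  one : ∀ t x, 0 < t → t ≤ T / 2 → v 0 t x = 1
  onem : ∀ m t x, 0 < t → t ≤ T / 2 → v (m + 1) t x = 0
  zero : ∀ m t x, T ≤ t → v m t x = 0
  smooth : ∀ m, ContDiffOn ℝ ∞ (fun q : ℝ × ℝ => v m q.1 q.2) (Dom B)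
  bd : ∀ t₁, 0 < t₁ → ∃ C : ℝ, 0 ≤ C ∧ ∀ m t x, t₁ ≤ t → |x| ≤ B →
    |v m t x| ≤ C * ((m.factorial : ℝ) * ρ ^ m)

/-- iterated shift -/
def shn (i : ℕ) (Z : ℕ → ℝ → ℝ) : ℕ → ℝ → ℝ := fun n => Z (n + i)

theorem sh_shn (i : ℕ) (Z : ℕ → ℝ → ℝ) : sh (shn i Z) = shn (i + 1) Z := by
  funext n
  show Z (n + 1 + i) = Z (n + (i + 1))
  rw [add_right_comm, add_assoc]

theorem shn_zero (Z : ℕ → ℝ → ℝ) : shn 0 Z = Z := rfl

theorem good_shn {Y : ℝ} (hY : 0 < Y) {Z : ℕ → ℝ → ℝ} (h : Good Y Z) (i : ℕ) : Good Y (shn i Z) := by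
  induction i with
  | zero => exact h
  | succ i ih =>
    rw [← sh_shn]
    exact ih.shift hY

/-- the derivatives -/
noncomputable def vv (Z : ℕ → ℝ → ℝ) (m : ℕ) : ℝ → ℝ → ℝ :=
  if m % 2 = 0 then FE (shn (m / 2) Z) else FO (shn (m / 2 + 1) Z)

theorem vv_even (Z : ℕ → ℝ → ℝ) (i : ℕ) : vv Z (2 * i) = FE (shn i Z) := by
  unfold vv
  rw [if_pos (by omega), show 2 * i / 2 = i by omega]

theorem vv_odd (Z : ℕ → ℝ → ℝ) (i : ℕ) : vv Z (2 * i + 1) = FO (shn (i + 1) Z) := by
  unfold vv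
  rw [if_neg (by omega), show (2 * i + 1) / 2 = i by omega]

theorem choose_le (n k : ℕ) : (n.choose k : ℝ) ≤ 2 ^ n := by
  exact_mod_cast Nat.choose_le_two_pow n k

/-- the bound for the even derivatives -/
theorem bd_even {Z : ℕ → ℝ → ℝ} {C r t x B : ℝ} (hC : 0 ≤ C) (hr : 0 < r) (hrB : 4 * r * B ^ 2 ≤ 1 / 2)
    (hx : |x| ≤ B) (hZ : ∀ i, |Z i t| ≤ C * r ^ i * ((2 * i).factorial : ℝ)) (i : ℕ) :
    |FE (shn i Z) t x| ≤ 2 * C * (((2 * i).factorial : ℝ) * (4 * r) ^ i) := by
  have hx2 : x ^ 2 ≤ B ^ 2 := by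
    rw [← sq_abs x]
    gcongr
  have hq : 4 * r * x ^ 2 ≤ 1 / 2 := by
    refine le_trans ?_ hrB
    gcongr
  have hterm : ∀ n : ℕ, ‖shn i Z n t * (x ^ (2 * n) / ((2 * n).factorial : ℝ))‖ ≤
      C * (((2 * i).factorial : ℝ) * (4 * r) ^ i) * (1 / 2) ^ n := by
    intro n
    rw [norm_mul, Real.norm_eq_abs, Real.norm_eq_abs]
    have h1 := hZ (n + i)
    have h2 : |x ^ (2 * n) / ((2 * n).factorial : ℝ)| = (x ^ 2) ^ n / ((2 * n).factorial : ℝ) := by
      rw [abs_div, abs_of_pos (by positivity : (0 : ℝ) < ((2 * n).factorial : ℝ)), pow_mul,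
        abs_of_nonneg (by positivity)]
    have h3 : ((2 * (n + i)).factorial : ℝ) ≤ 4 ^ n * 4 ^ i *
        (((2 * n).factorial : ℝ) * ((2 * i).factorial : ℝ)) := by
      have h4 := Nat.add_choose_mul_factorial_mul_factorial (2 * n) (2 * i)
      have h5 := choose_le (2 * n + 2 * i) (2 * i)
      have h6 : ((2 * (n + i)).factorial : ℝ) = ((2 * n + 2 * i).choose (2 * i) : ℝ) *
          ((2 * n).factorial : ℝ) * ((2 * i).factorial : ℝ) := by
        have h7 : 2 * (n + i) = 2 * n + 2 * i := by ring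
        rw [h7, ← h4]
        push_cast
        ring
      rw [h6]
      have h8 : (2 : ℝ) ^ (2 * n + 2 * i) = 4 ^ n * 4 ^ i := by
        rw [pow_add, pow_mul, pow_mul]
        norm_num
      rw [h8] at h5
      rw [mul_assoc]
      gcongr
    calc |shn i Z n t| * |x ^ (2 * n) / ((2 * n).factorial : ℝ)|
        ≤ (C * r ^ (n + i) * (4 ^ n * 4 ^ i *
            (((2 * n).factorial : ℝ) * ((2 * i).factorial : ℝ)))) *
            ((x ^ 2) ^ n / ((2 * n).factorial : ℝ)) := by
          rw [h2]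
          refine mul_le_mul_of_nonneg_right ?_ (by positivity)
          refine h1.trans ?_
          gcongr
      _ = C * (((2 * i).factorial : ℝ) * (4 * r) ^ i) * (4 * r * x ^ 2) ^ n := by
          rw [mul_pow, mul_pow, mul_pow, pow_add]
          field_simp
      _ ≤ _ := by gcongr
  have hs : Summable fun n : ℕ => C * (((2 * i).factorial : ℝ) * (4 * r) ^ i) * (1 / 2 : ℝ) ^ n :=
    (summable_geometric_of_lt_one (by norm_num) (by norm_num)).mul_left _
  have h := tsum_of_norm_bounded hs.hasSum hterm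
  rw [tsum_mul_left, tsum_geometric_of_lt_one (by norm_num) (by norm_num)] at h
  unfold FE
  rw [← Real.norm_eq_abs]
  refine h.trans (le_of_eq ?_)
  norm_num
  ring

theorem bd_odd {Z : ℕ → ℝ → ℝ} {C r t x B : ℝ} (hC : 0 ≤ C) (hr : 0 < r) (hrB : 4 * r * B ^ 2 ≤ 1 / 2)
    (hx : |x| ≤ B) (hZ : ∀ i, |Z i t| ≤ C * r ^ i * ((2 * i).factorial : ℝ)) (i : ℕ) :
    |FO (shn (i + 1) Z) t x| ≤ 2 * C * (((2 * i + 1).factorial : ℝ) * (4 * r) ^ (i + 1)) * B := by
  have hB : 0 ≤ B := (abs_nonneg x).trans hx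
  have hx2 : x ^ 2 ≤ B ^ 2 := by
    rw [← sq_abs x]
    gcongr
  have hq : 4 * r * x ^ 2 ≤ 1 / 2 := by
    refine le_trans ?_ hrB
    gcongr
  have hterm : ∀ n : ℕ, ‖shn (i + 1) Z n t * (x ^ (2 * n + 1) / ((2 * n + 1).factorial : ℝ))‖ ≤
      C * (((2 * i + 1).factorial : ℝ) * (4 * r) ^ (i + 1)) * B * (1 / 2) ^ n := by
    intro n
    rw [norm_mul, Real.norm_eq_abs, Real.norm_eq_abs]
    have h1 := hZ (n + (i + 1))
    have h2 : |x ^ (2 * n + 1) / ((2 * n + 1).factorial : ℝ)| =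
        |x| * (x ^ 2) ^ n / ((2 * n + 1).factorial : ℝ) := by
      rw [abs_div, abs_of_pos (by positivity : (0 : ℝ) < ((2 * n + 1).factorial : ℝ)), pow_succ,
        pow_mul, abs_mul, abs_of_nonneg (by positivity : (0 : ℝ) ≤ (x ^ 2) ^ n), mul_comm |x|]
    have h3 : ((2 * (n + (i + 1))).factorial : ℝ) ≤ 4 ^ n * 4 ^ (i + 1) *
        (((2 * n + 1).factorial : ℝ) * ((2 * i + 1).factorial : ℝ)) := by
      have h4 := Nat.add_choose_mul_factorial_mul_factorial (2 * n + 1) (2 * i + 1)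
      have h5 := choose_le (2 * n + 1 + (2 * i + 1)) (2 * i + 1)
      have h6 : ((2 * (n + (i + 1))).factorial : ℝ) =
          ((2 * n + 1 + (2 * i + 1)).choose (2 * i + 1) : ℝ) *
          ((2 * n + 1).factorial : ℝ) * ((2 * i + 1).factorial : ℝ) := by
        have h7 : 2 * (n + (i + 1)) = 2 * n + 1 + (2 * i + 1) := by ring
        rw [h7, ← h4]
        push_cast
        ring
      rw [h6]
      have h8 : (2 : ℝ) ^ (2 * n + 1 + (2 * i + 1)) = 4 ^ n * 4 ^ (i + 1) := by
        rw [show 2 * n + 1 + (2 * i + 1) = 2 * n + 2 * (i + 1) by ring, pow_add, pow_mul, pow_mul]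
        norm_num
      rw [h8] at h5
      rw [mul_assoc]
      gcongr
    calc |shn (i + 1) Z n t| * |x ^ (2 * n + 1) / ((2 * n + 1).factorial : ℝ)|
        ≤ (C * r ^ (n + (i + 1)) * (4 ^ n * 4 ^ (i + 1) *
            (((2 * n + 1).factorial : ℝ) * ((2 * i + 1).factorial : ℝ)))) *
            (|x| * (x ^ 2) ^ n / ((2 * n + 1).factorial : ℝ)) := by
          rw [h2]
          refine mul_le_mul_of_nonneg_right ?_ (by positivity)
          refine h1.trans ?_
          gcongr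
      _ = C * (((2 * i + 1).factorial : ℝ) * (4 * r) ^ (i + 1)) * |x| * (4 * r * x ^ 2) ^ n := by
          rw [mul_pow, mul_pow, mul_pow, pow_add]
          field_simp
      _ ≤ _ := by gcongr
  have hs : Summable fun n : ℕ => C * (((2 * i + 1).factorial : ℝ) * (4 * r) ^ (i + 1)) * B *
      (1 / 2 : ℝ) ^ n :=
    (summable_geometric_of_lt_one (by norm_num) (by norm_num)).mul_left _
  have h := tsum_of_norm_bounded hs.hasSum hterm
  rw [tsum_mul_left, tsum_geometric_of_lt_one (by norm_num) (by norm_num)] at h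
  unfold FO
  rw [← Real.norm_eq_abs]
  refine h.trans (le_of_eq ?_)
  norm_num
  ring

theorem switchJ {B T ρ : ℝ} (hB : 0 < B) (hT : 0 < T) (hρ : 0 < ρ) (hρB : ρ ^ 2 * B ^ 2 ≤ 1 / 2) :
    ∃ v, SwitchJ B T ρ v := by
  set r : ℝ := ρ ^ 2 / 4 with hr
  have hr0 : 0 < r := by positivity
  have h4r : 4 * r = ρ ^ 2 := by rw [hr]; ring
  have hrB : 4 * r * B ^ 2 ≤ 1 / 2 := by rw [h4r]; exact hρB
  set K : ℝ := 4 / r with hK
  have hK0 : 0 < K := by positivity
  have hKr : 4 * K⁻¹ = r := by rw [hK]; field_simp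
  set Z := cutJ T K with hZ
  have hbd : Bd r Z := by
    have := cutJ_bd T K hT hK0
    rwa [hKr] at this
  have hg : Good B Z := by
    refine ⟨cutJ_jet T _, fun t₁ ht₁ => ?_⟩
    obtain ⟨C, hC, hb⟩ := hbd t₁ ht₁
    exact ⟨C, r, hC, hr0, by nlinarith, hb⟩
  have hgs : ∀ i, Good B (shn i Z) := good_shn hB hg
  have hone : ∀ i {t : ℝ}, 0 < t → t ≤ T / 2 → Z i t = if i = 0 then 1 else 0 := fun i t h0 h1 =>
    cutJ_left T K hK0 i h0 h1
  refine ⟨vv Z, ?_⟩
  exact
    { dx := by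
        intro m t x ht hx
        obtain ⟨i, rfl | rfl⟩ := Nat.even_or_odd' m
        · rw [vv_even, vv_odd, ← sh_shn]
          exact FE_dy hB (hgs i) ht hx
        · rw [vv_odd, show 2 * i + 1 + 1 = 2 * (i + 1) by ring, vv_even]
          exact FO_dy hB (hgs (i + 1)) ht hx
      dt := by
        intro m t x ht hx
        obtain ⟨i, rfl | rfl⟩ := Nat.even_or_odd' m
        · rw [vv_even, show 2 * i + 2 = 2 * (i + 1) by ring, vv_even, ← sh_shn]
          exact FE_dt hB (hgs i) ht hx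
        · rw [vv_odd, show 2 * i + 1 + 2 = 2 * (i + 1) + 1 by ring, vv_odd, ← sh_shn (i + 1)]
          exact FO_dt hB (hgs (i + 1)) ht hx
      fd := by
        intro m t x ht hx
        obtain ⟨i, rfl | rfl⟩ := Nat.even_or_odd' m
        · rw [vv_even, show 2 * i + 2 = 2 * (i + 1) by ring, vv_even, vv_odd, ← sh_shn]
          exact hasFDerivAt_FE hB (hgs i) ht hx
        · rw [vv_odd, show 2 * i + 1 + 2 = 2 * (i + 1) + 1 by ring, vv_odd,
            show 2 * i + 1 + 1 = 2 * (i + 1) by ring, vv_even, ← sh_shn (i + 1)]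
          exact hasFDerivAt_FO hB (hgs (i + 1)) ht hx
      one := by
        intro t x h0 h1
        have h2 : vv Z 0 = FE Z := by
          have := vv_even Z 0
          rw [mul_zero, shn_zero] at this
          exact this
        rw [h2]
        unfold FE
        rw [tsum_eq_single 0]
        · rw [hone 0 h0 h1]
          simp
        · intro i hi
          rw [hone i h0 h1, if_neg hi]
          simp
      onem := by
        intro m t x h0 h1
        obtain ⟨i, rfl | rfl⟩ := Nat.even_or_odd' m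
        · rw [vv_odd]
          refine FO_of_zero (fun n => ?_) x
          show Z (n + (i + 1)) t = 0
          rw [hone _ h0 h1, if_neg (by omega)]
        · rw [show 2 * i + 1 + 1 = 2 * (i + 1) by ring, vv_even]
          refine FE_of_zero (fun n => ?_) x
          show Z (n + (i + 1)) t = 0
          rw [hone _ h0 h1, if_neg (by omega)]
      zero := by
        intro m t x ht
        obtain ⟨i, rfl | rfl⟩ := Nat.even_or_odd' m
        · rw [vv_even]
          exact FE_of_zero (fun n => cutJ_right T K hT hK0 (n + i) ht) x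
        · rw [vv_odd]
          exact FO_of_zero (fun n => cutJ_right T K hT hK0 (n + (i + 1)) ht) x
      smooth := by
        intro m
        obtain ⟨i, rfl | rfl⟩ := Nat.even_or_odd' m
        · rw [vv_even]
          exact smooth_FE hB (hgs i)
        · rw [vv_odd]
          exact smooth_FO hB (hgs (i + 1))
      bd := by
        intro t₁ ht₁
        obtain ⟨C, hC, hb⟩ := hbd t₁ ht₁
        refine ⟨2 * C, by positivity, fun m t x ht hx => ?_⟩
        obtain ⟨i, rfl | rfl⟩ := Nat.even_or_odd' m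
        · have h1 := bd_even hC hr0 hrB hx (fun i => hb i t ht) i
          rw [vv_even]
          rw [h4r, ← pow_mul] at h1
          exact h1
        · have h1 := bd_odd hC hr0 hrB hx (fun i => hb i t ht) i
          rw [vv_odd]
          refine h1.trans ?_
          rw [h4r, ← pow_mul, show 2 * (i + 1) = 2 * i + 1 + 1 by ring, pow_succ ρ (2 * i + 1)]
          have h2 : ρ * B ≤ 1 := by
            have h3 : (ρ * B) ^ 2 ≤ 1 := by rw [mul_pow]; linarith
            exact (sq_le_one_iff₀ (by positivity)).1 h3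
          calc 2 * C * (((2 * i + 1).factorial : ℝ) * (ρ ^ (2 * i + 1) * ρ)) * B
              = 2 * C * (((2 * i + 1).factorial : ℝ) * ρ ^ (2 * i + 1)) * (ρ * B) := by ring
            _ ≤ 2 * C * (((2 * i + 1).factorial : ℝ) * ρ ^ (2 * i + 1)) * 1 := by gcongr
            _ = _ := by ring }

end Pool.Agent.H72.NS
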