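import Pool.Agent.H72.Lib.S3997.NC.Par

/-!
# The cosine series of the sines on the half period
-/

set_option autoImplicit false

open Set Filter Topology MeasureTheory AddCircle

namespace Pool.Agent.H72.NS

open Pool.Agent.Q61.NC

theorem J_le (w s A : ℝ) (h : Real.sin (w * A) = 0) :
    |w ^ 2 - s ^ 2| * ‖∫ y in (0 : ℝ)..A, Complex.exp (((s * y : ℝ) : ℂ) * Complex.I) *
      (Real.sin (w * y) : ℂ)‖ ≤ 2 * |w| := by
  set G : ℝ → ℂ := fun y => Complex.exp (((s * y : ℝ) : ℂ) * Complex.I) *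
    ((s * Complex.I) * (Real.sin (w * y) : ℂ) - w * (Real.cos (w * y) : ℂ)) with hG
  have hd : ∀ y : ℝ, HasDerivAt G ((((w ^ 2 - s ^ 2 : ℝ)) : ℂ) *
      (Complex.exp (((s * y : ℝ) : ℂ) * Complex.I) * (Real.sin (w * y) : ℂ))) y := by
    intro y
    have h0 : ∀ c : ℝ, HasDerivAt (fun y : ℝ => c * y) c y := fun c => by
      simpa using (hasDerivAt_id y).const_mul c
    have h1 : HasDerivAt (fun y : ℝ => Complex.exp (((s * y : ℝ) : ℂ) * Complex.I))
        (Complex.exp (((s * y : ℝ) : ℂ) * Complex.I) * ((s : ℂ) * Complex.I)) y :=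
      ((h0 s).ofReal_comp.mul_const Complex.I).cexp
    have h2 : HasDerivAt (fun y : ℝ => (Real.sin (w * y) : ℂ))
        (((Real.cos (w * y) * w : ℝ)) : ℂ) y := ((h0 w).sin).ofReal_comp
    have h3 : HasDerivAt (fun y : ℝ => (Real.cos (w * y) : ℂ))
        (((-Real.sin (w * y) * w : ℝ)) : ℂ) y := ((h0 w).cos).ofReal_comp
    have h4 := h1.mul ((h2.const_mul ((s : ℂ) * Complex.I)).sub (h3.const_mul (w : ℂ)))
    have e : (((w ^ 2 - s ^ 2 : ℝ)) : ℂ) *
      (Complex.exp (((s * y : ℝ) : ℂ) * Complex.I) * (Real.sin (w * y) : ℂ)) =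
      Complex.exp (((s * y : ℝ) : ℂ) * Complex.I) * ((s : ℂ) * Complex.I) *
        ((s * Complex.I) * (Real.sin (w * y) : ℂ) - w * (Real.cos (w * y) : ℂ)) +
      Complex.exp (((s * y : ℝ) : ℂ) * Complex.I) *
        ((s : ℂ) * Complex.I * (((Real.cos (w * y) * w : ℝ)) : ℂ) -
          w * (((-Real.sin (w * y) * w : ℝ)) : ℂ)) := by
      have hI : Complex.I ^ 2 = -1 := Complex.I_sq
      simp only [Complex.ofReal_mul, Complex.ofReal_neg, Complex.ofReal_sub, Complex.ofReal_pow]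
      ring_nf
      rw [hI]
      ring
    rw [e]
    exact h4
  have hc : Continuous fun y : ℝ => (((w ^ 2 - s ^ 2 : ℝ)) : ℂ) *
      (Complex.exp (((s * y : ℝ) : ℂ) * Complex.I) * (Real.sin (w * y) : ℂ)) := by fun_prop
  have h5 := intervalIntegral.integral_eq_sub_of_hasDerivAt (fun y _ => hd y)
    (hc.intervalIntegrable 0 A)
  rw [intervalIntegral.integral_const_mul] at h5
  have h6 : |w ^ 2 - s ^ 2| * ‖∫ y in (0 : ℝ)..A, Complex.exp (((s * y : ℝ) : ℂ) * Complex.I) *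
      (Real.sin (w * y) : ℂ)‖ = ‖G A - G 0‖ := by
    rw [← h5, norm_mul, Complex.norm_real, Real.norm_eq_abs]
  rw [h6]
  have h7 : ‖G A‖ ≤ |w| := by
    rw [hG]
    simp only
    rw [h, norm_mul, Complex.norm_exp_ofReal_mul_I, one_mul]
    simp only [Complex.ofReal_zero, mul_zero, zero_sub, norm_neg, norm_mul, Complex.norm_real,
      Real.norm_eq_abs]
    calc |w| * |Real.cos (w * A)| ≤ |w| * 1 := by
          gcongr
          exact Real.abs_cos_le_one _
      _ = |w| := mul_one _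
  have h8 : ‖G 0‖ ≤ |w| := by
    rw [hG]
    simp
  calc ‖G A - G 0‖ ≤ ‖G A‖ + ‖G 0‖ := norm_sub_le _ _
    _ ≤ 2 * |w| := by linarith

theorem J_triv (w s A : ℝ) (hA : 0 ≤ A) :
    ‖∫ y in (0 : ℝ)..A, Complex.exp (((s * y : ℝ) : ℂ) * Complex.I) *
      (Real.sin (w * y) : ℂ)‖ ≤ A := by
  have h := intervalIntegral.norm_integral_le_of_norm_le_const (a := 0) (b := A)
    (f := fun y : ℝ => Complex.exp (((s * y : ℝ) : ℂ) * Complex.I) *
      (Real.sin (w * y) : ℂ)) (C := 1) fun y _ => by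
        rw [norm_mul, Complex.norm_exp_ofReal_mul_I, one_mul, Complex.norm_real]
        exact Real.abs_sin_le_one _
  rw [sub_zero, one_mul, abs_of_nonneg hA] at h
  exact h

/-- the even reflection of a sine -/
noncomputable def gs (a : ℝ) (n : ℤ) (y : ℝ) : ℝ := Real.sin (om (4 * a) n * |y|)

theorem om_two {a : ℝ} (ha : 0 < a) (n : ℤ) : om (4 * a) n * (2 * a) = n * Real.pi := by
  unfold om
  field_simp
  ring

theorem cf_gs {a : ℝ} [hL : Fact (0 < 4 * a)] (n p : ℤ) :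
    cf (4 * a) (gs a n) p = ((1 / (4 * a) : ℝ) : ℂ) *
      ((∫ y in (0 : ℝ)..(2 * a), Complex.exp (((om (4 * a) p * y : ℝ) : ℂ) * Complex.I) *
        (Real.sin (om (4 * a) n * y) : ℂ)) +
      ∫ y in (0 : ℝ)..(2 * a), Complex.exp (((-om (4 * a) p * y : ℝ) : ℂ) * Complex.I) *
        (Real.sin (om (4 * a) n * y) : ℂ)) := by
  have ha : 0 < a := by
    have := hL.out
    linarith
  rw [cf_eq]
  have e : 4 * a / 2 = 2 * a := by ring
  rw [e]
  congr 1
  set f : ℝ → ℂ := fun y => Complex.exp (-((om (4 * a) p * y : ℝ) : ℂ) * Complex.I) *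
    (gs a n y : ℂ) with hf
  have hc : Continuous f := by
    have h1 : Continuous (gs a n) := by
      unfold gs
      fun_prop
    have h2 : Continuous fun y : ℝ => ((gs a n y : ℝ) : ℂ) := Complex.continuous_ofReal.comp h1
    have h3 : Continuous fun y : ℝ => Complex.exp (-((om (4 * a) p * y : ℝ) : ℂ) * Complex.I) := by
      fun_prop
    exact h3.mul h2
  rw [← intervalIntegral.integral_add_adjacent_intervals (b := 0) (hc.intervalIntegrable _ _)
    (hc.intervalIntegrable _ _)]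
  congr 1
  · have h1 := intervalIntegral.integral_comp_neg (a := 0) (b := 2 * a) f
    rw [neg_zero] at h1
    rw [← h1]
    refine intervalIntegral.integral_congr fun y hy => ?_
    rw [uIcc_of_le (by positivity)] at hy
    simp only [hf, gs]
    rw [abs_neg, abs_of_nonneg hy.1]
    congr 2
    push_cast
    ring
  · refine intervalIntegral.integral_congr fun y hy => ?_
    rw [uIcc_of_le (by positivity)] at hy
    simp only [hf, gs]
    rw [abs_of_nonneg hy.1]
    congr 2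
    push_cast
    ring

theorem cf_gs_le {a : ℝ} [hL : Fact (0 < 4 * a)] (n p : ℤ) :
    ‖cf (4 * a) (gs a n) p‖ * (1 + (p : ℝ) ^ 2) ≤ 2 * (1 + (n : ℝ) ^ 2) := by
  have ha : 0 < a := by
    have := hL.out
    linarith
  have hpi := Real.pi_pos
  have key : ∀ s : ℝ, s ^ 2 = om (4 * a) p ^ 2 →
      ‖∫ y in (0 : ℝ)..(2 * a), Complex.exp (((s * y : ℝ) : ℂ) * Complex.I) *
        (Real.sin (om (4 * a) n * y) : ℂ)‖ * (1 + (p : ℝ) ^ 2) ≤ 4 * a * (1 + (n : ℝ) ^ 2) := by
    intro s hs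
    set J := ‖∫ y in (0 : ℝ)..(2 * a), Complex.exp (((s * y : ℝ) : ℂ) * Complex.I) *
        (Real.sin (om (4 * a) n * y) : ℂ)‖ with hJ
    have hJ0 : 0 ≤ J := norm_nonneg _
    have h1 := J_le (om (4 * a) n) s (2 * a) (by rw [om_two ha]; exact Real.sin_int_mul_pi n)
    have h2 : J ≤ 2 * a := J_triv (om (4 * a) n) s (2 * a) (by positivity)
    rw [← hJ, hs] at h1
    have e1 : om (4 * a) n ^ 2 - om (4 * a) p ^ 2 =
        (Real.pi / (2 * a)) ^ 2 * ((n : ℝ) ^ 2 - (p : ℝ) ^ 2) := by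
      unfold om
      field_simp
      ring
    have e2 : |om (4 * a) n| = Real.pi / (2 * a) * |(n : ℝ)| := by
      have : om (4 * a) n = Real.pi / (2 * a) * n := by
        unfold om
        field_simp
        ring
      rw [this, abs_mul, abs_of_pos (by positivity)]
    rw [e1, e2, abs_mul, abs_of_nonneg (by positivity)] at h1
    have h3 : |(n : ℝ) ^ 2 - (p : ℝ) ^ 2| * J ≤ 4 * a / Real.pi * |(n : ℝ)| := by
      have h4 : (Real.pi / (2 * a)) ^ 2 * (|(n : ℝ) ^ 2 - (p : ℝ) ^ 2| * J) ≤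
          (Real.pi / (2 * a)) ^ 2 * (4 * a / Real.pi * |(n : ℝ)|) := by
        refine le_trans (le_of_eq (by ring)) (h1.trans (le_of_eq ?_))
        field_simp
        ring
      exact le_of_mul_le_mul_left h4 (by positivity)
    have h5 : 4 * a / Real.pi * |(n : ℝ)| ≤ 2 * a * (1 + (n : ℝ) ^ 2) := by
      have h6 : 4 * a / Real.pi ≤ 4 * a := by
        rw [div_le_iff₀ hpi]
        nlinarith [Real.pi_gt_three]
      have h7 : 2 * |(n : ℝ)| ≤ 1 + (n : ℝ) ^ 2 := by
        nlinarith [sq_nonneg (|(n : ℝ)| - 1), sq_abs (n : ℝ)]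
      calc 4 * a / Real.pi * |(n : ℝ)| ≤ 4 * a * |(n : ℝ)| := by gcongr
        _ = 2 * a * (2 * |(n : ℝ)|) := by ring
        _ ≤ _ := by gcongr
    have h8 : 1 + (p : ℝ) ^ 2 ≤ 1 + (n : ℝ) ^ 2 + |(n : ℝ) ^ 2 - (p : ℝ) ^ 2| := by
      have := neg_abs_le ((n : ℝ) ^ 2 - (p : ℝ) ^ 2)
      linarith
    calc J * (1 + (p : ℝ) ^ 2) ≤ J * (1 + (n : ℝ) ^ 2 + |(n : ℝ) ^ 2 - (p : ℝ) ^ 2|) := by gcongr
      _ = J * (1 + (n : ℝ) ^ 2) + |(n : ℝ) ^ 2 - (p : ℝ) ^ 2| * J := by ring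
      _ ≤ 2 * a * (1 + (n : ℝ) ^ 2) + 2 * a * (1 + (n : ℝ) ^ 2) := by
          have := mul_le_mul_of_nonneg_right h2 (by positivity : 0 ≤ 1 + (n : ℝ) ^ 2)
          linarith
      _ = _ := by ring
  have k1 := key (om (4 * a) p) rfl
  have k2 := key (-om (4 * a) p) (by ring)
  rw [cf_gs, norm_mul, Complex.norm_real, Real.norm_of_nonneg (by positivity)]
  have h9 := norm_add_le (∫ y in (0 : ℝ)..(2 * a),
      Complex.exp (((om (4 * a) p * y : ℝ) : ℂ) * Complex.I) *
        (Real.sin (om (4 * a) n * y) : ℂ))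
      (∫ y in (0 : ℝ)..(2 * a), Complex.exp (((-om (4 * a) p * y : ℝ) : ℂ) * Complex.I) *
        (Real.sin (om (4 * a) n * y) : ℂ))
  have h10 : (0 : ℝ) ≤ 1 / (4 * a) * (1 + (p : ℝ) ^ 2) := by positivity
  calc _ ≤ 1 / (4 * a) * (‖∫ y in (0 : ℝ)..(2 * a),
        Complex.exp (((om (4 * a) p * y : ℝ) : ℂ) * Complex.I) *
        (Real.sin (om (4 * a) n * y) : ℂ)‖ +
        ‖∫ y in (0 : ℝ)..(2 * a), Complex.exp (((-om (4 * a) p * y : ℝ) : ℂ) * Complex.I) *
        (Real.sin (om (4 * a) n * y) : ℂ)‖) * (1 + (p : ℝ) ^ 2) := by gcongr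
    _ ≤ 1 / (4 * a) * (4 * a * (1 + (n : ℝ) ^ 2) + 4 * a * (1 + (n : ℝ) ^ 2)) := by
        rw [mul_assoc]
        refine mul_le_mul_of_nonneg_left ?_ (by positivity)
        linarith
    _ = _ := by field_simp; ring

theorem summ_inv_sq : Summable fun p : ℤ => 1 / (1 + (p : ℝ) ^ 2) := by
  have h := (Real.summable_one_div_int_pow (p := 2)).2 (by norm_num)
  refine Summable.of_norm_bounded_eventually (g := fun p : ℤ => 1 / (p : ℝ) ^ 2) h ?_
  have hfin : ({0} : Set ℤ).Finite := finite_singleton 0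
  filter_upwards [hfin.compl_mem_cofinite] with p hp
  have hp0 : (p : ℝ) ≠ 0 := by exact_mod_cast hp
  rw [Real.norm_of_nonneg (by positivity)]
  apply one_div_le_one_div_of_le
  · positivity
  · linarith

theorem cos_exp {a : ℝ} (ha : 0 < a) (n : ℤ) : ∃ c : ℤ → ℝ, (∀ p, c (-p) = c p) ∧
    (∀ p, |c p| ≤ 2 * (1 + (n : ℝ) ^ 2) * (1 / (1 + (p : ℝ) ^ 2))) ∧
    ∀ y ∈ Icc 0 (2 * a), HasSum (fun p => c p * Real.cos (om (4 * a) p * y))
      (Real.sin (om (4 * a) n * y)) := by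
  have hL : Fact (0 < 4 * a) := ⟨by positivity⟩
  have hle : ∀ p, ‖cf (4 * a) (gs a n) p‖ ≤ 2 * (1 + (n : ℝ) ^ 2) * (1 / (1 + (p : ℝ) ^ 2)) := by
    intro p
    rw [mul_one_div, le_div_iff₀ (by positivity)]
    exact cf_gs_le n p
  have hsum : Summable fun p => ‖cf (4 * a) (gs a n) p‖ :=
    Summable.of_nonneg_of_le (fun p => norm_nonneg _) hle (summ_inv_sq.mul_left _)
  have hcont : Continuous (gs a n) := by
    unfold gs
    fun_prop
  have heven : ∀ y, gs a n (-y) = gs a n y := fun y => by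
    unfold gs
    rw [abs_neg]
  have e0 : 4 * a / 2 = 2 * a := by ring
  have e00 : -(4 * a / 2) + 4 * a = 2 * a := by ring
  have e1 : (gs a n (-(4 * a / 2)) : ℂ) = (gs a n (-(4 * a / 2) + 4 * a) : ℂ) := by
    rw [e00, e0, heven]
  have hc : Continuous (AddCircle.liftIoc (4 * a) (-(4 * a / 2)) fun y => (gs a n y : ℂ)) :=
    liftIoc_continuous e1 (Complex.continuous_ofReal.comp hcont).continuousOn
  set f : C(AddCircle (4 * a), ℂ) := ⟨_, hc⟩ with hf
  have hsum' : Summable (fourierCoeff f) := Summable.of_norm hsum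
  have h1 := hasSum_fourier_series_of_summable hsum'
  have h2 := SC_hasSum (L := 4 * a) hsum
  have h3 : SC (4 * a) (cf (4 * a) (gs a n)) = f := h2.unique h1
  set c0 : ℤ → ℝ := fun p => (cf (4 * a) (gs a n) p).re with hc0
  have hser : ∀ y ∈ Icc 0 (2 * a), HasSum (fun p => c0 p * Real.cos (om (4 * a) p * y))
      (Real.sin (om (4 * a) n * y)) := by
    intro y hy
    have h4 := SC_re (L := 4 * a) hsum y
    rw [h3] at h4
    have hy' : y ∈ Ioc (-(4 * a / 2)) (-(4 * a / 2) + 4 * a) := by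
      rw [e00, e0]
      exact ⟨by linarith [hy.1], hy.2⟩
    have h5 : (f (y : AddCircle (4 * a))).re = gs a n y := by
      show ((AddCircle.liftIoc (4 * a) (-(4 * a / 2)) fun y => (gs a n y : ℂ))
        (y : AddCircle (4 * a))).re = gs a n y
      rw [liftIoc_coe_apply hy', Complex.ofReal_re]
    rw [h5] at h4
    have h6 : gs a n y = Real.sin (om (4 * a) n * y) := by
      unfold gs
      rw [abs_of_nonneg hy.1]
    rw [h6] at h4
    refine h4.congr_fun fun p => ?_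
    rw [cf_even heven p, zero_mul, sub_zero]
  have hneg : ∀ p, om (4 * a) (-p) = -om (4 * a) p := fun p => by
    unfold om
    push_cast
    ring
  refine ⟨fun p => (c0 p + c0 (-p)) / 2, fun p => ?_, fun p => ?_, fun y hy => ?_⟩
  · show (c0 (-p) + c0 (- -p)) / 2 = (c0 p + c0 (-p)) / 2
    rw [neg_neg, add_comm]
  · have h1 : |c0 p| ≤ 2 * (1 + (n : ℝ) ^ 2) * (1 / (1 + (p : ℝ) ^ 2)) :=
      (Complex.abs_re_le_norm _).trans (hle p)
    have h2 : |c0 (-p)| ≤ 2 * (1 + (n : ℝ) ^ 2) * (1 / (1 + (p : ℝ) ^ 2)) := by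
      have := (Complex.abs_re_le_norm (cf (4 * a) (gs a n) (-p))).trans (hle (-p))
      have e : ((-p : ℤ) : ℝ) ^ 2 = (p : ℝ) ^ 2 := by push_cast; ring
      rw [e] at this
      exact this
    show |(c0 p + c0 (-p)) / 2| ≤ _
    rw [abs_div, abs_of_pos (by norm_num : (0 : ℝ) < 2)]
    have := abs_add_le (c0 p) (c0 (-p))
    linarith
  · have h1 := hser y hy
    have h2 := (Equiv.neg ℤ).hasSum_iff.2 h1
    have h3 : HasSum (fun p => c0 (-p) * Real.cos (om (4 * a) p * y))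
        (Real.sin (om (4 * a) n * y)) := by
      refine h2.congr_fun fun p => ?_
      simp only [Function.comp, Equiv.neg_apply]
      rw [hneg, neg_mul, Real.cos_neg]
    have h4 := (h1.add h3).mul_left (1 / 2)
    have e : 1 / 2 * (Real.sin (om (4 * a) n * y) + Real.sin (om (4 * a) n * y)) =
        Real.sin (om (4 * a) n * y) := by ring
    rw [e] at h4
    refine h4.congr_fun fun p => ?_
    ring

end Pool.Agent.H72.NS
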