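import Pool.Agent.H72.NS.N3

/-!
# Products of cosine and sine series, and the cosine series of the free flow
-/

set_option autoImplicit false

open Set Filter Topology MeasureTheory

namespace Pool.Agent.H72.NS

open Pool.Agent.Q61.NC

/-- convolution -/
noncomputable def conv (u z : ℤ → ℝ) (r : ℤ) : ℝ := ∑' p, u p * z (r - p)

/-- `(p, r) ↦ (p, r - p)` -/
def shear : ℤ × ℤ ≃ ℤ × ℤ where
  toFun x := (x.1, x.2 - x.1)
  invFun x := (x.1, x.2 + x.1)
  left_inv x := by ext <;> simp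
  right_inv x := by ext <;> simp

theorem summ_mul {u z : ℤ → ℝ} (hu : Summable fun p => |u p|) (hz : Summable fun p => |z p|) :
    Summable fun x : ℤ × ℤ => |u x.1 * z x.2| := by
  have h := hu.mul_of_nonneg hz (fun _ => abs_nonneg _) (fun _ => abs_nonneg _)
  refine h.congr fun x => ?_
  rw [abs_mul]

theorem summ_shear {u z : ℤ → ℝ} (hu : Summable fun p => |u p|) (hz : Summable fun p => |z p|) :
    Summable fun x : ℤ × ℤ => |u x.1 * z (x.2 - x.1)| :=
  shear.summable_iff.2 (summ_mul hu hz)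

theorem summ_shear' {u z : ℤ → ℝ} (hu : Summable fun p => |u p|) (hz : Summable fun p => |z p|) :
    Summable fun x : ℤ × ℤ => |u x.2 * z (x.1 - x.2)| :=
  (Equiv.prodComm ℤ ℤ).summable_iff.2 (summ_shear hu hz)

theorem conv_inner {u z : ℤ → ℝ} (hu : Summable fun p => |u p|) (hz : Summable fun p => |z p|)
    (r : ℤ) : Summable fun p => |u p * z (r - p)| :=
  (summ_shear' hu hz).prod_factor r

/-- The convolution of nonnegative summable sequences. -/
theorem conv_nonneg {u z : ℤ → ℝ} (hu0 : ∀ p, 0 ≤ u p) (hz0 : ∀ p, 0 ≤ z p) (hu : Summable u)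
    (hz : Summable z) : Summable (conv u z) ∧ (∀ r, 0 ≤ conv u z r) ∧
      ∑' r, conv u z r = (∑' p, u p) * ∑' p, z p := by
  have hu' : Summable fun p => |u p| := hu.congr fun p => (abs_of_nonneg (hu0 p)).symm
  have hz' : Summable fun p => |z p| := hz.congr fun p => (abs_of_nonneg (hz0 p)).symm
  have h1 : Summable fun x : ℤ × ℤ => u x.2 * z (x.1 - x.2) :=
    (summ_shear' hu' hz').congr fun x => abs_of_nonneg (mul_nonneg (hu0 _) (hz0 _))
  have h2 : Summable fun x : ℤ × ℤ => u x.1 * z x.2 :=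
    (summ_mul hu' hz').congr fun x => abs_of_nonneg (mul_nonneg (hu0 _) (hz0 _))
  refine ⟨h1.prod, fun r => tsum_nonneg fun p => mul_nonneg (hu0 _) (hz0 _), ?_⟩
  have e1 : ∑' r, conv u z r = ∑' x : ℤ × ℤ, u x.2 * z (x.1 - x.2) := h1.tsum_prod.symm
  have e2 : ∑' x : ℤ × ℤ, u x.2 * z (x.1 - x.2) = ∑' x : ℤ × ℤ, u x.1 * z (x.2 - x.1) :=
    (Equiv.prodComm ℤ ℤ).tsum_eq (fun x : ℤ × ℤ => u x.1 * z (x.2 - x.1))
  have e3 : ∑' x : ℤ × ℤ, u x.1 * z (x.2 - x.1) = ∑' x : ℤ × ℤ, u x.1 * z x.2 :=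
    shear.tsum_eq (fun x : ℤ × ℤ => u x.1 * z x.2)
  rw [e1, e2, e3, hu.tsum_mul_tsum hz h2]

theorem conv_abs {u z : ℤ → ℝ} (hu : Summable fun p => |u p|) (hz : Summable fun p => |z p|)
    (r : ℤ) : |conv u z r| ≤ conv (fun p => |u p|) (fun p => |z p|) r := by
  unfold conv
  have h := conv_inner hu hz r
  rw [← Real.norm_eq_abs]
  refine (norm_tsum_le_tsum_norm (by simpa only [Real.norm_eq_abs] using h)).trans (le_of_eq ?_)
  refine tsum_congr fun p => ?_
  rw [Real.norm_eq_abs, abs_mul]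

/-- Product of a cosine series and a sine series. -/
theorem prod_series {u z : ℤ → ℝ} (hu : Summable fun p => |u p|) (hz : Summable fun p => |z p|)
    (hs : ∀ p, u (-p) = u p) {w : ℤ → ℝ} (hw : ∀ p q, w (p + q) = w p + w q) :
    (∑' p, u p * Real.cos (w p)) * (∑' q, z q * Real.sin (w q)) =
      ∑' r, conv u z r * Real.sin (w r) := by
  have hw0 : w 0 = 0 := by
    have := hw 0 0
    simp at this
    exact this
  have hwn : ∀ p, w (-p) = -w p := fun p => by
    have := hw p (-p)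
    rw [add_neg_cancel, hw0] at this
    linarith
  have hc : ∀ p, |Real.cos (w p)| ≤ 1 := fun p => Real.abs_cos_le_one _
  have hsn : ∀ p, |Real.sin (w p)| ≤ 1 := fun p => Real.abs_sin_le_one _
  have s1 : Summable fun p => ‖u p * Real.cos (w p)‖ :=
    Summable.of_nonneg_of_le (fun _ => norm_nonneg _) (fun p => by
      rw [Real.norm_eq_abs, abs_mul]
      exact mul_le_of_le_one_right (abs_nonneg _) (hc p)) hu
  have s2 : Summable fun q => ‖z q * Real.sin (w q)‖ :=
    Summable.of_nonneg_of_le (fun _ => norm_nonneg _) (fun p => by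
      rw [Real.norm_eq_abs, abs_mul]
      exact mul_le_of_le_one_right (abs_nonneg _) (hsn p)) hz
  rw [tsum_mul_tsum_of_summable_norm s1 s2]
  have hF : ∀ g : ℤ × ℤ → ℝ, (∀ x, |g x| ≤ 1) → Summable fun x : ℤ × ℤ => u x.1 * z x.2 * g x := by
    intro g hg
    refine Summable.of_norm_bounded (g := fun x : ℤ × ℤ => |u x.1 * z x.2|) (summ_mul hu hz) ?_
    intro x
    rw [Real.norm_eq_abs, abs_mul]
    exact mul_le_of_le_one_right (abs_nonneg _) (hg x)
  have f1 := hF (fun x => Real.sin (w (x.1 + x.2))) fun x => hsn _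
  have f2 := hF (fun x => Real.sin (w (x.2 - x.1))) fun x => hsn _
  have e1 : ∀ x : ℤ × ℤ, u x.1 * Real.cos (w x.1) * (z x.2 * Real.sin (w x.2)) =
      1 / 2 * (u x.1 * z x.2 * Real.sin (w (x.1 + x.2))) +
      1 / 2 * (u x.1 * z x.2 * Real.sin (w (x.2 - x.1))) := by
    intro x
    rw [sub_eq_add_neg, hw, hw, hwn, Real.sin_add, Real.sin_add, Real.sin_neg, Real.cos_neg]
    ring
  rw [tsum_congr e1, (f1.mul_left _).tsum_add (f2.mul_left _), tsum_mul_left, tsum_mul_left]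
  set e : ℤ × ℤ ≃ ℤ × ℤ := (Equiv.neg ℤ).prodCongr (Equiv.refl ℤ) with he
  have e2 : ∑' x : ℤ × ℤ, u x.1 * z x.2 * Real.sin (w (x.2 - x.1)) =
      ∑' x : ℤ × ℤ, u x.1 * z x.2 * Real.sin (w (x.1 + x.2)) := by
    rw [← e.tsum_eq (fun x : ℤ × ℤ => u x.1 * z x.2 * Real.sin (w (x.2 - x.1)))]
    refine tsum_congr fun x => ?_
    show u (-x.1) * z x.2 * Real.sin (w (x.2 - -x.1)) = _
    rw [hs, sub_neg_eq_add, add_comm x.2]
  rw [e2]
  have e3 : ∑' x : ℤ × ℤ, u x.1 * z x.2 * Real.sin (w (x.1 + x.2)) =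
      ∑' x : ℤ × ℤ, u x.1 * z (x.2 - x.1) * Real.sin (w x.2) := by
    rw [← shear.tsum_eq (fun x : ℤ × ℤ => u x.1 * z x.2 * Real.sin (w (x.1 + x.2)))]
    refine tsum_congr fun x => ?_
    show u x.1 * z (x.2 - x.1) * Real.sin (w (x.1 + (x.2 - x.1))) = _
    rw [add_sub_cancel]
  have e4 : ∑' x : ℤ × ℤ, u x.1 * z (x.2 - x.1) * Real.sin (w x.2) =
      ∑' x : ℤ × ℤ, u x.2 * z (x.1 - x.2) * Real.sin (w x.1) :=
    ((Equiv.prodComm ℤ ℤ).tsum_eq
      (fun x : ℤ × ℤ => u x.1 * z (x.2 - x.1) * Real.sin (w x.2))).symm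
  have s3 : Summable fun x : ℤ × ℤ => u x.2 * z (x.1 - x.2) * Real.sin (w x.1) := by
    refine Summable.of_norm_bounded (g := fun x : ℤ × ℤ => |u x.2 * z (x.1 - x.2)|)
      (summ_shear' hu hz) ?_
    intro x
    rw [Real.norm_eq_abs, abs_mul]
    exact mul_le_of_le_one_right (abs_nonneg _) (hsn _)
  rw [e3, e4, s3.tsum_prod]
  have e5 : ∀ r, ∑' p, u p * z (r - p) * Real.sin (w r) = conv u z r * Real.sin (w r) := fun r => by
    rw [tsum_mul_right, conv]
  simp only [e5]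
  ring

theorem om_add (L : ℝ) (y : ℝ) (p q : ℤ) : om L (p + q) * y = om L p * y + om L q * y := by
  unfold om
  push_cast
  ring

theorem summ_lam {L : ℝ} (hL : 0 < L) {t : ℝ} (ht : 0 < t) :
    Summable fun q : ℤ => (1 + lam L q) * Real.exp (-(lam L q * t)) := by
  have h := fr_summable hL (a := fun q => 1 + lam L q) (M := 1) zero_le_one (fun q => by
    have := lam_nonneg L q
    rw [one_mul, abs_of_nonneg (by linarith)]) 0 ht
  refine h.congr fun q => ?_
  rw [pow_zero, mul_one]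

theorem lam_four {a : ℝ} (ha : 0 < a) (q : ℤ) :
    lam (4 * a) q = (Real.pi / (2 * a)) ^ 2 * (q : ℝ) ^ 2 := by
  unfold lam om
  field_simp
  ring

/-- The cosine series of the free flow, for `t ≥ t₀`. -/
theorem cos_flow {a : ℝ} (ha : 0 < a) {b : ℤ → ℝ} {M : ℝ} (hM : 0 ≤ M) (hb : ∀ n, |b n| ≤ M)
    {t₀ : ℝ} (ht₀ : 0 < t₀) : ∃ (u : ℤ → ℝ → ℝ) (uh : ℤ → ℝ), Summable uh ∧ (∀ p, 0 ≤ uh p) ∧
      (∀ p, Continuous (u p)) ∧ (∀ p t, |u p t| ≤ uh p) ∧ (∀ p t, u (-p) t = u p t) ∧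
      ∀ t y, t₀ ≤ t → y ∈ Icc (-a) a →
        ∑' q : ℤ, b q * Real.exp (-(lam (4 * a) q * t)) * Real.sin (om (4 * a) q * (y + a)) =
        ∑' p : ℤ, u p t * Real.cos (om (4 * a) p * (y + a)) := by
  have hL : 0 < 4 * a := by positivity
  choose c hc1 hc2 hc3 using fun n => cos_exp ha n
  set S0 : ℝ := ∑' p : ℤ, 1 / (1 + (p : ℝ) ^ 2) with hS0
  have hS00 : 0 ≤ S0 := tsum_nonneg fun p => by positivity
  set κ : ℝ := 1 + (2 * a / Real.pi) ^ 2 with hκ
  have hκ0 : 0 < κ := by positivity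
  have hpi := Real.pi_pos
  have hn2 : ∀ n : ℤ, 1 + (n : ℝ) ^ 2 ≤ κ * (1 + lam (4 * a) n) := by
    intro n
    rw [lam_four ha, hκ]
    have : (2 * a / Real.pi) ^ 2 * ((Real.pi / (2 * a)) ^ 2 * (n : ℝ) ^ 2) = (n : ℝ) ^ 2 := by
      field_simp
    have h2 : 0 ≤ (Real.pi / (2 * a)) ^ 2 * (n : ℝ) ^ 2 := by positivity
    have h3 : 0 ≤ (2 * a / Real.pi) ^ 2 := by positivity
    nlinarith
  have hcs : ∀ n, Summable fun p => |c n p| := fun n =>
    Summable.of_nonneg_of_le (fun _ => abs_nonneg _) (hc2 n) (summ_inv_sq.mul_left _)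
  have hct : ∀ n, ∑' p, |c n p| ≤ 2 * (1 + (n : ℝ) ^ 2) * S0 := by
    intro n
    rw [hS0, ← tsum_mul_left]
    exact (hcs n).tsum_le_tsum (hc2 n) (summ_inv_sq.mul_left _)
  -- the majorant
  have hmaj : Summable fun x : ℤ × ℤ => M * Real.exp (-(lam (4 * a) x.1 * t₀)) * |c x.1 x.2| := by
    rw [summable_prod_of_nonneg (fun x => by positivity)]
    refine ⟨fun n => (hcs n).mul_left (M * Real.exp (-(lam (4 * a) n * t₀))), ?_⟩
    have h1 := (summ_lam hL ht₀).mul_left (M * (2 * κ * S0))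
    refine Summable.of_nonneg_of_le (fun n => tsum_nonneg fun p => by positivity) (fun n => ?_) h1
    simp only
    rw [tsum_mul_left]
    have h2 := hct n
    have h3 := hn2 n
    calc M * Real.exp (-(lam (4 * a) n * t₀)) * ∑' p, |c n p|
        ≤ M * Real.exp (-(lam (4 * a) n * t₀)) * (2 * (κ * (1 + lam (4 * a) n)) * S0) := by
          gcongr
          exact h2.trans (by gcongr)
      _ = _ := by ring
  have hmaj' : Summable fun x : ℤ × ℤ => M * Real.exp (-(lam (4 * a) x.2 * t₀)) * |c x.2 x.1| :=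
    (Equiv.prodComm ℤ ℤ).summable_iff.2 hmaj
  have hterm : ∀ n p t, |b n * Real.exp (-(lam (4 * a) n * max t t₀)) * c n p| ≤
      M * Real.exp (-(lam (4 * a) n * t₀)) * |c n p| := by
    intro n p t
    rw [abs_mul, abs_mul, abs_of_pos (Real.exp_pos _)]
    have h1 := hb n
    have h2 := lam_nonneg (4 * a) n
    have h3 : Real.exp (-(lam (4 * a) n * max t t₀)) ≤ Real.exp (-(lam (4 * a) n * t₀)) := by
      apply Real.exp_le_exp.2
      have := le_max_right t t₀
      nlinarith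
    gcongr
  refine ⟨fun p t => ∑' n, b n * Real.exp (-(lam (4 * a) n * max t t₀)) * c n p,
    fun p => ∑' n, M * Real.exp (-(lam (4 * a) n * t₀)) * |c n p|, hmaj'.prod,
    fun p => tsum_nonneg fun n => by positivity, fun p => ?_, fun p t => ?_, fun p t => ?_,
    fun t y ht hy => ?_⟩
  · refine continuous_tsum (fun n => ?_) (hmaj'.prod_factor p) fun n t => hterm n p t
    fun_prop
  · rw [← Real.norm_eq_abs]
    exact tsum_of_norm_bounded (hmaj'.prod_factor p).hasSum fun n => hterm n p t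
  · exact tsum_congr fun n => by rw [hc1]
  · have hy' : y + a ∈ Icc 0 (2 * a) := ⟨by linarith [hy.1], by linarith [hy.2]⟩
    have hmx : max t t₀ = t := max_eq_left ht
    have hs : Summable fun x : ℤ × ℤ => b x.1 * Real.exp (-(lam (4 * a) x.1 * t)) * c x.1 x.2 *
        Real.cos (om (4 * a) x.2 * (y + a)) := by
      refine Summable.of_norm_bounded hmaj fun x => ?_
      rw [norm_mul, Real.norm_eq_abs, Real.norm_eq_abs]
      have h1 := hterm x.1 x.2 t
      rw [hmx] at h1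
      calc _ ≤ M * Real.exp (-(lam (4 * a) x.1 * t₀)) * |c x.1 x.2| * 1 := by
            gcongr
            exact Real.abs_cos_le_one _
        _ = _ := mul_one _
    have e1 : ∀ n, b n * Real.exp (-(lam (4 * a) n * t)) * Real.sin (om (4 * a) n * (y + a)) =
        ∑' p, b n * Real.exp (-(lam (4 * a) n * t)) * c n p *
          Real.cos (om (4 * a) p * (y + a)) := by
      intro n
      rw [← (hc3 n _ hy').tsum_eq, ← tsum_mul_left]
      exact tsum_congr fun p => by ring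
    have e2 : ∀ p, (∑' n, b n * Real.exp (-(lam (4 * a) n * max t t₀)) * c n p) *
        Real.cos (om (4 * a) p * (y + a)) =
        ∑' n, b n * Real.exp (-(lam (4 * a) n * t)) * c n p *
          Real.cos (om (4 * a) p * (y + a)) := by
      intro p
      rw [hmx, tsum_mul_right]
    rw [tsum_congr e1, tsum_congr e2]
    exact (Summable.tsum_comm (f := fun n p => b n * Real.exp (-(lam (4 * a) n * t)) * c n p *
      Real.cos (om (4 * a) p * (y + a))) hs).symm

end Pool.Agent.H72.NS
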