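import Pool.Agent.H72.NS.N4

/-!
# The coefficients of the transported flow
-/

set_option autoImplicit false

open Set Filter Topology MeasureTheory

namespace Pool.Agent.H72.NS

/-- clamp to `[t₀, T]` -/
noncomputable def cl (t₀ T t : ℝ) : ℝ := max t₀ (min t T)

theorem cl_cont (t₀ T : ℝ) : Continuous (cl t₀ T) := by unfold cl; fun_prop

theorem cl_ge (t₀ T t : ℝ) : t₀ ≤ cl t₀ T t := le_max_left _ _

theorem cl_le {t₀ T : ℝ} (h : t₀ ≤ T) (t : ℝ) : cl t₀ T t ≤ T := max_le h (min_le_right _ _)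

theorem cl_of {t₀ T t : ℝ} (h1 : t₀ ≤ t) (h2 : t ≤ T) : cl t₀ T t = t := by
  unfold cl
  rw [min_eq_left h2, max_eq_right h1]

/-- the source -/
noncomputable def fc (u : ℤ → ℝ → ℝ) (z : ℤ → ℝ → ℝ) (q : ℤ) (s : ℝ) : ℝ :=
  conv (fun p => u p s) (fun r => z r s) q

/-- the coefficients -/
noncomputable def zc (t₀ T : ℝ) (l b : ℤ → ℝ) (u : ℤ → ℝ → ℝ) : ℕ → ℤ → ℝ → ℝ
  | 0 => fun q t => b q * Real.exp (-(l q * cl t₀ T t))
  | m + 1 => fun q t => -(Real.exp (-(l q * cl t₀ T t)) *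
      ∫ s in t₀..cl t₀ T t, Real.exp (l q * s) * fc u (zc t₀ T l b u m) q s)

/-- the majorants -/
noncomputable def AA (M t₀ : ℝ) (l uh : ℤ → ℝ) : ℕ → ℤ → ℝ
  | 0 => fun q => M * ((1 + l q) * Real.exp (-(l q * t₀)))
  | m + 1 => conv uh (AA M t₀ l uh m)

theorem duh_le {l c t₀ F : ℝ} (hl : 0 ≤ l) (hc : t₀ ≤ c) (hF : 0 ≤ F) {f : ℝ → ℝ}
    (hb : ∀ s ∈ Icc t₀ c, |f s| ≤ F) :
    l * |Real.exp (-(l * c)) * ∫ s in t₀..c, Real.exp (l * s) * f s| ≤ F := by
  have h1 : |∫ s in t₀..c, Real.exp (l * s) * f s| ≤ ∫ s in t₀..c, Real.exp (l * s) * F := by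
    rw [← Real.norm_eq_abs]
    refine intervalIntegral.norm_integral_le_of_norm_le hc ?_ ?_
    · refine Eventually.of_forall fun s hs => ?_
      rw [Real.norm_eq_abs, abs_mul, abs_of_pos (Real.exp_pos _)]
      exact mul_le_mul_of_nonneg_left (hb s (Ioc_subset_Icc_self hs)) (Real.exp_pos _).le
    · have : Continuous fun s => Real.exp (l * s) * F := by fun_prop
      exact this.intervalIntegrable _ _
  have h2 : l * ∫ s in t₀..c, Real.exp (l * s) = Real.exp (l * c) - Real.exp (l * t₀) := by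
    rw [← intervalIntegral.integral_const_mul]
    have hd : ∀ s ∈ uIcc t₀ c, HasDerivAt (fun s => Real.exp (l * s)) (l * Real.exp (l * s)) s := by
      intro s _
      have h3 : HasDerivAt (fun s : ℝ => l * s) l s := by simpa using (hasDerivAt_id s).const_mul l
      have h4 := h3.exp
      rwa [mul_comm] at h4
    have hc' : Continuous fun s : ℝ => l * Real.exp (l * s) := by fun_prop
    exact intervalIntegral.integral_eq_sub_of_hasDerivAt hd (hc'.intervalIntegrable _ _)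
  rw [intervalIntegral.integral_mul_const] at h1
  rw [abs_mul, abs_of_pos (Real.exp_pos _)]
  calc l * (Real.exp (-(l * c)) * |∫ s in t₀..c, Real.exp (l * s) * f s|)
      ≤ l * (Real.exp (-(l * c)) * ((∫ s in t₀..c, Real.exp (l * s)) * F)) := by gcongr
    _ = (l * ∫ s in t₀..c, Real.exp (l * s)) * (Real.exp (-(l * c)) * F) := by ring
    _ = (Real.exp (l * c) - Real.exp (l * t₀)) * (Real.exp (-(l * c)) * F) := by rw [h2]
    _ ≤ Real.exp (l * c) * (Real.exp (-(l * c)) * F) := by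
        refine mul_le_mul_of_nonneg_right ?_ (by positivity)
        linarith [Real.exp_pos (l * t₀)]
    _ = F := by
        rw [← mul_assoc, ← Real.exp_add, add_neg_cancel, Real.exp_zero, one_mul]

theorem duh_int {l c t₀ : ℝ} (hl : 0 ≤ l) (hc : t₀ ≤ c) {f G : ℝ → ℝ}
    (hG : Continuous G) (hb : ∀ s ∈ Icc t₀ c, |f s| ≤ G s) :
    |Real.exp (-(l * c)) * ∫ s in t₀..c, Real.exp (l * s) * f s| ≤ ∫ s in t₀..c, G s := by
  have e : Real.exp (-(l * c)) * ∫ s in t₀..c, Real.exp (l * s) * f s =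
      ∫ s in t₀..c, Real.exp (-(l * c)) * (Real.exp (l * s) * f s) := by
    rw [intervalIntegral.integral_const_mul]
  rw [e, ← Real.norm_eq_abs]
  refine intervalIntegral.norm_integral_le_of_norm_le hc ?_ (hG.intervalIntegrable _ _)
  refine Eventually.of_forall fun s hs => ?_
  rw [← mul_assoc, ← Real.exp_add, Real.norm_eq_abs, abs_mul, abs_of_pos (Real.exp_pos _)]
  have h1 : Real.exp (-(l * c) + l * s) ≤ 1 := by
    rw [Real.exp_le_one_iff]
    have := hs.2
    nlinarith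
  calc _ ≤ 1 * |f s| := by gcongr
    _ = |f s| := one_mul _
    _ ≤ G s := hb s (Ioc_subset_Icc_self hs)

section

variable {t₀ T M : ℝ} {l b uh : ℤ → ℝ} {u : ℤ → ℝ → ℝ}

/-- the hypotheses -/
structure Hyp (t₀ T M : ℝ) (l b uh : ℤ → ℝ) (u : ℤ → ℝ → ℝ) : Prop where
  le : t₀ ≤ T
  t0 : 0 < t₀
  M0 : 0 ≤ M
  l0 : ∀ q, 0 ≤ l q
  bM : ∀ q, |b q| ≤ M
  us : Summable uh
  u0 : ∀ p, 0 ≤ uh p
  uc : ∀ p, Continuous (u p)
  ub : ∀ p t, |u p t| ≤ uh p
  ls : Summable fun q => (1 + l q) * Real.exp (-(l q * t₀))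

theorem AA_props (h : Hyp t₀ T M l b uh u) (m : ℕ) : Summable (AA M t₀ l uh m) ∧
    (∀ q, 0 ≤ AA M t₀ l uh m q) ∧
    ∑' q, AA M t₀ l uh m q = (∑' p, uh p) ^ m * ∑' q, AA M t₀ l uh 0 q := by
  induction m with
  | zero =>
    refine ⟨h.ls.mul_left M, fun q => ?_, by rw [pow_zero, one_mul]⟩
    have := h.l0 q
    have := h.M0
    show 0 ≤ M * ((1 + l q) * Real.exp (-(l q * t₀)))
    positivity
  | succ m ih =>
    obtain ⟨h1, h2, h3⟩ := conv_nonneg h.u0 ih.2.1 h.us ih.1
    refine ⟨h1, h2, ?_⟩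
    show ∑' q, conv uh (AA M t₀ l uh m) q = _
    rw [h3, ih.2.2, pow_succ]
    ring

theorem fc_props (h : Hyp t₀ T M l b uh u) (m : ℕ) {z : ℤ → ℝ → ℝ} (hz : ∀ q, Continuous (z q))
    {D : ℝ} {g : ℝ → ℝ} (hg : ∀ t, g t ≤ D)
    (hb : ∀ q t, |z q t| ≤ AA M t₀ l uh m q * g t) (q : ℤ) :
    Continuous (fc u z q) ∧ ∀ t, |fc u z q t| ≤ AA M t₀ l uh (m + 1) q * g t := by
  obtain ⟨a1, a2, -⟩ := AA_props h m
  have hs : Summable fun p => uh p * AA M t₀ l uh m (q - p) := by
    have := conv_inner (u := uh) (z := AA M t₀ l uh m)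
      (h.us.congr fun p => (abs_of_nonneg (h.u0 p)).symm)
      (a1.congr fun p => (abs_of_nonneg (a2 p)).symm) q
    exact this.congr fun p => abs_of_nonneg (mul_nonneg (h.u0 _) (a2 _))
  have hterm : ∀ p t, |u p t * z (q - p) t| ≤ uh p * AA M t₀ l uh m (q - p) * g t := by
    intro p t
    rw [abs_mul, mul_assoc]
    exact mul_le_mul (h.ub p t) (hb _ t) (abs_nonneg _) (h.u0 p)
  constructor
  · refine continuous_tsum (fun p => (h.uc p).mul (hz _)) (hs.mul_right D) fun p t => ?_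
    rw [Real.norm_eq_abs]
    refine (hterm p t).trans ?_
    have := mul_nonneg (h.u0 p) (a2 (q - p))
    exact mul_le_mul_of_nonneg_left (hg t) this
  · intro t
    show |∑' p, u p t * z (q - p) t| ≤ (∑' p, uh p * AA M t₀ l uh m (q - p)) * g t
    rw [← tsum_mul_right, ← Real.norm_eq_abs]
    exact tsum_of_norm_bounded (hs.mul_right (g t)).hasSum fun p => hterm p t

/-- the time factor -/
noncomputable def gt' (t₀ T : ℝ) (m : ℕ) (t : ℝ) : ℝ := (cl t₀ T t - t₀) ^ m / (m.factorial : ℝ)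

theorem gt_nonneg (m : ℕ) (t : ℝ) : 0 ≤ gt' t₀ T m t := by
  unfold gt'
  have := cl_ge t₀ T t
  have h2 : 0 ≤ cl t₀ T t - t₀ := by linarith
  positivity

theorem gt_le (hT : t₀ ≤ T) (h0 : 0 ≤ t₀) (m : ℕ) (t : ℝ) :
    gt' t₀ T m t ≤ T ^ m / (m.factorial : ℝ) := by
  unfold gt'
  have h1 := cl_ge t₀ T t
  have h2 := cl_le hT t
  have h3 : 0 ≤ cl t₀ T t - t₀ := by linarith
  have h4 : cl t₀ T t - t₀ ≤ T := by linarith
  gcongr

theorem zc_props (h : Hyp t₀ T M l b uh u) (m : ℕ) :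
    (∀ q, Continuous (zc t₀ T l b u m q)) ∧
    ∀ q t, |zc t₀ T l b u m q t| ≤ AA M t₀ l uh m q * gt' t₀ T m t := by
  induction m with
  | zero =>
    constructor
    · intro q
      have := cl_cont t₀ T
      show Continuous fun t => b q * Real.exp (-(l q * cl t₀ T t))
      fun_prop
    · intro q t
      show |b q * Real.exp (-(l q * cl t₀ T t))| ≤
        M * ((1 + l q) * Real.exp (-(l q * t₀))) * gt' t₀ T 0 t
      have h1 : gt' t₀ T 0 t = 1 := by unfold gt'; simp
      rw [h1, mul_one, abs_mul, abs_of_pos (Real.exp_pos _)]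
      have h2 := h.bM q
      have h3 := h.l0 q
      have h4 := h.M0
      have h5 : Real.exp (-(l q * cl t₀ T t)) ≤ Real.exp (-(l q * t₀)) := by
        apply Real.exp_le_exp.2
        have := cl_ge t₀ T t
        nlinarith
      have h6 : 0 < Real.exp (-(l q * t₀)) := Real.exp_pos _
      calc |b q| * Real.exp (-(l q * cl t₀ T t)) ≤ M * Real.exp (-(l q * t₀)) := by gcongr
        _ ≤ M * ((1 + l q) * Real.exp (-(l q * t₀))) := by
            gcongr
            nlinarith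
  | succ m ih =>
    obtain ⟨ih1, ih2⟩ := ih
    have hfc := fun q => fc_props h m ih1 (D := T ^ m / (m.factorial : ℝ)) (g := gt' t₀ T m)
      (gt_le h.le h.t0.le m) ih2 q
    have hT := h.le
    constructor
    · intro q
      have h1 : Continuous fun c => ∫ s in t₀..c, Real.exp (l q * s) *
          fc u (zc t₀ T l b u m) q s := by
        have h2 : Continuous fun s => Real.exp (l q * s) * fc u (zc t₀ T l b u m) q s :=
          (by fun_prop : Continuous fun s => Real.exp (l q * s)).mul (hfc q).1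
        exact intervalIntegral.continuous_primitive (fun a b => h2.intervalIntegrable a b) t₀
      have h3 := cl_cont t₀ T
      have h4 := h1.comp h3
      have h5 : Continuous fun t => Real.exp (-(l q * cl t₀ T t)) := by fun_prop
      exact (h5.mul h4).neg
    · intro q t
      have hc := cl_ge t₀ T t
      have hc2 := cl_le hT t
      show |-(Real.exp (-(l q * cl t₀ T t)) * ∫ s in t₀..cl t₀ T t, Real.exp (l q * s) *
        fc u (zc t₀ T l b u m) q s)| ≤ _
      rw [abs_neg]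
      set A := AA M t₀ l uh (m + 1) q with hA
      have h1 := duh_int (h.l0 q) hc
        (G := fun s => A * ((s - t₀) ^ m / (m.factorial : ℝ))) (by fun_prop) (fun s hs => by
          refine ((hfc q).2 s).trans (le_of_eq ?_)
          unfold gt'
          rw [cl_of hs.1 (hs.2.trans hc2)])
      refine h1.trans (le_of_eq ?_)
      rw [intervalIntegral.integral_const_mul]
      unfold gt'
      congr 1
      rw [intervalIntegral.integral_div]
      have h2 : ∫ s in t₀..cl t₀ T t, (s - t₀) ^ m = (cl t₀ T t - t₀) ^ (m + 1) / ((m : ℝ) + 1) := by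
        rw [intervalIntegral.integral_comp_sub_right (fun s => s ^ m) t₀, integral_pow]
        simp
      rw [h2, Nat.factorial_succ]
      push_cast
      field_simp

theorem fc_zc (h : Hyp t₀ T M l b uh u) (m : ℕ) (q : ℤ) :
    Continuous (fc u (zc t₀ T l b u m) q) ∧
    ∀ t, |fc u (zc t₀ T l b u m) q t| ≤ AA M t₀ l uh (m + 1) q * gt' t₀ T m t :=
  fc_props h m (zc_props h m).1 (D := T ^ m / (m.factorial : ℝ)) (g := gt' t₀ T m)
      (gt_le h.le h.t0.le m) (zc_props h m).2 q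

theorem zc_bound (h : Hyp t₀ T M l b uh u) (m : ℕ) (q : ℤ) (t : ℝ) :
    |zc t₀ T l b u m q t| ≤ AA M t₀ l uh m q * (T ^ m / (m.factorial : ℝ)) :=
  ((zc_props h m).2 q t).trans
    (mul_le_mul_of_nonneg_left (gt_le h.le h.t0.le m t) ((AA_props h m).2.1 q))

theorem fc_bound (h : Hyp t₀ T M l b uh u) (m : ℕ) (q : ℤ) (t : ℝ) :
    |fc u (zc t₀ T l b u m) q t| ≤ AA M t₀ l uh (m + 1) q * (T ^ m / (m.factorial : ℝ)) :=
  ((fc_zc h m q).2 t).trans
    (mul_le_mul_of_nonneg_left (gt_le h.le h.t0.le m t) ((AA_props h (m + 1)).2.1 q))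

theorem lzc_bound (h : Hyp t₀ T M l b uh u) (m : ℕ) (q : ℤ) (t : ℝ) :
    l q * |zc t₀ T l b u (m + 1) q t| ≤ AA M t₀ l uh (m + 1) q * (T ^ m / (m.factorial : ℝ)) := by
  show l q * |-(Real.exp (-(l q * cl t₀ T t)) * ∫ s in t₀..cl t₀ T t, Real.exp (l q * s) *
        fc u (zc t₀ T l b u m) q s)| ≤ _
  rw [abs_neg]
  have h0 := h.t0
  have h1 := h.le
  have h2 : 0 ≤ T := by linarith
  have h3 := (AA_props h (m + 1)).2.1 q
  exact duh_le (h.l0 q) (cl_ge t₀ T t) (by positivity)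
    (fun s _ => fc_bound h m q s)

theorem zc_deriv (h : Hyp t₀ T M l b uh u) (m : ℕ) (q : ℤ) {t : ℝ} (h1 : t₀ < t) (h2 : t < T) :
    HasDerivAt (zc t₀ T l b u (m + 1) q)
      (-(l q * zc t₀ T l b u (m + 1) q t) - fc u (zc t₀ T l b u m) q t) t := by
  have hfc := (fc_zc h m q).1
  have hc : Continuous fun s => Real.exp (l q * s) * fc u (zc t₀ T l b u m) q s :=
    (by fun_prop : Continuous fun s => Real.exp (l q * s)).mul hfc
  have d1 : HasDerivAt (fun c => ∫ s in t₀..c, Real.exp (l q * s) *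
      fc u (zc t₀ T l b u m) q s) (Real.exp (l q * t) * fc u (zc t₀ T l b u m) q t) t :=
    intervalIntegral.integral_hasDerivAt_right (hc.intervalIntegrable _ _)
      hc.stronglyMeasurable.stronglyMeasurableAtFilter hc.continuousAt
  have d2 : HasDerivAt (fun s : ℝ => Real.exp (-(l q * s))) (Real.exp (-(l q * t)) * -(l q)) t := by
    have h3 : HasDerivAt (fun s : ℝ => -(l q * s)) (-(l q)) t := by
      have h4 : HasDerivAt (fun s : ℝ => l q * s) (l q) t := by
        simpa using (hasDerivAt_id t).const_mul (l q)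
      exact h4.neg
    exact h3.exp
  have d3 : HasDerivAt (fun t => -(Real.exp (-(l q * t)) *
      ∫ s in t₀..t, Real.exp (l q * s) * fc u (zc t₀ T l b u m) q s))
      (-((Real.exp (-(l q * t)) * -l q * ∫ s in t₀..t, Real.exp (l q * s) *
        fc u (zc t₀ T l b u m) q s) + Real.exp (-(l q * t)) *
        (Real.exp (l q * t) * fc u (zc t₀ T l b u m) q t))) t := (d2.mul d1).neg
  have e : (zc t₀ T l b u (m + 1) q) =ᶠ[𝓝 t] fun t => -(Real.exp (-(l q * t)) *
      ∫ s in t₀..t, Real.exp (l q * s) * fc u (zc t₀ T l b u m) q s) := by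
    filter_upwards [Ioo_mem_nhds h1 h2] with s hs
    show -(Real.exp (-(l q * cl t₀ T s)) * ∫ s in t₀..cl t₀ T s, Real.exp (l q * s) *
        fc u (zc t₀ T l b u m) q s) = _
    rw [cl_of hs.1.le hs.2.le]
  have e2 : zc t₀ T l b u (m + 1) q t = -(Real.exp (-(l q * t)) *
      ∫ s in t₀..t, Real.exp (l q * s) * fc u (zc t₀ T l b u m) q s) := e.self_of_nhds
  refine HasDerivAt.congr_of_eventuallyEq ?_ e
  have e3 : Real.exp (-(l q * t)) * Real.exp (l q * t) = 1 := by
    rw [← Real.exp_add, neg_add_cancel, Real.exp_zero]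
  have e4 : -((Real.exp (-(l q * t)) * -l q * ∫ s in t₀..t, Real.exp (l q * s) *
        fc u (zc t₀ T l b u m) q s) + Real.exp (-(l q * t)) *
        (Real.exp (l q * t) * fc u (zc t₀ T l b u m) q t)) =
      -(l q * zc t₀ T l b u (m + 1) q t) - fc u (zc t₀ T l b u m) q t := by
    rw [e2]
    linear_combination (-(fc u (zc t₀ T l b u m) q t)) * e3
  rw [← e4]
  exact d3

end

end Pool.Agent.H72.NS
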