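import Pool.Agent.H72.NS.N2
import Pool.Agent.H72.NS.N5

/-!
# The series for the transported flow
-/

set_option autoImplicit false

open Set Filter Topology MeasureTheory
open scoped ContDiff

namespace Pool.Agent.H72.NS

open Pool.Agent.Q61.NC

/-- the data of the construction -/
structure Ctx (a B Ts t₀ T ρ M : ℝ) (b uh : ℤ → ℝ) (u : ℤ → ℝ → ℝ) (v : ℕ → ℝ → ℝ → ℝ) : Prop where
  a0 : 0 < a
  B0 : 0 < B
  hyp : Hyp t₀ T M (lam (4 * a)) b uh u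
  sw : SwitchJ B Ts ρ v
  ρ0 : 0 < ρ
  ρ1 : ρ ≤ 1
  tT : t₀ < T
  small : ρ * T * (∑' p, uh p) ≤ 1 / 2

section

variable {a B Ts t₀ T ρ M : ℝ} {b uh : ℤ → ℝ} {u : ℤ → ℝ → ℝ} {v : ℕ → ℝ → ℝ → ℝ}

theorem Ctx.T0 (h : Ctx a B Ts t₀ T ρ M b uh u v) : 0 < T := h.hyp.t0.trans h.tT

/-- the bound of the coefficients -/
noncomputable def bz (a t₀ T M : ℝ) (uh : ℤ → ℝ) (n : ℕ × ℤ) : ℝ :=
  2 * (1 + T) * (T ^ n.1 / (n.1.factorial : ℝ)) * AA M t₀ (lam (4 * a)) uh (n.1 + 1) n.2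

/-- the bound of the switch -/
noncomputable def bv (C ρ : ℝ) (m : ℕ) : ℝ := C * (((m + 3).factorial : ℝ) * ρ ^ m)

/-- the majorant -/
noncomputable def bet (a t₀ T ρ M C : ℝ) (uh : ℤ → ℝ) (n : ℕ × ℤ) : ℝ :=
  bv C ρ n.1 * bz a t₀ T M uh n

theorem fact_three (m : ℕ) : ((m + 3).factorial : ℝ) / (m.factorial : ℝ) =
    ((m : ℝ) + 1) * (m + 2) * (m + 3) := by
  rw [Nat.factorial_succ, Nat.factorial_succ, Nat.factorial_succ]
  have : (m.factorial : ℝ) ≠ 0 := by positivity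
  push_cast
  field_simp
  ring

theorem bet_summable (h : Ctx a B Ts t₀ T ρ M b uh u v) {C : ℝ} (hC : 0 ≤ C) :
    Summable (bet a t₀ T ρ M C uh) := by
  have hT := h.T0
  have hρ := h.ρ0
  set K : ℝ := ∑' p, uh p with hK
  have hK0 : 0 ≤ K := tsum_nonneg h.hyp.u0
  set A0 : ℝ := ∑' q, AA M t₀ (lam (4 * a)) uh 0 q with hA0
  have hA00 : 0 ≤ A0 := tsum_nonneg (AA_props h.hyp 0).2.1
  have hbz0 : ∀ n, 0 ≤ bz a t₀ T M uh n := fun n => by
    have := (AA_props h.hyp (n.1 + 1)).2.1 n.2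
    unfold bz
    positivity
  have hbv0 : ∀ m, 0 ≤ bv C ρ m := fun m => by unfold bv; positivity
  have hbet0 : 0 ≤ bet a t₀ T ρ M C uh := fun n => mul_nonneg (hbv0 n.1) (hbz0 n)
  rw [summable_prod_of_nonneg hbet0]
  constructor
  · intro m
    exact ((AA_props h.hyp (m + 1)).1.mul_left
      (2 * (1 + T) * (T ^ m / (m.factorial : ℝ)))).mul_left (bv C ρ m)
  · have hg : Summable fun m : ℕ => ((m : ℝ) + 1) * (m + 2) * (m + 3) * (1 / 2 : ℝ) ^ m := by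
      have hn : ‖(1 / 2 : ℝ)‖ < 1 := by norm_num
      have a3 := summable_pow_mul_geometric_of_norm_lt_one (R := ℝ) 3 hn
      have a2 := (summable_pow_mul_geometric_of_norm_lt_one (R := ℝ) 2 hn).mul_left 6
      have a1 := (summable_pow_mul_geometric_of_norm_lt_one (R := ℝ) 1 hn).mul_left 11
      have a0 := (summable_pow_mul_geometric_of_norm_lt_one (R := ℝ) 0 hn).mul_left 6
      refine (((a3.add a2).add a1).add a0).congr fun i => ?_
      ring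
    refine Summable.of_nonneg_of_le (fun m => tsum_nonneg fun q => hbet0 (m, q))
      (fun m => ?_) (hg.mul_left (C * (2 * (1 + T)) * (K * A0)))
    have e1 : ∑' q, bet a t₀ T ρ M C uh (m, q) = bv C ρ m *
        (2 * (1 + T) * (T ^ m / (m.factorial : ℝ)) * (K ^ (m + 1) * A0)) := by
      unfold bet bz
      simp only
      rw [tsum_mul_left, tsum_mul_left, (AA_props h.hyp (m + 1)).2.2]
    rw [e1]
    have e2 : bv C ρ m * (2 * (1 + T) * (T ^ m / (m.factorial : ℝ)) * (K ^ (m + 1) * A0)) =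
        C * (2 * (1 + T)) * (K * A0) *
          (((m + 3).factorial : ℝ) / (m.factorial : ℝ) * (ρ * T * K) ^ m) := by
      unfold bv
      rw [mul_pow, mul_pow, pow_succ]
      ring
    rw [e2, fact_three]
    have h1 := h.small
    have h2 : 0 ≤ ρ * T * K := by positivity
    gcongr

/-- the sine and cosine factors -/
noncomputable def SS (a : ℝ) (n : ℕ × ℤ) (y : ℝ) : ℝ := Real.sin (om (4 * a) n.2 * (y + a))

noncomputable def CC (a : ℝ) (n : ℕ × ℤ) (y : ℝ) : ℝ := Real.cos (om (4 * a) n.2 * (y + a))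

theorem SS_le (n : ℕ × ℤ) (y : ℝ) : |SS a n y| ≤ 1 := Real.abs_sin_le_one _
theorem CC_le (n : ℕ × ℤ) (y : ℝ) : |CC a n y| ≤ 1 := Real.abs_cos_le_one _

theorem arg_deriv (n : ℕ × ℤ) (y : ℝ) :
    HasDerivAt (fun y : ℝ => om (4 * a) n.2 * (y + a)) (om (4 * a) n.2) y := by
  simpa using ((hasDerivAt_id y).add_const a).const_mul (om (4 * a) n.2)

theorem SS_deriv (n : ℕ × ℤ) (y : ℝ) :
    HasDerivAt (SS a n) (om (4 * a) n.2 * CC a n y) y := by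
  have h := (arg_deriv (a := a) n y).sin
  have e : om (4 * a) n.2 * CC a n y = Real.cos (om (4 * a) n.2 * (y + a)) * om (4 * a) n.2 := by
    unfold CC
    ring
  rw [e]
  exact h

theorem CC_deriv (n : ℕ × ℤ) (y : ℝ) :
    HasDerivAt (CC a n) (-om (4 * a) n.2 * SS a n y) y := by
  have h := (arg_deriv (a := a) n y).cos
  have e : -om (4 * a) n.2 * SS a n y = -Real.sin (om (4 * a) n.2 * (y + a)) * om (4 * a) n.2 := by
    unfold SS
    ring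
  rw [e]
  exact h

/-- the general series -/
noncomputable def GG (v : ℕ → ℝ → ℝ → ℝ) (i : ℕ) (κ e : ℕ × ℤ → ℝ → ℝ) (t x y : ℝ) : ℝ :=
  ∑' n : ℕ × ℤ, v (n.1 + i) t x * κ n t * e n y

/-- admissible coefficients -/
structure Adm (a t₀ T M : ℝ) (uh : ℤ → ℝ) (κ : ℕ × ℤ → ℝ → ℝ) : Prop where
  cont : ∀ n, Continuous (κ n)
  bd : ∀ n t, |κ n t| ≤ bz a t₀ T M uh n

/-- admissible profiles -/
structure Prf (e : ℕ × ℤ → ℝ → ℝ) : Prop where
  cont : ∀ n, Continuous (e n)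
  bd : ∀ n y, |e n y| ≤ 1

theorem SS_prf : Prf (SS a) := ⟨fun n => by unfold SS; fun_prop, SS_le⟩
theorem CC_prf : Prf (CC a) := ⟨fun n => by unfold CC; fun_prop, CC_le⟩

/-- the constant of the switch -/
theorem exists_C (h : Ctx a B Ts t₀ T ρ M b uh u v) : ∃ C : ℝ, 0 ≤ C ∧ ∀ (m i : ℕ), i ≤ 3 →
    ∀ t x, t₀ ≤ t → |x| ≤ B → |v (m + i) t x| ≤ bv C ρ m := by
  obtain ⟨C, hC, hb⟩ := h.sw.bd t₀ h.hyp.t0
  refine ⟨C, hC, fun m i hi t x ht hx => (hb (m + i) t x ht hx).trans ?_⟩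
  have hρ := h.ρ0
  have hρ1 := h.ρ1
  unfold bv
  have h1 : ((m + i).factorial : ℝ) ≤ ((m + 3).factorial : ℝ) := by
    exact_mod_cast Nat.factorial_le (by omega)
  have h2 : ρ ^ (m + i) ≤ ρ ^ m := pow_le_pow_of_le_one hρ.le hρ1 (by omega)
  gcongr

theorem term_bd {C : ℝ} {i : ℕ} (hi : i ≤ 3)
    (hC : ∀ (m i : ℕ), i ≤ 3 → ∀ t x, t₀ ≤ t → |x| ≤ B → |v (m + i) t x| ≤ bv C ρ m)
    {κ e : ℕ × ℤ → ℝ → ℝ} (hκ : Adm a t₀ T M uh κ) (he : Prf e) {t x : ℝ} (ht : t₀ ≤ t)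
    (hx : |x| ≤ B) (n : ℕ × ℤ) (y : ℝ) :
    |v (n.1 + i) t x * κ n t * e n y| ≤ bet a t₀ T ρ M C uh n := by
  have h1 := hC n.1 i hi t x ht hx
  have h2 := hκ.bd n t
  have h3 := he.bd n y
  have h4 : 0 ≤ bz a t₀ T M uh n := (abs_nonneg _).trans h2
  have h5 : 0 ≤ bv C ρ n.1 := (abs_nonneg _).trans h1
  rw [abs_mul, abs_mul]
  calc |v (n.1 + i) t x| * |κ n t| * |e n y| ≤ bv C ρ n.1 * bz a t₀ T M uh n * 1 := by gcongr
    _ = _ := by rw [mul_one]; rfl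

theorem GG_summ (h : Ctx a B Ts t₀ T ρ M b uh u v) {i : ℕ} (hi : i ≤ 3)
    {κ e : ℕ × ℤ → ℝ → ℝ} (hκ : Adm a t₀ T M uh κ) (he : Prf e) {t x : ℝ} (ht : t₀ ≤ t)
    (hx : |x| ≤ B) (y : ℝ) : Summable fun n : ℕ × ℤ => v (n.1 + i) t x * κ n t * e n y := by
  obtain ⟨C, hC, hb⟩ := exists_C h
  exact Summable.of_norm_bounded (bet_summable h hC) fun n => term_bd hi hb hκ he ht hx n y

/-- the open set -/
def Dm (B t₀ T : ℝ) : Set (ℝ × ℝ × ℝ) := Ioo t₀ T ×ˢ (Ioo (-B) B ×ˢ (univ : Set ℝ))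

theorem Dm_open : IsOpen (Dm B t₀ T) := isOpen_Ioo.prod (isOpen_Ioo.prod isOpen_univ)

theorem Dm_conn : IsPreconnected (Dm B t₀ T) :=
  isPreconnected_Ioo.prod (isPreconnected_Ioo.prod isPreconnected_univ)

theorem v_cont (h : Ctx a B Ts t₀ T ρ M b uh u v) (m : ℕ) :
    ContinuousOn (fun p : ℝ × ℝ × ℝ => v m p.1 p.2.1) (Dm B t₀ T) := by
  have h1 := (h.sw.smooth m).continuousOn
  have h2 : ContinuousOn (fun p : ℝ × ℝ × ℝ => (p.1, p.2.1)) (Dm B t₀ T) := by fun_prop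
  refine h1.comp h2 ?_
  rintro ⟨t, x, y⟩ ⟨h3, h4, -⟩
  exact ⟨h.hyp.t0.trans h3.1, abs_lt.2 h4⟩

theorem GG_cont (h : Ctx a B Ts t₀ T ρ M b uh u v) {i : ℕ} (hi : i ≤ 3)
    {κ e : ℕ × ℤ → ℝ → ℝ} (hκ : Adm a t₀ T M uh κ) (he : Prf e) :
    ContinuousOn (fun p : ℝ × ℝ × ℝ => GG v i κ e p.1 p.2.1 p.2.2) (Dm B t₀ T) := by
  obtain ⟨C, hC, hb⟩ := exists_C h
  refine continuousOn_tsum (fun n => ?_) (bet_summable h hC) fun n p hp => ?_
  · have h1 := v_cont h (n.1 + i)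
    have h2 : ContinuousOn (fun p : ℝ × ℝ × ℝ => κ n p.1) (Dm B t₀ T) :=
      ((hκ.cont n).comp continuous_fst).continuousOn
    have h3 : ContinuousOn (fun p : ℝ × ℝ × ℝ => e n p.2.2) (Dm B t₀ T) :=
      ((he.cont n).comp (continuous_snd.comp continuous_snd)).continuousOn
    exact (h1.mul h2).mul h3
  · exact term_bd hi hb hκ he hp.1.1.le (abs_le.2 ⟨hp.2.1.1.le, hp.2.1.2.le⟩) n p.2.2

/-- derivative in the space variables -/
theorem GG_fd (h : Ctx a B Ts t₀ T ρ M b uh u v) {i : ℕ} (hi : i + 1 ≤ 3)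
    {κ e κ₁ e₁ : ℕ × ℤ → ℝ → ℝ} (hκ : Adm a t₀ T M uh κ) (he : Prf e)
    (hκ₁ : Adm a t₀ T M uh κ₁) (he₁ : Prf e₁) {w : ℕ × ℤ → ℝ} (hw : ∀ n t, κ₁ n t = w n * κ n t)
    (hd : ∀ n y, HasDerivAt (e n) (w n * e₁ n y) y) {t x y : ℝ} (ht : t ∈ Ioo t₀ T)
    (hx : |x| < B) :
    HasFDerivAt (fun p : ℝ × ℝ => GG v i κ e t p.1 p.2)
      (GG v (i + 1) κ e t x y • ContinuousLinearMap.fst ℝ ℝ ℝ +
        GG v i κ₁ e₁ t x y • ContinuousLinearMap.snd ℝ ℝ ℝ) (x, y) := by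
  obtain ⟨C, hC, hb⟩ := exists_C h
  have ht0 : 0 < t := h.hyp.t0.trans ht.1
  set s : Set (ℝ × ℝ) := Ioo (-B) B ×ˢ (univ : Set ℝ) with hs
  have hxs : (x, y) ∈ s := ⟨abs_lt.1 hx, mem_univ _⟩
  set f' : ℕ × ℤ → ℝ × ℝ → (ℝ × ℝ →L[ℝ] ℝ) := fun n p =>
    (v (n.1 + (i + 1)) t p.1 * κ n t * e n p.2) • ContinuousLinearMap.fst ℝ ℝ ℝ +
    (v (n.1 + i) t p.1 * κ₁ n t * e₁ n p.2) • ContinuousLinearMap.snd ℝ ℝ ℝ with hf'
  have key : HasFDerivAt (fun p : ℝ × ℝ => ∑' n, v (n.1 + i) t p.1 * κ n t * e n p.2)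
      (∑' n, f' n (x, y)) (x, y) := by
    refine hasFDerivAt_tsum_of_isPreconnected (u := fun n => 2 * bet a t₀ T ρ M C uh n)
      ((bet_summable h hC).mul_left 2) (isOpen_Ioo.prod isOpen_univ)
      (isPreconnected_Ioo.prod isPreconnected_univ) (s := s)
      (f := fun n (p : ℝ × ℝ) => v (n.1 + i) t p.1 * κ n t * e n p.2) (f' := f')
      (x₀ := (x, y)) ?_ ?_ hxs (GG_summ h (by omega) hκ he ht.1.le hx.le y) hxs
    · rintro n ⟨x', y'⟩ ⟨hx', -⟩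
      have d1 := h.sw.dx (n.1 + i) t x' ht0 (abs_lt.2 hx')
      have d2 : HasFDerivAt (fun p : ℝ × ℝ => v (n.1 + i) t p.1)
          (v (n.1 + i + 1) t x' • ContinuousLinearMap.fst ℝ ℝ ℝ) (x', y') := by
        have := d1.comp_hasFDerivAt (x', y') (hasFDerivAt_fst (𝕜 := ℝ) (E := ℝ) (F := ℝ))
        exact this
      have d3 : HasFDerivAt (fun p : ℝ × ℝ => e n p.2)
          ((w n * e₁ n y') • ContinuousLinearMap.snd ℝ ℝ ℝ) (x', y') := by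
        have := (hd n y').comp_hasFDerivAt (x', y') (hasFDerivAt_snd (𝕜 := ℝ) (E := ℝ) (F := ℝ))
        exact this
      have d4 := (d2.mul_const (κ n t)).mul d3
      refine HasFDerivAt.congr_fderiv d4 ?_
      simp only [hf']
      rw [hw]
      ext
      · simp
        ring
      · simp
        ring
    · rintro n ⟨x', y'⟩ ⟨hx', -⟩
      have hx'' : |x'| ≤ B := abs_le.2 ⟨hx'.1.le, hx'.2.le⟩
      have b1 := term_bd (i := i + 1) hi hb hκ he ht.1.le hx'' n y'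
      have b2 := term_bd (i := i) (by omega) hb hκ₁ he₁ ht.1.le hx'' n y'
      simp only [hf']
      refine (norm_comb_le _ _).trans ?_
      linarith
  have s1 := GG_summ h hi hκ he ht.1.le hx.le y
  have s2 := GG_summ h (i := i) (by omega) hκ₁ he₁ ht.1.le hx.le y
  have e1 : ∑' n, f' n (x, y) = GG v (i + 1) κ e t x y • ContinuousLinearMap.fst ℝ ℝ ℝ +
        GG v i κ₁ e₁ t x y • ContinuousLinearMap.snd ℝ ℝ ℝ := by
    simp only [hf']
    rw [(s1.smul_const _).tsum_add (s2.smul_const _), s1.tsum_smul_const, s2.tsum_smul_const]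
    rfl
  rw [← e1]
  exact key

end

end Pool.Agent.H72.NS
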