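import Pool.Agent.H72.NS.N6
import Pool.Agent.H72.Lib.S3997.NC.Scal

/-!
# The transported flow: joint derivative and the equation
-/

set_option autoImplicit false

open Set Filter Topology MeasureTheory
open scoped ContDiff

namespace Pool.Agent.H72.NS

open Pool.Agent.Q61.NC

section

variable {a B Ts t₀ T ρ M : ℝ} {b uh : ℤ → ℝ} {u : ℤ → ℝ → ℝ} {v : ℕ → ℝ → ℝ → ℝ}

/-- coefficients -/
noncomputable def kz (a t₀ T : ℝ) (b : ℤ → ℝ) (u : ℤ → ℝ → ℝ) (n : ℕ × ℤ) (t : ℝ) : ℝ :=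
  zc t₀ T (lam (4 * a)) b u (n.1 + 1) n.2 t

noncomputable def ko (a t₀ T : ℝ) (b : ℤ → ℝ) (u : ℤ → ℝ → ℝ) (n : ℕ × ℤ) (t : ℝ) : ℝ :=
  om (4 * a) n.2 * kz a t₀ T b u n t

noncomputable def kl (a t₀ T : ℝ) (b : ℤ → ℝ) (u : ℤ → ℝ → ℝ) (n : ℕ × ℤ) (t : ℝ) : ℝ :=
  -om (4 * a) n.2 * ko a t₀ T b u n t

noncomputable def kf (a t₀ T : ℝ) (b : ℤ → ℝ) (u : ℤ → ℝ → ℝ) (n : ℕ × ℤ) (t : ℝ) : ℝ :=
  fc u (zc t₀ T (lam (4 * a)) b u n.1) n.2 t

noncomputable def kp (a t₀ T : ℝ) (b : ℤ → ℝ) (u : ℤ → ℝ → ℝ) (n : ℕ × ℤ) (t : ℝ) : ℝ :=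
  -(lam (4 * a) n.2 * kz a t₀ T b u n t) - kf a t₀ T b u n t

theorem kl_eq (n : ℕ × ℤ) (t : ℝ) :
    kl a t₀ T b u n t = -(lam (4 * a) n.2 * kz a t₀ T b u n t) := by
  unfold kl ko lam
  ring

theorem kz_bd (h : Ctx a B Ts t₀ T ρ M b uh u v) (n : ℕ × ℤ) (t : ℝ) :
    |kz a t₀ T b u n t| ≤ T * ((T ^ n.1 / (n.1.factorial : ℝ)) *
      AA M t₀ (lam (4 * a)) uh (n.1 + 1) n.2) := by
  have hT := h.T0
  have h1 := zc_bound h.hyp (n.1 + 1) n.2 t
  have h2 := (AA_props h.hyp (n.1 + 1)).2.1 n.2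
  refine h1.trans ?_
  have h3 : T ^ (n.1 + 1) / ((n.1 + 1).factorial : ℝ) ≤ T * (T ^ n.1 / (n.1.factorial : ℝ)) := by
    rw [pow_succ, mul_comm (T ^ n.1), mul_div_assoc]
    have h4 : ((n.1).factorial : ℝ) ≤ ((n.1 + 1).factorial : ℝ) := by
      exact_mod_cast Nat.factorial_le (by omega)
    gcongr
  calc _ ≤ AA M t₀ (lam (4 * a)) uh (n.1 + 1) n.2 * (T * (T ^ n.1 / (n.1.factorial : ℝ))) := by
        gcongr
    _ = _ := by ring

theorem klz_bd (h : Ctx a B Ts t₀ T ρ M b uh u v) (n : ℕ × ℤ) (t : ℝ) :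
    lam (4 * a) n.2 * |kz a t₀ T b u n t| ≤ (T ^ n.1 / (n.1.factorial : ℝ)) *
      AA M t₀ (lam (4 * a)) uh (n.1 + 1) n.2 := by
  rw [mul_comm (T ^ n.1 / (n.1.factorial : ℝ))]
  exact lzc_bound h.hyp n.1 n.2 t

theorem kf_bd (h : Ctx a B Ts t₀ T ρ M b uh u v) (n : ℕ × ℤ) (t : ℝ) :
    |kf a t₀ T b u n t| ≤ (T ^ n.1 / (n.1.factorial : ℝ)) *
      AA M t₀ (lam (4 * a)) uh (n.1 + 1) n.2 := by
  rw [mul_comm (T ^ n.1 / (n.1.factorial : ℝ))]
  exact fc_bound h.hyp n.1 n.2 t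

theorem base_nonneg (h : Ctx a B Ts t₀ T ρ M b uh u v) (n : ℕ × ℤ) :
    0 ≤ (T ^ n.1 / (n.1.factorial : ℝ)) * AA M t₀ (lam (4 * a)) uh (n.1 + 1) n.2 := by
  have hT := h.T0
  have h2 := (AA_props h.hyp (n.1 + 1)).2.1 n.2
  positivity

theorem bz_eq (n : ℕ × ℤ) : bz a t₀ T M uh n = 2 * (1 + T) * ((T ^ n.1 / (n.1.factorial : ℝ)) *
      AA M t₀ (lam (4 * a)) uh (n.1 + 1) n.2) := by
  unfold bz
  ring

theorem adm_z (h : Ctx a B Ts t₀ T ρ M b uh u v) : Adm a t₀ T M uh (kz a t₀ T b u) where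
  cont n := (zc_props h.hyp (n.1 + 1)).1 n.2
  bd n t := by
    have h1 := kz_bd h n t
    have h2 := base_nonneg h n
    have hT := h.T0
    rw [bz_eq]
    nlinarith

theorem adm_f (h : Ctx a B Ts t₀ T ρ M b uh u v) : Adm a t₀ T M uh (kf a t₀ T b u) where
  cont n := (fc_zc h.hyp n.1 n.2).1
  bd n t := by
    have h1 := kf_bd h n t
    have h2 := base_nonneg h n
    have hT := h.T0
    rw [bz_eq]
    nlinarith

theorem adm_o (h : Ctx a B Ts t₀ T ρ M b uh u v) : Adm a t₀ T M uh (ko a t₀ T b u) where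
  cont n := ((adm_z h).cont n).const_mul _
  bd n t := by
    have h1 := kz_bd h n t
    have h3 := klz_bd h n t
    have h2 := base_nonneg h n
    have hT := h.T0
    have h4 := abs_om_le (L := 4 * a) n.2
    unfold ko
    rw [bz_eq, abs_mul]
    calc |om (4 * a) n.2| * |kz a t₀ T b u n t|
        ≤ (1 + lam (4 * a) n.2) * |kz a t₀ T b u n t| := by gcongr
      _ = |kz a t₀ T b u n t| + lam (4 * a) n.2 * |kz a t₀ T b u n t| := by ring
      _ ≤ _ := by nlinarith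

theorem adm_l (h : Ctx a B Ts t₀ T ρ M b uh u v) : Adm a t₀ T M uh (kl a t₀ T b u) where
  cont n := ((adm_o h).cont n).const_mul _
  bd n t := by
    have h3 := klz_bd h n t
    have h2 := base_nonneg h n
    have hT := h.T0
    rw [kl_eq, bz_eq, abs_neg, abs_mul, abs_of_nonneg (lam_nonneg _ _)]
    nlinarith

theorem adm_p (h : Ctx a B Ts t₀ T ρ M b uh u v) : Adm a t₀ T M uh (kp a t₀ T b u) where
  cont n := (((adm_z h).cont n).const_mul _).neg.sub ((adm_f h).cont n)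
  bd n t := by
    have h3 := klz_bd h n t
    have h4 := kf_bd h n t
    have h2 := base_nonneg h n
    have hT := h.T0
    unfold kp
    rw [bz_eq]
    have h5 := abs_sub (-(lam (4 * a) n.2 * kz a t₀ T b u n t)) (kf a t₀ T b u n t)
    rw [abs_neg, abs_mul, abs_of_nonneg (lam_nonneg _ _)] at h5
    nlinarith

theorem kz_deriv (h : Ctx a B Ts t₀ T ρ M b uh u v) (n : ℕ × ℤ) {t : ℝ} (ht : t ∈ Ioo t₀ T) :
    HasDerivAt (kz a t₀ T b u n) (kp a t₀ T b u n t) t :=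
  zc_deriv h.hyp n.1 n.2 ht.1 ht.2

/-- the three coordinate maps -/
noncomputable def Dt : ℝ × ℝ × ℝ →L[ℝ] ℝ := ContinuousLinearMap.fst ℝ ℝ (ℝ × ℝ)

noncomputable def Dx : ℝ × ℝ × ℝ →L[ℝ] ℝ :=
  (ContinuousLinearMap.fst ℝ ℝ ℝ).comp (ContinuousLinearMap.snd ℝ ℝ (ℝ × ℝ))

noncomputable def Dy : ℝ × ℝ × ℝ →L[ℝ] ℝ :=
  (ContinuousLinearMap.snd ℝ ℝ ℝ).comp (ContinuousLinearMap.snd ℝ ℝ (ℝ × ℝ))

theorem Dt_le : ‖Dt‖ ≤ 1 := ContinuousLinearMap.norm_fst_le ℝ ℝ (ℝ × ℝ)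

theorem Dx_le : ‖Dx‖ ≤ 1 := by
  refine (ContinuousLinearMap.opNorm_comp_le _ _).trans ?_
  have h1 := ContinuousLinearMap.norm_fst_le ℝ ℝ ℝ
  have h2 := ContinuousLinearMap.norm_snd_le ℝ ℝ (ℝ × ℝ)
  exact mul_le_one₀ h1 (norm_nonneg _) h2

theorem Dy_le : ‖Dy‖ ≤ 1 := by
  refine (ContinuousLinearMap.opNorm_comp_le _ _).trans ?_
  have h1 := ContinuousLinearMap.norm_snd_le ℝ ℝ ℝ
  have h2 := ContinuousLinearMap.norm_snd_le ℝ ℝ (ℝ × ℝ)
  exact mul_le_one₀ h1 (norm_nonneg _) h2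

theorem comb_le (α β γ : ℝ) : ‖α • Dt + β • Dx + γ • Dy‖ ≤ |α| + |β| + |γ| := by
  have h1 := norm_add₃_le (a := α • Dt) (b := β • Dx) (c := γ • Dy)
  rw [norm_smul, norm_smul, norm_smul, Real.norm_eq_abs, Real.norm_eq_abs, Real.norm_eq_abs] at h1
  have h2 := mul_le_mul_of_nonneg_left Dt_le (abs_nonneg α)
  have h3 := mul_le_mul_of_nonneg_left Dx_le (abs_nonneg β)
  have h4 := mul_le_mul_of_nonneg_left Dy_le (abs_nonneg γ)
  linarith

/-- the transported part -/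
noncomputable def RR (a t₀ T : ℝ) (b : ℤ → ℝ) (u : ℤ → ℝ → ℝ) (v : ℕ → ℝ → ℝ → ℝ) (t x y : ℝ) : ℝ :=
  GG v 1 (kz a t₀ T b u) (SS a) t x y

noncomputable def RRt (a t₀ T : ℝ) (b : ℤ → ℝ) (u : ℤ → ℝ → ℝ) (v : ℕ → ℝ → ℝ → ℝ)
    (t x y : ℝ) : ℝ :=
  GG v 3 (kz a t₀ T b u) (SS a) t x y + GG v 1 (kp a t₀ T b u) (SS a) t x y

/-- joint derivative -/
theorem RR_fd (h : Ctx a B Ts t₀ T ρ M b uh u v) {t x y : ℝ} (ht : t ∈ Ioo t₀ T)
    (hx : |x| < B) :
    HasFDerivAt (fun p : ℝ × ℝ × ℝ => RR a t₀ T b u v p.1 p.2.1 p.2.2)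
      (RRt a t₀ T b u v t x y • Dt + GG v 2 (kz a t₀ T b u) (SS a) t x y • Dx +
        GG v 1 (ko a t₀ T b u) (CC a) t x y • Dy) (t, x, y) := by
  obtain ⟨C, hC, hb⟩ := exists_C h
  have hxs : (t, x, y) ∈ Dm B t₀ T := ⟨ht, abs_lt.1 hx, mem_univ _⟩
  set κ := kz a t₀ T b u with hκ
  set f' : ℕ × ℤ → ℝ × ℝ × ℝ → (ℝ × ℝ × ℝ →L[ℝ] ℝ) := fun n p =>
    (v (n.1 + 3) p.1 p.2.1 * κ n p.1 * SS a n p.2.2 +
      v (n.1 + 1) p.1 p.2.1 * kp a t₀ T b u n p.1 * SS a n p.2.2) • Dt +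
    (v (n.1 + 2) p.1 p.2.1 * κ n p.1 * SS a n p.2.2) • Dx +
    (v (n.1 + 1) p.1 p.2.1 * ko a t₀ T b u n p.1 * CC a n p.2.2) • Dy with hf'
  have az := adm_z h
  have ap := adm_p h
  have ao := adm_o h
  have key : HasFDerivAt (fun p : ℝ × ℝ × ℝ => ∑' n, v (n.1 + 1) p.1 p.2.1 * κ n p.1 * SS a n p.2.2)
      (∑' n, f' n (t, x, y)) (t, x, y) := by
    refine hasFDerivAt_tsum_of_isPreconnected (u := fun n => 4 * bet a t₀ T ρ M C uh n)
      ((bet_summable h hC).mul_left 4) Dm_open Dm_conn (s := Dm B t₀ T)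
      (f := fun n (p : ℝ × ℝ × ℝ) => v (n.1 + 1) p.1 p.2.1 * κ n p.1 * SS a n p.2.2) (f' := f')
      (x₀ := (t, x, y)) ?_ ?_ hxs (GG_summ h (by omega) az (SS_prf (a := a)) ht.1.le hx.le y) hxs
    · rintro n ⟨t', x', y'⟩ ⟨ht', hx', -⟩
      have ht0 : 0 < t' := h.hyp.t0.trans ht'.1
      have d1 := h.sw.fd (n.1 + 1) t' x' ht0 (abs_lt.2 hx')
      have hpr : HasFDerivAt (fun p : ℝ × ℝ × ℝ => (p.1, p.2.1)) (Dt.prod Dx) (t', x', y') :=
        (Dt.prod Dx).hasFDerivAt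
      have d2 : HasFDerivAt (fun p : ℝ × ℝ × ℝ => v (n.1 + 1) p.1 p.2.1)
          ((v (n.1 + 3) t' x' • ContinuousLinearMap.fst ℝ ℝ ℝ +
            v (n.1 + 2) t' x' • ContinuousLinearMap.snd ℝ ℝ ℝ).comp (Dt.prod Dx)) (t', x', y') :=
        HasFDerivAt.comp (g := fun q : ℝ × ℝ => v (n.1 + 1) q.1 q.2) (t', x', y') d1 hpr
      have d3 : HasFDerivAt (fun p : ℝ × ℝ × ℝ => κ n p.1) (kp a t₀ T b u n t' • Dt)
          (t', x', y') := by
        have := (kz_deriv h n ht').comp_hasFDerivAt (t', x', y') Dt.hasFDerivAt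
        exact this
      have d4 : HasFDerivAt (fun p : ℝ × ℝ × ℝ => SS a n p.2.2)
          ((om (4 * a) n.2 * CC a n y') • Dy) (t', x', y') := by
        have := (SS_deriv (a := a) n y').comp_hasFDerivAt (t', x', y') Dy.hasFDerivAt
        exact this
      have d5 := (d2.mul d3).mul d4
      refine HasFDerivAt.congr_fderiv d5 ?_
      simp only [hf', ko, hκ]
      ext
      · simp [Dt, Dx, Dy]
        ring
      · simp [Dt, Dx, Dy]
        ring
      · simp [Dt, Dx, Dy]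
        ring
    · rintro n ⟨t', x', y'⟩ ⟨ht', hx', -⟩
      have hx'' : |x'| ≤ B := abs_le.2 ⟨hx'.1.le, hx'.2.le⟩
      have b1 := term_bd (i := 3) le_rfl hb az (SS_prf (a := a)) ht'.1.le hx'' n y'
      have b2 := term_bd (i := 1) (by omega) hb ap (SS_prf (a := a)) ht'.1.le hx'' n y'
      have b3 := term_bd (i := 2) (by omega) hb az (SS_prf (a := a)) ht'.1.le hx'' n y'
      have b4 := term_bd (i := 1) (by omega) hb ao (CC_prf (a := a)) ht'.1.le hx'' n y'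
      simp only [hf']
      refine (comb_le _ _ _).trans ?_
      have b5 := abs_add_le (v (n.1 + 3) t' x' * κ n t' * SS a n y')
        (v (n.1 + 1) t' x' * kp a t₀ T b u n t' * SS a n y')
      linarith
  have s1 := GG_summ h (i := 3) le_rfl az (SS_prf (a := a)) ht.1.le hx.le y
  have s2 := GG_summ h (i := 1) (by omega) ap (SS_prf (a := a)) ht.1.le hx.le y
  have s3 := GG_summ h (i := 2) (by omega) az (SS_prf (a := a)) ht.1.le hx.le y
  have s4 := GG_summ h (i := 1) (by omega) ao (CC_prf (a := a)) ht.1.le hx.le y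
  have e1 : ∑' n, f' n (t, x, y) =
      RRt a t₀ T b u v t x y • Dt + GG v 2 (kz a t₀ T b u) (SS a) t x y • Dx +
        GG v 1 (ko a t₀ T b u) (CC a) t x y • Dy := by
    simp only [hf']
    rw [(((s1.add s2).smul_const _).add (s3.smul_const _)).tsum_add (s4.smul_const _),
      ((s1.add s2).smul_const _).tsum_add (s3.smul_const _), (s1.add s2).tsum_smul_const,
      s3.tsum_smul_const, s4.tsum_smul_const, s1.tsum_add s2]
    rfl
  rw [← e1]
  exact key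

/-- the equation -/
theorem RR_eq (h : Ctx a B Ts t₀ T ρ M b uh u v) (hs : ∀ p t, u (-p) t = u p t) {t x : ℝ}
    (ht : t ∈ Ioo t₀ T) (hx : |x| < B) (y : ℝ) :
    RRt a t₀ T b u v t x y + (∑' p : ℤ, u p t * Real.cos (om (4 * a) p * (y + a))) *
      GG v 2 (kz a t₀ T b u) (SS a) t x y -
      (GG v 3 (kz a t₀ T b u) (SS a) t x y + GG v 1 (kl a t₀ T b u) (SS a) t x y) =
    -(v 1 t x * ((∑' p : ℤ, u p t * Real.cos (om (4 * a) p * (y + a))) *
      ∑' q : ℤ, b q * Real.exp (-(lam (4 * a) q * t)) * Real.sin (om (4 * a) q * (y + a)))) := by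
  set U : ℝ := ∑' p : ℤ, u p t * Real.cos (om (4 * a) p * (y + a)) with hU
  set Q : ℕ → ℝ := fun m => ∑' q : ℤ, zc t₀ T (lam (4 * a)) b u m q t *
    Real.sin (om (4 * a) q * (y + a)) with hQ
  have az := adm_z h
  have ap := adm_p h
  have al := adm_l h
  have af := adm_f h
  have sz := GG_summ h (i := 2) (by omega) az (SS_prf (a := a)) ht.1.le hx.le y
  have sp := GG_summ h (i := 1) (by omega) ap (SS_prf (a := a)) ht.1.le hx.le y
  have sl := GG_summ h (i := 1) (by omega) al (SS_prf (a := a)) ht.1.le hx.le y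
  have sf := GG_summ h (i := 1) (by omega) af (SS_prf (a := a)) ht.1.le hx.le y
  -- products
  have hus : Summable fun p => |u p t| :=
    Summable.of_nonneg_of_le (fun _ => abs_nonneg _) (fun p => h.hyp.ub p t) h.hyp.us
  have hzs : ∀ m, Summable fun q => |zc t₀ T (lam (4 * a)) b u m q t| := fun m =>
    Summable.of_nonneg_of_le (fun _ => abs_nonneg _) (fun q => zc_bound h.hyp m q t)
      ((AA_props h.hyp m).1.mul_right _)
  have hP : ∀ m, ∑' q, kf a t₀ T b u (m, q) t * Real.sin (om (4 * a) q * (y + a)) = U * Q m := by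
    intro m
    rw [hU, hQ]
    simp only
    rw [prod_series hus (hzs m) (fun p => hs p t) (w := fun p => om (4 * a) p * (y + a))
      (fun p q => om_add (4 * a) (y + a) p q)]
    rfl
  have e1 : GG v 1 (kf a t₀ T b u) (SS a) t x y = ∑' m : ℕ, v (m + 1) t x * (U * Q m) := by
    unfold GG
    rw [sf.tsum_prod]
    refine tsum_congr fun m => ?_
    rw [← hP m, ← tsum_mul_left]
    refine tsum_congr fun q => ?_
    unfold SS
    ring
  have sF : Summable fun m : ℕ => v (m + 1) t x * (U * Q m) := by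
    have h9 : Summable fun m : ℕ => ∑' q : ℤ,
        v ((m, q).1 + 1) t x * kf a t₀ T b u (m, q) t * SS a (m, q) y := sf.prod
    refine h9.congr fun m => ?_
    rw [← hP m, ← tsum_mul_left]
    refine tsum_congr fun q => ?_
    unfold SS
    ring
  have e2 : GG v 2 (kz a t₀ T b u) (SS a) t x y = ∑' m : ℕ, v (m + 2) t x * Q (m + 1) := by
    unfold GG
    rw [sz.tsum_prod]
    refine tsum_congr fun m => ?_
    rw [hQ]
    simp only
    rw [← tsum_mul_left]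
    refine tsum_congr fun q => ?_
    unfold SS kz
    ring
  have e3 : ∑' m : ℕ, v (m + 1) t x * (U * Q m) =
      v 1 t x * (U * Q 0) + U * GG v 2 (kz a t₀ T b u) (SS a) t x y := by
    have e6 : U * ∑' m : ℕ, v (m + 2) t x * Q (m + 1) =
        ∑' m : ℕ, v (m + 1 + 1) t x * (U * Q (m + 1)) := by
      rw [← tsum_mul_left]
      exact tsum_congr fun m => by ring
    rw [sF.tsum_eq_zero_add, e2, e6]
  have e4 : Q 0 = ∑' q : ℤ, b q * Real.exp (-(lam (4 * a) q * t)) *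
      Real.sin (om (4 * a) q * (y + a)) := by
    rw [hQ]
    refine tsum_congr fun q => ?_
    show b q * Real.exp (-(lam (4 * a) q * cl t₀ T t)) * _ = _
    rw [cl_of ht.1.le ht.2.le]
  have e5 : GG v 1 (kp a t₀ T b u) (SS a) t x y - GG v 1 (kl a t₀ T b u) (SS a) t x y =
      -GG v 1 (kf a t₀ T b u) (SS a) t x y := by
    unfold GG
    rw [← sp.tsum_sub sl, ← tsum_neg]
    refine tsum_congr fun n => ?_
    rw [kl_eq]
    unfold kp
    ring
  unfold RRt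
  rw [← e4]
  linear_combination e5 - e1 - e3

end

end Pool.Agent.H72.NS
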