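import Pool.Agent.H72.NS.N1
import Pool.Agent.H72.NS.N7

/-!
# The transported flow for all positive times
-/

set_option autoImplicit false

open Set Filter Topology MeasureTheory
open scoped ContDiff

namespace Pool.Agent.H72.NS

open Pool.Agent.Q61.NC

section

variable {a B Ts t₀ T ρ M : ℝ} {b uh : ℤ → ℝ} {u : ℤ → ℝ → ℝ} {v : ℕ → ℝ → ℝ → ℝ}

theorem GG_zero (h : Ctx a B Ts t₀ T ρ M b uh u v) {t : ℝ} (ht : 0 < t)
    (hc : t ≤ Ts / 2 ∨ Ts ≤ t) {i : ℕ} (hi : 1 ≤ i) (κ e : ℕ × ℤ → ℝ → ℝ) (x y : ℝ) :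
    GG v i κ e t x y = 0 := by
  unfold GG
  have : ∀ n : ℕ × ℤ, v (n.1 + i) t x * κ n t * e n y = 0 := by
    intro n
    have h1 : v (n.1 + i) t x = 0 := by
      rcases hc with hc | hc
      · obtain ⟨j, rfl⟩ : ∃ j, i = j + 1 := ⟨i - 1, by omega⟩
        exact h.sw.onem (n.1 + j) t x ht hc
      · exact h.sw.zero _ t x hc
    rw [h1, zero_mul, zero_mul]
  simp [this]

/-- the cover of the positive times -/
theorem cover (h1 : t₀ < Ts / 2) (h2 : Ts < T) (t : ℝ) (ht : 0 < t) :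
    t ∈ Ioo t₀ T ∨ ∀ᶠ s in 𝓝 t, 0 < s ∧ (s ≤ Ts / 2 ∨ Ts ≤ s) := by
  by_cases h3 : t < Ts / 2
  · right
    filter_upwards [Ioo_mem_nhds ht h3] with s hs
    exact ⟨hs.1, Or.inl hs.2.le⟩
  · by_cases h4 : t < T
    · left
      exact ⟨by linarith, h4⟩
    · right
      filter_upwards [Ioi_mem_nhds ht, Ioi_mem_nhds (h2.trans_le (not_lt.1 h4))] with s hs hs'
      exact ⟨hs, Or.inr (le_of_lt hs')⟩

theorem GGc (h : Ctx a B Ts t₀ T ρ M b uh u v) (h1 : t₀ < Ts / 2) (h2 : Ts < T) {i : ℕ}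
    (hi1 : 1 ≤ i) (hi : i ≤ 3) {κ e : ℕ × ℤ → ℝ → ℝ} (hκ : Adm a t₀ T M uh κ) (he : Prf e)
    {t x : ℝ} (y : ℝ) (ht : 0 < t) (hx : |x| < B) :
    ContinuousAt (fun p : ℝ × ℝ × ℝ => GG v i κ e p.1 p.2.1 p.2.2) (t, x, y) := by
  rcases cover h1 h2 t ht with hc | hc
  · exact (GG_cont h hi hκ he).continuousAt (Dm_open.mem_nhds ⟨hc, abs_lt.1 hx, mem_univ _⟩)
  · have h3 : (fun p : ℝ × ℝ × ℝ => GG v i κ e p.1 p.2.1 p.2.2) =ᶠ[𝓝 (t, x, y)] fun _ => 0 := by
      have h4 : Tendsto (fun p : ℝ × ℝ × ℝ => p.1) (𝓝 (t, x, y)) (𝓝 t) := continuous_fst.continuousAt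
      filter_upwards [h4.eventually hc] with p hp
      exact GG_zero h hp.1 hp.2 hi1 κ e _ _
    exact continuousAt_const.congr h3.symm

theorem GGfd (h : Ctx a B Ts t₀ T ρ M b uh u v) (h1 : t₀ < Ts / 2) (h2 : Ts < T) {i : ℕ}
    (hi1 : 1 ≤ i) (hi : i + 1 ≤ 3)
    {κ e κ₁ e₁ : ℕ × ℤ → ℝ → ℝ} (hκ : Adm a t₀ T M uh κ) (he : Prf e)
    (hκ₁ : Adm a t₀ T M uh κ₁) (he₁ : Prf e₁) {w : ℕ × ℤ → ℝ} (hw : ∀ n t, κ₁ n t = w n * κ n t)
    (hd : ∀ n y, HasDerivAt (e n) (w n * e₁ n y) y) {t x : ℝ} (y : ℝ) (ht : 0 < t)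
    (hx : |x| < B) :
    HasFDerivAt (fun p : ℝ × ℝ => GG v i κ e t p.1 p.2)
      (GG v (i + 1) κ e t x y • ContinuousLinearMap.fst ℝ ℝ ℝ +
        GG v i κ₁ e₁ t x y • ContinuousLinearMap.snd ℝ ℝ ℝ) (x, y) := by
  rcases cover h1 h2 t ht with hc | hc
  · exact GG_fd h hi hκ he hκ₁ he₁ hw hd hc hx
  · have hc' := hc.self_of_nhds
    have e1 : (fun p : ℝ × ℝ => GG v i κ e t p.1 p.2) = fun _ => 0 :=
      funext fun p => GG_zero h hc'.1 hc'.2 hi1 κ e _ _
    rw [e1, GG_zero h hc'.1 hc'.2 (by omega), GG_zero h hc'.1 hc'.2 hi1, zero_smul, zero_smul,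
      add_zero]
    exact hasFDerivAt_const _ _

theorem RRfd (h : Ctx a B Ts t₀ T ρ M b uh u v) (h1 : t₀ < Ts / 2) (h2 : Ts < T)
    {t x : ℝ} (y : ℝ) (ht : 0 < t) (hx : |x| < B) :
    HasFDerivAt (fun p : ℝ × ℝ × ℝ => RR a t₀ T b u v p.1 p.2.1 p.2.2)
      (RRt a t₀ T b u v t x y • Dt + GG v 2 (kz a t₀ T b u) (SS a) t x y • Dx +
        GG v 1 (ko a t₀ T b u) (CC a) t x y • Dy) (t, x, y) := by
  rcases cover h1 h2 t ht with hc | hc
  · exact RR_fd h hc hx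
  · have hc' := hc.self_of_nhds
    have h3 : (fun p : ℝ × ℝ × ℝ => RR a t₀ T b u v p.1 p.2.1 p.2.2) =ᶠ[𝓝 (t, x, y)]
        fun _ => 0 := by
      have h4 : Tendsto (fun p : ℝ × ℝ × ℝ => p.1) (𝓝 (t, x, y)) (𝓝 t) := continuous_fst.continuousAt
      filter_upwards [h4.eventually hc] with p hp
      exact GG_zero h hp.1 hp.2 le_rfl _ _ _ _
    unfold RRt
    rw [GG_zero h hc'.1 hc'.2 (by omega), GG_zero h hc'.1 hc'.2 (by omega),
      GG_zero h hc'.1 hc'.2 (by omega), GG_zero h hc'.1 hc'.2 (by omega), add_zero, zero_smul,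
      zero_smul, zero_smul, add_zero, add_zero]
    exact (hasFDerivAt_const _ _).congr_of_eventuallyEq h3

end

/-- `C¹` from a continuous derivative -/
theorem cd_of {E : Type*} [NormedAddCommGroup E] [NormedSpace ℝ E] {s : Set E} (hs : IsOpen s)
    {f : E → ℝ} {f' : E → (E →L[ℝ] ℝ)} {n : ℕ} (hf : ∀ x ∈ s, HasFDerivAt f (f' x) x)
    (h' : ContDiffOn ℝ n f' s) : ContDiffOn ℝ (n + 1 : ℕ) f s := by
  push_cast
  rw [contDiffOn_succ_iff_fderiv_of_isOpen hs]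
  exact ⟨fun x hx => (hf x hx).differentiableAt.differentiableWithinAt, by simp,
    h'.congr fun x hx => (hf x hx).fderiv⟩

/-- The flow `w(t, x, y)` transported by the shear flow `U(t, y)` and stopped at time `Ts`. -/
structure WFlow (a B Ts : ℝ) (U V Vy : ℝ → ℝ → ℝ) (W Wt Wx Wy Wxx Wxy Wyy : ℝ → ℝ → ℝ → ℝ) :
    Prop where
  fd3 : ∀ t x y, 0 < t → |x| < B → |y| < 2 * a →
    HasFDerivAt (fun p : ℝ × ℝ × ℝ => W p.1 p.2.1 p.2.2)
      (Wt t x y • Dt + Wx t x y • Dx + Wy t x y • Dy) (t, x, y)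
  fd : ∀ t x y, 0 < t → |x| < B → |y| < 2 * a → HasFDerivAt (fun p : ℝ × ℝ => W t p.1 p.2)
      (Wx t x y • ContinuousLinearMap.fst ℝ ℝ ℝ + Wy t x y • ContinuousLinearMap.snd ℝ ℝ ℝ) (x, y)
  fdx : ∀ t x y, 0 < t → |x| < B → |y| < 2 * a → HasFDerivAt (fun p : ℝ × ℝ => Wx t p.1 p.2)
      (Wxx t x y • ContinuousLinearMap.fst ℝ ℝ ℝ + Wxy t x y • ContinuousLinearMap.snd ℝ ℝ ℝ) (x, y)
  fdy : ∀ t x y, 0 < t → |x| < B → |y| < 2 * a → HasFDerivAt (fun p : ℝ × ℝ => Wy t p.1 p.2)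
      (Wxy t x y • ContinuousLinearMap.fst ℝ ℝ ℝ + Wyy t x y • ContinuousLinearMap.snd ℝ ℝ ℝ) (x, y)
  ct : ∀ t x y, 0 < t → |x| < B → |y| < 2 * a →
    ContinuousAt (fun p : ℝ × ℝ × ℝ => Wt p.1 p.2.1 p.2.2) (t, x, y)
  cx : ∀ t x y, 0 < t → |x| < B → |y| < 2 * a →
    ContinuousAt (fun p : ℝ × ℝ × ℝ => Wx p.1 p.2.1 p.2.2) (t, x, y)
  cy : ∀ t x y, 0 < t → |x| < B → |y| < 2 * a →
    ContinuousAt (fun p : ℝ × ℝ × ℝ => Wy p.1 p.2.1 p.2.2) (t, x, y)
  cxx : ∀ t x y, 0 < t → |x| < B → |y| < 2 * a →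
    ContinuousAt (fun p : ℝ × ℝ × ℝ => Wxx p.1 p.2.1 p.2.2) (t, x, y)
  cxy : ∀ t x y, 0 < t → |x| < B → |y| < 2 * a →
    ContinuousAt (fun p : ℝ × ℝ × ℝ => Wxy p.1 p.2.1 p.2.2) (t, x, y)
  cyy : ∀ t x y, 0 < t → |x| < B → |y| < 2 * a →
    ContinuousAt (fun p : ℝ × ℝ × ℝ => Wyy p.1 p.2.1 p.2.2) (t, x, y)
  eq : ∀ t x y, 0 < t → |x| < B → y ∈ Icc (-a) a →
    Wt t x y + U t y * Wx t x y - (Wxx t x y + Wyy t x y) = 0
  wall : ∀ t x, 0 < t → W t x a = 0 ∧ W t x (-a) = 0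
  early : ∀ t x y, 0 < t → t ≤ Ts / 2 → W t x y = V t y ∧ Wx t x y = 0 ∧ Wy t x y = Vy t y
  late : ∀ t x y, Ts ≤ t → W t x y = 0 ∧ Wx t x y = 0 ∧ Wy t x y = 0

theorem wflow {a B Ts : ℝ} (ha : 0 < a) (hB : 0 < B) (hTs : 0 < Ts) {fk fl : ℝ → ℝ}
    {bk bl : ℤ → ℝ} {V Vt Vy U Ut Uy : ℝ → ℝ → ℝ} (hV : DFlow a fk bk V Vt Vy)
    (hU : DFlow a fl bl U Ut Uy) :
    ∃ W Wt Wx Wy Wxx Wxy Wyy : ℝ → ℝ → ℝ → ℝ, WFlow a B Ts U V Vy W Wt Wx Wy Wxx Wxy Wyy := by
  obtain ⟨Mk, hMk, hbk⟩ := hV.bd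
  obtain ⟨Ml, hMl, hbl⟩ := hU.bd
  have ht₀ : 0 < Ts / 4 := by positivity
  have hT : 0 < 2 * Ts := by positivity
  obtain ⟨u, uh, us, u0, uc, ub, usym, useq⟩ := cos_flow ha hMl hbl ht₀
  set K : ℝ := ∑' p, uh p with hK
  have hK0 : 0 ≤ K := tsum_nonneg u0
  obtain ⟨ρ, hρ0, hρ1, hρB, hρK⟩ : ∃ ρ : ℝ, 0 < ρ ∧ ρ ≤ 1 ∧ ρ ^ 2 * B ^ 2 ≤ 1 / 2 ∧
      ρ * (2 * Ts) * K ≤ 1 / 2 := by
    refine ⟨1 / (1 + 2 * B + 4 * Ts * K), by positivity, ?_, ?_, ?_⟩
    · rw [div_le_one (by positivity)]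
      have : 0 ≤ 4 * Ts * K := by positivity
      linarith
    · have h1 : 0 ≤ 4 * Ts * K := by positivity
      rw [div_pow, one_pow, one_div, inv_mul_le_iff₀ (by positivity)]
      nlinarith
    · rw [one_div, mul_assoc, inv_mul_le_iff₀ (by positivity)]
      nlinarith
  obtain ⟨v, hv⟩ := switchJ hB hTs hρ0 hρB
  have hyp : Hyp (Ts / 4) (2 * Ts) Mk (lam (4 * a)) bk uh u :=
    { le := by linarith
      t0 := ht₀
      M0 := hMk
      l0 := lam_nonneg _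
      bM := hbk
      us := us
      u0 := u0
      uc := uc
      ub := ub
      ls := summ_lam (by positivity) ht₀ }
  have h : Ctx a B Ts (Ts / 4) (2 * Ts) ρ Mk bk uh u v := ⟨ha, hB, hyp, hv, hρ0, hρ1, by linarith, hρK⟩
  have h1 : Ts / 4 < Ts / 2 := by linarith
  have h2 : Ts < 2 * Ts := by linarith
  set κ := kz a (Ts / 4) (2 * Ts) bk u with hκ
  set κo := ko a (Ts / 4) (2 * Ts) bk u with hκo
  set κl := kl a (Ts / 4) (2 * Ts) bk u with hκl
  have az : Adm a (Ts / 4) (2 * Ts) Mk uh κ := adm_z h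
  have ao : Adm a (Ts / 4) (2 * Ts) Mk uh κo := adm_o h
  have al : Adm a (Ts / 4) (2 * Ts) Mk uh κl := adm_l h
  have ap := adm_p h
  have pS := SS_prf (a := a)
  have pC := CC_prf (a := a)
  have hVc : ∀ t x y, 0 < t → |y| < 2 * a →
      ContinuousAt (fun p : ℝ × ℝ × ℝ => V p.1 p.2.2) (t, x, y) := fun t x y ht hy => by
    have h3 : ContinuousAt (fun q : ℝ × ℝ => V q.1 q.2) (t, y) := (hV.fd t y ht hy).continuousAt
    have h4 : ContinuousAt (fun p : ℝ × ℝ × ℝ => (p.1, p.2.2)) (t, x, y) := by fun_prop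
    exact ContinuousAt.comp (x := (t, x, y)) (f := fun p : ℝ × ℝ × ℝ => (p.1, p.2.2))
      (g := fun q : ℝ × ℝ => V q.1 q.2) h3 h4
  have hVyc : ∀ t x y, 0 < t → |y| < 2 * a →
      ContinuousAt (fun p : ℝ × ℝ × ℝ => Vy p.1 p.2.2) (t, x, y) := fun t x y ht hy => by
    have h3 : ContinuousAt (fun q : ℝ × ℝ => Vy q.1 q.2) (t, y) :=
      hV.ycont.continuousAt ((isOpen_Dom _).mem_nhds ⟨ht, hy⟩)
    have h4 : ContinuousAt (fun p : ℝ × ℝ × ℝ => (p.1, p.2.2)) (t, x, y) := by fun_prop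
    exact ContinuousAt.comp (x := (t, x, y)) (f := fun p : ℝ × ℝ × ℝ => (p.1, p.2.2))
      (g := fun q : ℝ × ℝ => Vy q.1 q.2) h3 h4
  have hVtc : ∀ t x y, 0 < t → |y| < 2 * a →
      ContinuousAt (fun p : ℝ × ℝ × ℝ => Vt p.1 p.2.2) (t, x, y) := fun t x y ht hy => by
    have h3 : ContinuousAt (fun q : ℝ × ℝ => Vt q.1 q.2) (t, y) :=
      hV.tcont.continuousAt ((isOpen_Dom _).mem_nhds ⟨ht, hy⟩)
    have h4 : ContinuousAt (fun p : ℝ × ℝ × ℝ => (p.1, p.2.2)) (t, x, y) := by fun_prop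
    exact ContinuousAt.comp (x := (t, x, y)) (f := fun p : ℝ × ℝ × ℝ => (p.1, p.2.2))
      (g := fun q : ℝ × ℝ => Vt q.1 q.2) h3 h4
  have hvc : ∀ m t x y, 0 < t → |x| < B →
      ContinuousAt (fun p : ℝ × ℝ × ℝ => v m p.1 p.2.1) (t, x, y) := fun m t x y ht hx => by
    have h3 : ContinuousAt (fun q : ℝ × ℝ => v m q.1 q.2) (t, x) := (hv.fd m t x ht hx).continuousAt
    have h4 : ContinuousAt (fun p : ℝ × ℝ × ℝ => (p.1, p.2.1)) (t, x, y) := by fun_prop
    exact ContinuousAt.comp (x := (t, x, y)) (f := fun p : ℝ × ℝ × ℝ => (p.1, p.2.1))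
      (g := fun q : ℝ × ℝ => v m q.1 q.2) h3 h4
  -- plane derivatives of products
  have hprod : ∀ m t x y, 0 < t → |x| < B → ∀ (g g' : ℝ → ℝ), HasDerivAt g (g' y) y →
      HasFDerivAt (fun p : ℝ × ℝ => v m t p.1 * g p.2)
        ((v (m + 1) t x * g y) • ContinuousLinearMap.fst ℝ ℝ ℝ +
          (v m t x * g' y) • ContinuousLinearMap.snd ℝ ℝ ℝ) (x, y) := by
    intro m t x y ht hx g g' hg
    have d1 : HasFDerivAt (fun p : ℝ × ℝ => v m t p.1)
        (v (m + 1) t x • ContinuousLinearMap.fst ℝ ℝ ℝ) (x, y) :=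
      (hv.dx m t x ht hx).comp_hasFDerivAt (x, y) (hasFDerivAt_fst (𝕜 := ℝ) (E := ℝ) (F := ℝ))
    have d2 : HasFDerivAt (fun p : ℝ × ℝ => g p.2)
        (g' y • ContinuousLinearMap.snd ℝ ℝ ℝ) (x, y) :=
      hg.comp_hasFDerivAt (x, y) (hasFDerivAt_snd (𝕜 := ℝ) (E := ℝ) (F := ℝ))
    refine HasFDerivAt.congr_fderiv (d1.mul d2) ?_
    ext
    · simp
      ring
    · simp
  refine ⟨fun t x y => v 0 t x * V t y + GG v 1 κ (SS a) t x y,
    fun t x y => v 2 t x * V t y + v 0 t x * Vt t y + RRt a (Ts / 4) (2 * Ts) bk u v t x y,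
    fun t x y => v 1 t x * V t y + GG v 2 κ (SS a) t x y,
    fun t x y => v 0 t x * Vy t y + GG v 1 κo (CC a) t x y,
    fun t x y => v 2 t x * V t y + GG v 3 κ (SS a) t x y,
    fun t x y => v 1 t x * Vy t y + GG v 2 κo (CC a) t x y,
    fun t x y => v 0 t x * Vt t y + GG v 1 κl (SS a) t x y, ?_⟩
  exact
    { fd3 := by
        intro t x y ht hx hy
        have d1 : HasFDerivAt (fun p : ℝ × ℝ × ℝ => v 0 p.1 p.2.1)
            ((v 2 t x • ContinuousLinearMap.fst ℝ ℝ ℝ +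
            v 1 t x • ContinuousLinearMap.snd ℝ ℝ ℝ).comp (Dt.prod Dx)) (t, x, y) :=
          HasFDerivAt.comp (g := fun q : ℝ × ℝ => v 0 q.1 q.2) (t, x, y) (hv.fd 0 t x ht hx)
            (Dt.prod Dx).hasFDerivAt
        have d2 : HasFDerivAt (fun p : ℝ × ℝ × ℝ => V p.1 p.2.2)
            ((Vt t y • ContinuousLinearMap.fst ℝ ℝ ℝ +
            Vy t y • ContinuousLinearMap.snd ℝ ℝ ℝ).comp (Dt.prod Dy)) (t, x, y) :=
          HasFDerivAt.comp (g := fun q : ℝ × ℝ => V q.1 q.2) (t, x, y) (hV.fd t y ht hy)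
            (Dt.prod Dy).hasFDerivAt
        have d3 := (d1.mul d2).add (RRfd h h1 h2 y ht hx)
        refine HasFDerivAt.congr_fderiv d3 ?_
        simp only [hκ, hκo]
        ext
        · simp [Dt, Dx, Dy]
          ring
        · simp [Dt, Dx, Dy]
          ring
        · simp [Dt, Dx, Dy]
      fd := by
        intro t x y ht hx hy
        have d1 := hprod 0 t x y ht hx (V t) (Vy t) (hV.dy t y ht hy)
        have d2 := GGfd h h1 h2 le_rfl (by omega) az pS ao pC (w := fun n => om (4 * a) n.2)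
          (fun n t => rfl) (fun n y => SS_deriv n y) y ht hx
        refine HasFDerivAt.congr_fderiv (d1.add d2) ?_
        ext
        · simp
        · simp
      fdx := by
        intro t x y ht hx hy
        have d1 := hprod 1 t x y ht hx (V t) (Vy t) (hV.dy t y ht hy)
        have d2 := GGfd h h1 h2 (i := 2) (by omega) (by omega) az pS ao pC
          (w := fun n => om (4 * a) n.2) (fun n t => rfl) (fun n y => SS_deriv n y) y ht hx
        refine HasFDerivAt.congr_fderiv (d1.add d2) ?_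
        ext
        · simp
        · simp
      fdy := by
        intro t x y ht hx hy
        have d1 := hprod 0 t x y ht hx (Vy t) (Vt t) (hV.dyy t y ht hy)
        have d2 := GGfd h h1 h2 le_rfl (by omega) ao pC al pS
          (w := fun n => -om (4 * a) n.2) (fun n t => rfl) (fun n y => CC_deriv n y) y ht hx
        refine HasFDerivAt.congr_fderiv (d1.add d2) ?_
        ext
        · simp
        · simp
      ct := fun t x y ht hx hy =>
        (((hvc 2 t x y ht hx).mul (hVc t x y ht hy)).add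
          ((hvc 0 t x y ht hx).mul (hVtc t x y ht hy))).add
          ((GGc h h1 h2 (by omega) le_rfl az pS y ht hx).add
            (GGc h h1 h2 le_rfl (by omega) ap pS y ht hx))
      cx := fun t x y ht hx hy => ((hvc 1 t x y ht hx).mul (hVc t x y ht hy)).add
        (GGc h h1 h2 (by omega) (by omega) az pS y ht hx)
      cy := fun t x y ht hx hy => ((hvc 0 t x y ht hx).mul (hVyc t x y ht hy)).add
        (GGc h h1 h2 (by omega) (by omega) ao pC y ht hx)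
      cxx := fun t x y ht hx hy => ((hvc 2 t x y ht hx).mul (hVc t x y ht hy)).add
        (GGc h h1 h2 (by omega) (by omega) az pS y ht hx)
      cxy := fun t x y ht hx hy => ((hvc 1 t x y ht hx).mul (hVyc t x y ht hy)).add
        (GGc h h1 h2 (by omega) (by omega) ao pC y ht hx)
      cyy := fun t x y ht hx hy => ((hvc 0 t x y ht hx).mul (hVtc t x y ht hy)).add
        (GGc h h1 h2 (by omega) (by omega) al pS y ht hx)
      eq := by
        intro t x y ht hx hy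
        rcases cover h1 h2 t ht with hc | hc
        · have e1 := RR_eq h usym hc hx y
          rw [← useq t y hc.1.le hy, ← hU.ser t y ht, ← hV.ser t y ht] at e1
          simp only [hκ, hκl]
          linear_combination e1
        · have hc' := hc.self_of_nhds
          have hv1 : v 1 t x = 0 := by
            rcases hc'.2 with h3 | h3
            · exact hv.onem 0 t x ht h3
            · exact hv.zero 1 t x h3
          unfold RRt
          rw [GG_zero h hc'.1 hc'.2 (by omega), GG_zero h hc'.1 hc'.2 (by omega),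
            GG_zero h hc'.1 hc'.2 (by omega), GG_zero h hc'.1 hc'.2 (by omega), hv1]
          ring
      wall := by
        intro t x ht
        obtain ⟨w1, w2⟩ := hV.wall t ht
        have hs1 : ∀ n : ℕ × ℤ, SS a n a = 0 := fun n => by
          unfold SS
          have e : om (4 * a) n.2 * (a + a) = n.2 * Real.pi := by
            unfold om
            field_simp
            ring
          rw [e]
          exact Real.sin_int_mul_pi n.2
        have hs2 : ∀ n : ℕ × ℤ, SS a n (-a) = 0 := fun n => by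
          unfold SS
          rw [neg_add_cancel, mul_zero, Real.sin_zero]
        constructor
        · rw [w1]
          unfold GG
          simp [hs1]
        · rw [w2]
          unfold GG
          simp [hs2]
      early := by
        intro t x y ht h3

        rw [GG_zero h ht (Or.inl h3) (by omega), GG_zero h ht (Or.inl h3) (by omega),
          GG_zero h ht (Or.inl h3) (by omega), hv.one t x ht h3, hv.onem 0 t x ht h3]
        simp
      late := by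
        intro t x y h3
        have ht : 0 < t := hTs.trans_le h3

        rw [GG_zero h ht (Or.inr h3) (by omega), GG_zero h ht (Or.inr h3) (by omega),
          GG_zero h ht (Or.inr h3) (by omega), hv.zero 0 t x h3, hv.zero 1 t x h3]
        simp }

end Pool.Agent.H72.NS
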