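import Pool.Agent.H72.NS.N8
import Pool.Agent.H72.NS.Defs

/-!
# Assembling the trajectory
-/

set_option autoImplicit false

open Set Filter Topology MeasureTheory
open scoped ENNReal ContDiff

namespace Pool.Agent.H72.NS

open Pool.Agent.Q61.NC

theorem dflow_zero (a : ℝ) : DFlow a (fun _ => 0) (fun _ => 0) (fun _ _ => 0) (fun _ _ => 0)
    (fun _ _ => 0) where
  bd := ⟨0, le_rfl, fun _ => by simp⟩
  ser := fun _ _ _ => by simp
  smooth := contDiffOn_const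
  ycont := continuousOn_const
  tcont := continuousOn_const
  dt := fun t _ _ _ => hasDerivAt_const t (0 : ℝ)
  dy := fun _ y _ _ => hasDerivAt_const y (0 : ℝ)
  dyy := fun _ y _ _ => hasDerivAt_const y (0 : ℝ)
  fd := fun t y _ _ => by
    rw [zero_smul, zero_smul, add_zero]
    exact hasFDerivAt_const _ _
  wall := fun _ _ => ⟨rfl, rfl⟩
  lim := by simp
  en := by simp

theorem wflow_zero (a B Ts : ℝ) (U : ℝ → ℝ → ℝ) : WFlow a B Ts U (fun _ _ => 0) (fun _ _ => 0)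
    (fun _ _ _ => 0) (fun _ _ _ => 0) (fun _ _ _ => 0) (fun _ _ _ => 0) (fun _ _ _ => 0)
    (fun _ _ _ => 0) (fun _ _ _ => 0) where
  fd3 := fun t x y _ _ _ => by
    rw [zero_smul, zero_smul, zero_smul, add_zero, add_zero]
    exact hasFDerivAt_const _ _
  fd := fun t x y _ _ _ => by
    rw [zero_smul, zero_smul, add_zero]
    exact hasFDerivAt_const _ _
  fdx := fun t x y _ _ _ => by
    rw [zero_smul, zero_smul, add_zero]
    exact hasFDerivAt_const _ _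
  fdy := fun t x y _ _ _ => by
    rw [zero_smul, zero_smul, add_zero]
    exact hasFDerivAt_const _ _
  ct := fun _ _ _ _ _ _ => continuousAt_const
  cx := fun _ _ _ _ _ _ => continuousAt_const
  cy := fun _ _ _ _ _ _ => continuousAt_const
  cxx := fun _ _ _ _ _ _ => continuousAt_const
  cxy := fun _ _ _ _ _ _ => continuousAt_const
  cyy := fun _ _ _ _ _ _ => continuousAt_const
  eq := fun _ _ _ _ _ _ => by ring
  wall := fun _ _ _ => ⟨rfl, rfl⟩
  early := fun _ _ _ _ _ => ⟨rfl, rfl, rfl⟩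
  late := fun _ _ _ _ => ⟨rfl, rfl, rfl⟩

section

variable {a B Ts : ℝ} {U V Vy : ℝ → ℝ → ℝ} {W Wt Wx Wy Wxx Wxy Wyy : ℝ → ℝ → ℝ → ℝ}

/-- the open set -/
def D3 (a B : ℝ) : Set (ℝ × ℝ × ℝ) := {p | 0 < p.1 ∧ |p.2.1| < B ∧ |p.2.2| < 2 * a}

theorem D3_open : IsOpen (D3 a B) := by
  have h1 : Continuous fun p : ℝ × ℝ × ℝ => |p.2.1| := by fun_prop
  have h2 : Continuous fun p : ℝ × ℝ × ℝ => |p.2.2| := by fun_prop
  exact (isOpen_lt continuous_const continuous_fst).inter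
    ((isOpen_lt h1 continuous_const).inter (isOpen_lt h2 continuous_const))

def D2 (a B : ℝ) : Set (ℝ × ℝ) := {p | |p.1| < B ∧ |p.2| < 2 * a}

theorem D2_open : IsOpen (D2 a B) := by
  have h1 : Continuous fun p : ℝ × ℝ => |p.1| := by fun_prop
  have h2 : Continuous fun p : ℝ × ℝ => |p.2| := by fun_prop
  exact (isOpen_lt h1 continuous_const).inter (isOpen_lt h2 continuous_const)

theorem WFlow.dt (h : WFlow a B Ts U V Vy W Wt Wx Wy Wxx Wxy Wyy) {t x y : ℝ} (ht : 0 < t)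
    (hx : |x| < B) (hy : |y| < 2 * a) : HasDerivAt (fun s => W s x y) (Wt t x y) t := by
  have h1 : HasDerivAt (fun s : ℝ => (s, x, y)) ((1 : ℝ), (0 : ℝ), (0 : ℝ)) t :=
    (hasDerivAt_id t).prodMk (hasDerivAt_const t (x, y))
  have h2 := (h.fd3 t x y ht hx hy).comp_hasDerivAt t h1
  have h3 : (Wt t x y • Dt + Wx t x y • Dx + Wy t x y • Dy) ((1 : ℝ), (0 : ℝ), (0 : ℝ)) =
      Wt t x y := by simp [Dt, Dx, Dy]
  rw [h3] at h2
  exact h2

theorem WFlow.c1 (h : WFlow a B Ts U V Vy W Wt Wx Wy Wxx Wxy Wyy) :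
    ContDiffOn ℝ 1 (fun p : ℝ × ℝ × ℝ => W p.1 p.2.1 p.2.2) (D3 a B) := by
  have h1 := cd_of (n := 0) (D3_open (a := a) (B := B))
    (f := fun p : ℝ × ℝ × ℝ => W p.1 p.2.1 p.2.2)
    (f' := fun p => Wt p.1 p.2.1 p.2.2 • Dt + Wx p.1 p.2.1 p.2.2 • Dx + Wy p.1 p.2.1 p.2.2 • Dy)
    (fun p hp => h.fd3 p.1 p.2.1 p.2.2 hp.1 hp.2.1 hp.2.2) (by
      rw [Nat.cast_zero, contDiffOn_zero]
      intro p hp
      exact ((((h.ct p.1 p.2.1 p.2.2 hp.1 hp.2.1 hp.2.2).smul continuousAt_const).add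
        ((h.cx p.1 p.2.1 p.2.2 hp.1 hp.2.1 hp.2.2).smul continuousAt_const)).add
        ((h.cy p.1 p.2.1 p.2.2 hp.1 hp.2.1 hp.2.2).smul continuousAt_const)).continuousWithinAt)
  simpa using h1

theorem slice_cont {F : ℝ → ℝ → ℝ → ℝ} {t : ℝ} {p : ℝ × ℝ}
    (h : ContinuousAt (fun q : ℝ × ℝ × ℝ => F q.1 q.2.1 q.2.2) (t, p.1, p.2)) :
    ContinuousAt (fun q : ℝ × ℝ => F t q.1 q.2) p := by
  have h1 : ContinuousAt (fun q : ℝ × ℝ => (t, q.1, q.2)) p := by fun_prop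
  exact ContinuousAt.comp (x := p) (f := fun q : ℝ × ℝ => (t, q.1, q.2))
    (g := fun q : ℝ × ℝ × ℝ => F q.1 q.2.1 q.2.2) h h1

theorem WFlow.c2 (h : WFlow a B Ts U V Vy W Wt Wx Wy Wxx Wxy Wyy) {t : ℝ} (ht : 0 < t) :
    ContDiffOn ℝ 2 (fun p : ℝ × ℝ => W t p.1 p.2) (D2 a B) := by
  have hx : ContDiffOn ℝ (0 + 1 : ℕ) (fun p : ℝ × ℝ => Wx t p.1 p.2) (D2 a B) :=
    cd_of (D2_open (a := a) (B := B))
      (fun p hp => h.fdx t p.1 p.2 ht hp.1 hp.2) (by
        rw [Nat.cast_zero, contDiffOn_zero]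
        intro p hp
        exact (((slice_cont (h.cxx t p.1 p.2 ht hp.1 hp.2)).smul continuousAt_const).add
          ((slice_cont (h.cxy t p.1 p.2 ht hp.1 hp.2)).smul continuousAt_const)).continuousWithinAt)
  have hy : ContDiffOn ℝ (0 + 1 : ℕ) (fun p : ℝ × ℝ => Wy t p.1 p.2) (D2 a B) :=
    cd_of (D2_open (a := a) (B := B))
      (fun p hp => h.fdy t p.1 p.2 ht hp.1 hp.2) (by
        rw [Nat.cast_zero, contDiffOn_zero]
        intro p hp
        exact (((slice_cont (h.cxy t p.1 p.2 ht hp.1 hp.2)).smul continuousAt_const).add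
          ((slice_cont (h.cyy t p.1 p.2 ht hp.1 hp.2)).smul continuousAt_const)).continuousWithinAt)
  have h2 := cd_of (n := 1) (D2_open (a := a) (B := B))
    (f := fun p : ℝ × ℝ => W t p.1 p.2)
    (fun p hp => h.fd t p.1 p.2 ht hp.1 hp.2) (by
      have hx' : ContDiffOn ℝ ((1 : ℕ) : WithTop ℕ∞) (fun p : ℝ × ℝ => Wx t p.1 p.2) (D2 a B) := by
        simpa using hx
      have hy' : ContDiffOn ℝ ((1 : ℕ) : WithTop ℕ∞) (fun p : ℝ × ℝ => Wy t p.1 p.2) (D2 a B) := by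
        simpa using hy
      exact (hx'.smul contDiffOn_const).add (hy'.smul contDiffOn_const))
  exact h2.of_le (by norm_num)

end

theorem pd_plane {d : ℕ} {f : Sp d → ℝ} {F : ℝ × ℝ → ℝ} {α β : ℝ} {x : Sp d} {r j : Fin d}
    (hf : f =ᶠ[𝓝 x] fun y => F (y r, y j))
    (hF : HasFDerivAt F (α • ContinuousLinearMap.fst ℝ ℝ ℝ + β • ContinuousLinearMap.snd ℝ ℝ ℝ)
      (x r, x j)) (i : Fin d) :
    pd i f x = (if i = r then α else 0) + (if i = j then β else 0) := by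
  have h1 : HasFDerivAt (fun y : Sp d => (y r, y j))
      ((EuclideanSpace.proj r : Sp d →L[ℝ] ℝ).prod (EuclideanSpace.proj j : Sp d →L[ℝ] ℝ)) x :=
    ((EuclideanSpace.proj r : Sp d →L[ℝ] ℝ).prod
      (EuclideanSpace.proj j : Sp d →L[ℝ] ℝ)).hasFDerivAt
  have h2 := HasFDerivAt.comp (g := F) x hF h1
  have h3 : pd i f x = ((α • ContinuousLinearMap.fst ℝ ℝ ℝ + β • ContinuousLinearMap.snd ℝ ℝ ℝ).comp
      ((EuclideanSpace.proj r : Sp d →L[ℝ] ℝ).prod (EuclideanSpace.proj j : Sp d →L[ℝ] ℝ)))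
      (EuclideanSpace.single i 1) := by
    rw [pd, hf.fderiv_eq]
    have h4 : (F ∘ fun y : Sp d => (y r, y j)) = fun y : Sp d => F (y r, y j) := rfl
    rw [h4] at h2
    rw [h2.fderiv]
  rw [h3]
  by_cases h5 : i = r
  · by_cases h6 : i = j
    · simp [← h5, ← h6]
    · have h7 : j ≠ i := fun h => h6 h.symm
      simp [← h5, h6, h7]
  · have h7 : r ≠ i := fun h => h5 h.symm
    by_cases h6 : i = j
    · simp [h5, h7, ← h6]
    · have h8 : j ≠ i := fun h => h6 h.symm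
      simp [h5, h6, h7, h8]

end Pool.Agent.H72.NS
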